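import Pool.Agent.FSC.Rel

namespace Pool.Agent.FSC

open scoped commutatorElement

section free

variable {n : ℕ}

/-- the endomorphism `x_i ↦ w x_i w'` of the free group, the other generators being fixed -/
def elemEnd (i : Fin n) (w w' : FreeGroup (Fin n)) : FreeGroup (Fin n) →* FreeGroup (Fin n) :=
  FreeGroup.lift (Function.update FreeGroup.of i (w * FreeGroup.of i * w'))

theorem elemEnd_self (i : Fin n) (w w' : FreeGroup (Fin n)) :
    elemEnd i w w' (FreeGroup.of i) = w * FreeGroup.of i * w' := by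
  simp [elemEnd]

theorem elemEnd_other {i k : Fin n} (hk : k ≠ i) (w w' : FreeGroup (Fin n)) :
    elemEnd i w w' (FreeGroup.of k) = FreeGroup.of k := by
  simp [elemEnd, hk]

theorem elemEnd_comp {i j : Fin n} (hij : j ≠ i) (a b : ℤ) :
    (elemEnd i (FreeGroup.of j ^ a) (FreeGroup.of j ^ b)).comp
      (elemEnd i (FreeGroup.of j ^ (-a)) (FreeGroup.of j ^ (-b))) = MonoidHom.id _ := by
  ext k
  rw [MonoidHom.comp_apply, MonoidHom.id_apply]
  by_cases hk : k = i
  · subst hk
    rw [elemEnd_self, map_mul, map_mul, map_zpow, map_zpow, elemEnd_other hij, elemEnd_self]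
    group
  · rw [elemEnd_other hk, elemEnd_other hk]

/-- `x_i ↦ x_j ^ a x_i x_j ^ b` as an automorphism -/
def elemAut {i j : Fin n} (hij : j ≠ i) (a b : ℤ) : MulAut (FreeGroup (Fin n)) :=
  MonoidHom.toMulEquiv (elemEnd i (FreeGroup.of j ^ a) (FreeGroup.of j ^ b))
    (elemEnd i (FreeGroup.of j ^ (-a)) (FreeGroup.of j ^ (-b)))
    (by have := elemEnd_comp hij (-a) (-b); simpa using this) (elemEnd_comp hij a b)

theorem elemAut_self {i j : Fin n} (hij : j ≠ i) (a b : ℤ) :
    elemAut hij a b (FreeGroup.of i) = FreeGroup.of j ^ a * FreeGroup.of i * FreeGroup.of j ^ b :=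
  elemEnd_self i _ _

theorem elemAut_other {i j k : Fin n} (hij : j ≠ i) (hk : k ≠ i) (a b : ℤ) :
    elemAut hij a b (FreeGroup.of k) = FreeGroup.of k :=
  elemEnd_other hk _ _

end free

section quot

variable {G : Type*} [Group G] (N : Subgroup G) [N.Normal]

/-- the automorphism induced on the quotient by a characteristic subgroup -/
noncomputable def ind (hN : N.Characteristic) (φ : MulAut G) : MulAut (G ⧸ N) :=
  QuotientGroup.congr N N φ ((Subgroup.characteristic_iff_map_eq.1 hN) φ)

theorem ind_mk (hN : N.Characteristic) (φ : MulAut G) (x : G) :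
    ind N hN φ (QuotientGroup.mk x) = QuotientGroup.mk (φ x) := rfl

end quot

section simple

variable {S : Type*} [Group S]

theorem closure_ext {n : ℕ} {x : Fin n → S} (hx : Subgroup.closure (Set.range x) = ⊤)
    {φ ψ : MulAut S} (H : ∀ k, φ (x k) = ψ (x k)) : φ = ψ := by
  have h1 : φ.toMonoidHom = ψ.toMonoidHom := by
    refine MonoidHom.eq_of_eqOn_dense hx ?_
    rintro _ ⟨k, rfl⟩
    exact H k
  exact MulEquiv.ext fun y => DFunLike.congr_fun h1 y

theorem conj_injective (hZ : Subgroup.center S = ⊥) :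
    Function.Injective (MulAut.conj : S →* MulAut S) := by
  rw [injective_iff_map_eq_one]
  intro g hg
  have : g ∈ Subgroup.center S := by
    rw [Subgroup.mem_center_iff]
    intro h
    have := DFunLike.congr_fun hg h
    rw [MulAut.conj_apply, MulAut.one_apply, mul_inv_eq_iff_eq_mul] at this
    exact this.symm
  rwa [hZ, Subgroup.mem_bot] at this

theorem conj_conj (φ : MulAut S) (g : S) :
    MulAut.conj φ (MulAut.conj g) = MulAut.conj (φ g) := by
  ext y
  rw [MulAut.conj_apply, MulAut.mul_apply, MulAut.mul_apply, MulAut.conj_apply, map_mul, map_mul,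
    MulAut.apply_inv_self, map_inv, MulAut.conj_apply]

/-- the Nielsen datum in `Aut(S)` -/
noncomputable def datAut {n : ℕ} (x : Fin n → S) (hx : Subgroup.closure (Set.range x) = ⊤)
    (hZ : Subgroup.center S = ⊥) (hne : ∀ k, x k ≠ 1) (lam rho : Fin n → Fin n → MulAut S)
    (hl : ∀ i j, i ≠ j → lam i j (x i) = x j * x i)
    (hl' : ∀ i j k, i ≠ j → k ≠ i → lam i j (x k) = x k)
    (hr : ∀ i j, i ≠ j → rho i j (x i) = x i * x j)
    (hr' : ∀ i j k, i ≠ j → k ≠ i → rho i j (x k) = x k) : Dat n (MulAut S) where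
  s k := MulAut.conj (x k)
  l := lam
  r := rho
  faithful g hg := by
    refine closure_ext hx fun k => ?_
    rw [MulAut.one_apply]
    refine conj_injective hZ ?_
    rw [← conj_conj]
    exact hg k
  s_ne k h := hne k (conj_injective hZ (by rw [h, map_one]))
  l_self i j h := by rw [conj_conj, hl i j h, map_mul]
  l_other i j k h hk := by rw [conj_conj, hl' i j k h hk]
  r_self i j h := by rw [conj_conj, hr i j h, map_mul]
  r_other i j k h hk := by rw [conj_conj, hr' i j k h hk]

theorem exists_ne2 {n : ℕ} (hn : 3 ≤ n) (i j : Fin n) : ∃ k, k ≠ i ∧ k ≠ j := by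
  by_contra H
  push Not at H
  have h1 : (Finset.univ : Finset (Fin n)) ⊆ {i, j} := by
    intro k _
    by_cases hk : k = i
    · simp [hk]
    · simp [H k hk]
  have h2 := Finset.card_le_card h1
  have h3 := Finset.card_le_two (a := i) (b := j)
  rw [Finset.card_univ, Fintype.card_fin] at h2
  omega

/-- the Nielsen elements lie in every term of the derived series -/
theorem Dat.mem_derivedSeries {n : ℕ} {A : Type*} [Group A] (D : Dat n A) (hn : 3 ≤ n) (k : ℕ) :
    ∀ i j, i ≠ j → D.l i j ∈ derivedSeries A k ∧ D.r i j ∈ derivedSeries A k := by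
  induction k with
  | zero => intro i j _; simp
  | succ k ih =>
    intro i j hij
    obtain ⟨t, hti, htj⟩ := exists_ne2 hn i j
    rw [derivedSeries_succ]
    refine ⟨?_, ?_⟩
    · rw [← D.l_comm hij hti.symm htj.symm]
      exact Subgroup.commutator_mem_commutator (ih t j htj).2 (ih i t hti.symm).1
    · rw [← D.r_comm hij hti.symm htj.symm]
      exact Subgroup.commutator_mem_commutator (ih t j htj).1 (ih i t hti.symm).2

/-- the Nielsen datum in `S` when the outer automorphism group is solvable -/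
theorem datInner {n : ℕ} (hn : 3 ≤ n) (x : Fin n → S)
    (hx : Subgroup.closure (Set.range x) = ⊤)
    (hZ : Subgroup.center S = ⊥) (hne : ∀ k, x k ≠ 1) (lam rho : Fin n → Fin n → MulAut S)
    (hl : ∀ i j, i ≠ j → lam i j (x i) = x j * x i)
    (hl' : ∀ i j k, i ≠ j → k ≠ i → lam i j (x k) = x k)
    (hr : ∀ i j, i ≠ j → rho i j (x i) = x i * x j)
    (hr' : ∀ i j k, i ≠ j → k ≠ i → rho i j (x k) = x k)
    {K : ℕ} (hK : derivedSeries (MulAut S) K ≤ (MulAut.conj : S →* MulAut S).range) :
    ∃ D : Dat n S, D.s = x := by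
  have hD := (datAut x hx hZ hne lam rho hl hl' hr hr').mem_derivedSeries hn K
  have h1 : ∀ i j, ∃ g : S, i ≠ j → MulAut.conj g = lam i j := by
    intro i j
    by_cases hij : i = j
    · exact ⟨1, fun h => absurd hij h⟩
    · obtain ⟨g, hg⟩ := hK (hD i j hij).1
      exact ⟨g, fun _ => hg⟩
  have h2 : ∀ i j, ∃ g : S, i ≠ j → MulAut.conj g = rho i j := by
    intro i j
    by_cases hij : i = j
    · exact ⟨1, fun h => absurd hij h⟩
    · obtain ⟨g, hg⟩ := hK (hD i j hij).2
      exact ⟨g, fun _ => hg⟩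
  choose l hl1 using h1
  choose r hr1 using h2
  refine ⟨⟨x, l, r, ?_, hne, ?_, ?_, ?_, ?_⟩, rfl⟩
  · intro g hg
    apply conj_injective hZ
    rw [map_one]
    exact closure_ext hx fun k => by rw [hg k, MulAut.one_apply]
  · intro i j h; rw [hl1 i j h, hl i j h]
  · intro i j k h hk; rw [hl1 i j h, hl' i j k h hk]
  · intro i j h; rw [hr1 i j h, hr i j h]
  · intro i j k h hk; rw [hr1 i j h, hr' i j k h hk]

end simple

end Pool.Agent.FSC
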