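import Pool.Agent.FSC.Pairs

namespace Pool.Agent.FSC

namespace Dat

open scoped commutatorElement

variable {n : ℕ} {A : Type*} [Group A] (D : Dat n A) {L : Type*} [Field L] [IsAlgClosed L]
  {m : ℕ} (R : PRep A L m)

theorem exists_out (s : Finset (Fin n)) (h : s.card < n) : ∃ t, t ∉ s := by
  by_contra H
  push Not at H
  have := Finset.eq_univ_iff_forall.2 H
  rw [this, Finset.card_univ, Fintype.card_fin] at h
  exact lt_irrefl _ h

theorem exists_out3 (hn : 4 ≤ n) (a b c : Fin n) : ∃ t, t ≠ a ∧ t ≠ b ∧ t ≠ c := by
  obtain ⟨t, ht⟩ := exists_out {a, b, c} (lt_of_le_of_lt Finset.card_le_three (by omega))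
  simp only [Finset.mem_insert, Finset.mem_singleton, not_or] at ht
  exact ⟨t, ht⟩

theorem exists_out4 (hn : 5 ≤ n) (a b c d : Fin n) : ∃ t, t ≠ a ∧ t ≠ b ∧ t ≠ c ∧ t ≠ d := by
  obtain ⟨t, ht⟩ := exists_out {a, b, c, d} (lt_of_le_of_lt Finset.card_le_four (by omega))
  simp only [Finset.mem_insert, Finset.mem_singleton, not_or] at ht
  exact ⟨t, ht⟩

theorem exists_two (hn : 2 ≤ n) : ∃ p q : Fin n, p ≠ q :=
  ⟨⟨0, by omega⟩, ⟨1, by omega⟩, fun h => absurd (congrArg Fin.val h) (by norm_num)⟩

include R in
/-- the bound from exactness of all cross pairs -/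
theorem bound_of_exact {p q : Fin n} (hpq : p ≠ q)
    (H : ∀ x y : Idx p q, x ≠ y → ∀ c d : Bool,
      R.M (D.el p q x c) * R.M (D.el p q y d) = R.M (D.el p q y d) * R.M (D.el p q x c)) :
    2 * n - 2 ≤ m := by
  have h1 := symp (L := L) (ι := Idx p q) (m := m) (fun x => R.M (D.el p q x false))
    (fun x => R.M (D.el p q x true)) (fun x => R.ncomm (D.el_ncomm hpq x))
    (fun x y h => H x y h false false) (fun x y h => H x y h true true)
    (fun x y h => H x y h false true)
  rw [card_Idx hpq] at h1
  omega

omit [IsAlgClosed L] in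
/-- exactness for pairs meeting `none` or having the same first index, for `n ≥ 4` -/
theorem exact_none (hn : 4 ≤ n) {p q : Fin n} (i : {i : Fin n // i ≠ p ∧ i ≠ q}) (b c d : Bool) :
    R.M (D.el p q (some (i, b)) c) * R.M (D.el p q none d) =
      R.M (D.el p q none d) * R.M (D.el p q (some (i, b)) c) := by
  obtain ⟨t, h1, h2, h3⟩ := exists_out3 hn i.1 (if c then q else p) (if d then q else p)
  cases b
  · exact D.ex_rs R (ite_ne i c) (ite_ne i d).symm h1 h2 h3
  · exact D.ex_ls R (ite_ne i c) (ite_ne i d).symm h1 h2 h3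

omit [IsAlgClosed L] in
theorem exact_same (hn : 4 ≤ n) {p q : Fin n} (i : {i : Fin n // i ≠ p ∧ i ≠ q}) (b b' c d : Bool)
    (hb : b ≠ b') :
    R.M (D.el p q (some (i, b)) c) * R.M (D.el p q (some (i, b')) d) =
      R.M (D.el p q (some (i, b')) d) * R.M (D.el p q (some (i, b)) c) := by
  obtain ⟨t, h1, h2, h3⟩ := exists_out3 hn i.1 (if c then q else p) (if d then q else p)
  cases b <;> cases b'
  · exact absurd rfl hb
  · exact (D.ex_lr_same R (ite_ne i d) (ite_ne i c) h1 h3 h2).symm
  · exact D.ex_lr_same R (ite_ne i c) (ite_ne i d) h1 h2 h3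
  · exact absurd rfl hb

omit [IsAlgClosed L] in
theorem exact_diff {p q : Fin n} (i j : {i : Fin n // i ≠ p ∧ i ≠ q}) (b b' c d : Bool)
    (hij : i ≠ j) (t : Fin n) (hti : t ≠ i.1) (htj : t ≠ j.1) (htc : t ≠ (if c then q else p))
    (htd : t ≠ (if d then q else p)) :
    R.M (D.el p q (some (i, b)) c) * R.M (D.el p q (some (j, b')) d) =
      R.M (D.el p q (some (j, b')) d) * R.M (D.el p q (some (i, b)) c) := by
  have hij' : i.1 ≠ j.1 := fun h => hij (Subtype.ext h)
  cases b <;> cases b'
  · exact D.ex_rr R (ite_ne i c) (ite_ne i d) (ite_ne j c) (ite_ne j d) hij' hti htc htj htd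
  · exact (D.ex_lr R (ite_ne j d) (ite_ne j c) (ite_ne i d) (ite_ne i c) hij'.symm htj htd hti
      htc).symm
  · exact D.ex_lr R (ite_ne i c) (ite_ne i d) (ite_ne j c) (ite_ne j d) hij' hti htc htj htd
  · exact D.ex_ll R (ite_ne i c) (ite_ne i d) (ite_ne j c) (ite_ne j d) hij' hti htc htj htd

include R D in
theorem bound_big (hn : 5 ≤ n) : 2 * n - 2 ≤ m := by
  obtain ⟨p, q, hpq⟩ := exists_two (n := n) (by omega)
  refine D.bound_of_exact R hpq ?_
  intro x y hxy c d
  match x, y with
  | none, none => exact absurd rfl hxy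
  | none, some (i, b) => exact (D.exact_none R (by omega) i b d c).symm
  | some (i, b), none => exact D.exact_none R (by omega) i b c d
  | some (i, b), some (j, b') =>
    by_cases hij : i = j
    · subst hij
      exact D.exact_same R (by omega) i b b' c d fun h => hxy (by rw [h])
    · obtain ⟨t, h1, h2, h3, h4⟩ := exists_out4 hn i.1 j.1
        (if c then q else p) (if d then q else p)
      exact D.exact_diff R i j b b' c d hij t h1 h2 h3 h4

include R D in
theorem bound_prime (hn : 3 ≤ n) (hm : m.Prime) : 2 * n - 2 ≤ m := by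
  obtain ⟨p, q, hpq⟩ := exists_two (n := n) (by omega)
  refine D.bound_of_exact R hpq ?_
  intro x y hxy c d
  obtain ⟨z, hz⟩ : ∃ z : Idx p q, z ∉ ({x, y} : Finset _) := by
    by_contra H
    push Not at H
    have h1 := Finset.eq_univ_iff_forall.2 H
    have h2 := Finset.card_le_two (a := x) (b := y)
    rw [h1, Finset.card_univ, card_Idx hpq] at h2
    omega
  simp only [Finset.mem_insert, Finset.mem_singleton, not_or] at hz
  exact R.exact_of_prime hm (D.el_comm hxy c d) (D.el_comm hz.1 false c) (D.el_comm hz.2 false d)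
    (D.el_comm hz.1 true c) (D.el_comm hz.2 true d) (D.el_ncomm hpq z)

include R D in
theorem bound_four (hn : n = 4) : m ≠ 4 := by
  intro hm
  subst hn
  have hpq : (0 : Fin 4) ≠ 1 := by decide
  have h1 : 2 * 4 - 2 ≤ m := by
    refine D.bound_of_exact R hpq ?_
    intro x y hxy c d
    match x, y with
    | none, none => exact absurd rfl hxy
    | none, some (i, b) => exact (D.exact_none R (by omega) i b d c).symm
    | some (i, b), none => exact D.exact_none R (by omega) i b c d
    | some (i, b), some (j, b') =>
      by_cases hij : i = j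
      · subst hij
        exact D.exact_same R (by omega) i b b' c d fun h => hxy (by rw [h])
      · by_cases hcd : c = d
        · subst hcd
          obtain ⟨t, h1, h2, h3⟩ := exists_out3 (le_refl 4) i.1 j.1 (if c then (1 : Fin 4) else 0)
          exact D.exact_diff R i j b b' c c hij t h1 h2 h3 h3
        · -- the exceptional case
          have hx1 : (some (i, b) : Idx (0 : Fin 4) 1) ≠ some (i, !b) := by
            intro h
            have := congrArg Prod.snd (Option.some.inj h)
            cases b <;> simp at this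
          have hx2 : (some (j, b') : Idx (0 : Fin 4) 1) ≠ some (i, !b) := by
            intro h
            exact hij (congrArg Prod.fst (Option.some.inj h)).symm
          have hx3 : (none : Idx (0 : Fin 4) 1) ≠ some (i, !b) := by simp
          refine R.exact_of_four hm (D.el_comm hxy c d)
            (x := ⁅D.el 0 1 (some (i, !b)) false, D.el 0 1 (some (i, !b)) true⁆) rfl
            (D.el_comm hx1 c false) (D.el_comm hx2 d false) (D.el_comm hx1 c true)
            (D.el_comm hx2 d true) ?_ (u := D.el 0 1 none false) (w := D.el 0 1 none true)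
            (D.el_ncomm hpq none) (D.exact_none R (le_refl 4) i b c false).symm
            (D.exact_none R (le_refl 4) j b' d false).symm
            (D.exact_none R (le_refl 4) i b c true).symm
            (D.exact_none R (le_refl 4) j b' d true).symm
            (R.exact_of_comm (D.el_comm hx3 false false) (D.el_comm hx3 false true))
            (R.exact_of_comm (D.el_comm hx3 true false) (D.el_comm hx3 true true))
            (D.el_comm (by simp) false c) (D.el_comm (by simp) false d)
            (D.el_comm (by simp) true c) (D.el_comm (by simp) true d)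
          intro h
          exact D.el_ncomm hpq (some (i, !b)) (commutatorElement_eq_one_iff_mul_comm.1 h)
  omega

include R D in
/-- every projectively faithful representation has degree at least `2 n - 2` -/
theorem bound (hn : 3 ≤ n) : 2 * n - 2 ≤ m := by
  have hnt : Nontrivial A := ⟨⟨D.s ⟨0, by omega⟩, 1, D.s_ne _⟩⟩
  have h2 := R.two_le
  by_cases h5 : 5 ≤ n
  · exact D.bound_big R h5
  by_contra hlt
  have hcases : n = 3 ∨ n = 4 := by omega
  rcases hcases with rfl | rfl
  · have hm : m = 2 ∨ m = 3 := by omega
    rcases hm with rfl | rfl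
    · exact hlt (D.bound_prime R (le_refl 3) Nat.prime_two)
    · exact hlt (D.bound_prime R (le_refl 3) Nat.prime_three)
  · have hm : m = 2 ∨ m = 3 ∨ m = 4 ∨ m = 5 := by omega
    rcases hm with rfl | rfl | rfl | rfl
    · exact hlt (D.bound_prime R (by norm_num) Nat.prime_two)
    · exact hlt (D.bound_prime R (by norm_num) Nat.prime_three)
    · exact D.bound_four R rfl rfl
    · exact hlt (D.bound_prime R (by norm_num) Nat.prime_five)

end Dat

end Pool.Agent.FSC
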