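import Pool.Agent.FSC.Quot

/-!
Let n ≥ 3, let N be a characteristic subgroup of the free group F of rank n such that S = F/N is
simple with solvable outer automorphism group. For every set I of basis elements, with U the
subgroup of S generated by their images, there are 2(n - |I|) embeddings of U into S whose images
commute pairwise and commute with U; for |I| ≤ n - 2 these images are independent, so that S
contains the direct product of 2(n - |I|) copies of U.
-/

set_option autoImplicit false

namespace Pool.Agent.Results.MP_6dc407_al.CommutingCopies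

theorem result (n : ℕ) (hn : 3 ≤ n) (N : Subgroup (FreeGroup (Fin n))) [N.Characteristic]
    [IsSimpleGroup (FreeGroup (Fin n) ⧸ N)]
    (hOut : ∃ k : ℕ, derivedSeries (MulAut (FreeGroup (Fin n) ⧸ N)) k ≤
      (MulAut.conj : FreeGroup (Fin n) ⧸ N →* MulAut (FreeGroup (Fin n) ⧸ N)).range)
    (I : Finset (Fin n)) (U : Subgroup (FreeGroup (Fin n) ⧸ N))
    (hU : U = Subgroup.closure
      ((fun i : Fin n => (QuotientGroup.mk (FreeGroup.of i) : FreeGroup (Fin n) ⧸ N)) ''
        (I : Set (Fin n)))) :
    ∃ φ : Fin (2 * (n - I.card)) → (U →* FreeGroup (Fin n) ⧸ N),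
      (∀ x, Function.Injective (φ x)) ∧
      (∀ x y, x ≠ y → ∀ a b, Commute (φ x a) (φ y b)) ∧
      (∀ x a, ∀ u ∈ U, Commute (φ x a) u) ∧
      (I.card + 2 ≤ n → iSupIndep fun x => (φ x).range) := by
  subst hU
  exact Pool.Agent.FSC.copies_simple N hn hOut I

end Pool.Agent.Results.MP_6dc407_al.CommutingCopies
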