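import Pool.Agent.FSC.Rel

namespace Pool.Agent.FSC

namespace Dat

variable {n : ℕ} {A : Type*} [Group A] (D : Dat n A)

/-- the datum with inverted generators: left and right are exchanged -/
def flip : Dat n A where
  s k := (D.s k)⁻¹
  l := D.r
  r := D.l
  faithful g hg := D.faithful g fun k => by
    have := hg k
    rwa [map_inv, inv_inj] at this
  s_ne k h := D.s_ne k (inv_eq_one.1 h)
  l_self i j h := by rw [map_inv, D.r_self i j h, mul_inv_rev]
  l_other i j k h hk := by rw [map_inv, D.r_other i j k h hk]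
  r_self i j h := by rw [map_inv, D.l_self i j h, mul_inv_rev]
  r_other i j k h hk := by rw [map_inv, D.l_other i j k h hk]

/-- the subgroup generated by the `s i`, `i ∈ I` -/
def U (I : Finset (Fin n)) : Subgroup A := Subgroup.closure (D.s '' (I : Set (Fin n)))

theorem flip_U (I : Finset (Fin n)) : D.flip.U I = D.U I := by
  apply le_antisymm
  · refine (Subgroup.closure_le _).2 ?_
    rintro _ ⟨i, hi, rfl⟩
    exact (D.U I).inv_mem (Subgroup.subset_closure ⟨i, hi, rfl⟩)
  · refine (Subgroup.closure_le _).2 ?_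
    rintro _ ⟨i, hi, rfl⟩
    have : D.s i = (D.flip.s i)⁻¹ := (inv_inv _).symm
    rw [SetLike.mem_coe, this]
    exact (D.flip.U I).inv_mem (Subgroup.subset_closure ⟨i, hi, rfl⟩)

/-- automorphisms fixing the generators of `U I` fix `U I` pointwise -/
theorem conj_fix {I : Finset (Fin n)} {g : A} (hg : ∀ i ∈ I, MulAut.conj g (D.s i) = D.s i)
    {u : A} (hu : u ∈ D.U I) : MulAut.conj g u = u := by
  induction hu using Subgroup.closure_induction with
  | mem x hx => obtain ⟨i, hi, rfl⟩ := hx; exact hg i hi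
  | one => exact map_one _
  | mul x y _ _ hx hy => rw [map_mul, hx, hy]
  | inv x _ hx => rw [map_inv, hx]

theorem ne_of_mem {I : Finset (Fin n)} {i j : Fin n} (hi : i ∈ I) (hj : j ∉ I) : i ≠ j :=
  fun h => hj (h ▸ hi)

theorem exists_right {I : Finset (Fin n)} {j : Fin n} (hj : j ∉ I) {u : A} (hu : u ∈ D.U I) :
    ∃ g : A, MulAut.conj g (D.s j) = D.s j * u ∧ ∀ k, k ≠ j → MulAut.conj g (D.s k) = D.s k := by
  induction hu using Subgroup.closure_induction with
  | mem x hx =>
    obtain ⟨i, hi, rfl⟩ := hx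
    exact ⟨D.r j i, D.r_self j i (ne_of_mem hi hj).symm,
      fun k hk => D.r_other j i k (ne_of_mem hi hj).symm hk⟩
  | one => exact ⟨1, by simp, fun k _ => by simp⟩
  | mul x y hx hy ihx ihy =>
    obtain ⟨g, hg, hg'⟩ := ihx
    obtain ⟨h, hh, hh'⟩ := ihy
    refine ⟨g * h, ?_, fun k hk => ?_⟩
    · rw [map_mul, MulAut.mul_apply, hh, map_mul, hg,
        D.conj_fix (I := I) (fun i hi => hg' i (ne_of_mem hi hj)) hy, mul_assoc]
    · rw [map_mul, MulAut.mul_apply, hh' k hk, hg' k hk]
  | inv x hx ihx =>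
    obtain ⟨g, hg, hg'⟩ := ihx
    have hk : ∀ k, k ≠ j → MulAut.conj g⁻¹ (D.s k) = D.s k := fun k hk => by
      rw [map_inv, MulAut.inv_apply, MulEquiv.symm_apply_eq, hg' k hk]
    refine ⟨g⁻¹, ?_, hk⟩
    rw [map_inv, MulAut.inv_apply, MulEquiv.symm_apply_eq, map_mul, map_inv, hg,
      D.conj_fix (I := I) (fun i hi => hg' i (ne_of_mem hi hj)) hx, mul_inv_cancel_right]

/-- the right multiplication subgroup as a homomorphism from `U I` -/
theorem exists_rightHom {I : Finset (Fin n)} {j : Fin n} (hj : j ∉ I) :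
    ∃ φ : D.U I →* A, (∀ u, MulAut.conj (φ u) (D.s j) = D.s j * u) ∧
      ∀ u, ∀ k, k ≠ j → MulAut.conj (φ u) (D.s k) = D.s k := by
  choose φ h1 h2 using fun u : D.U I => D.exists_right hj u.2
  refine ⟨MonoidHom.mk' φ fun u v => D.ext_conj fun k => ?_, h1, h2⟩
  by_cases hk : k = j
  · subst hk
    rw [h1, map_mul, MulAut.mul_apply, h1, map_mul, h1,
      D.conj_fix (I := I) (fun i hi => h2 u i (ne_of_mem hi hj)) v.2, mul_assoc]
    rfl
  · rw [h2 _ k hk, map_mul, MulAut.mul_apply, h2 _ k hk, h2 _ k hk]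

/-- the left multiplication subgroup as a homomorphism from `U I` -/
theorem exists_leftHom {I : Finset (Fin n)} {j : Fin n} (hj : j ∉ I) :
    ∃ φ : D.U I →* A, (∀ u : D.U I, MulAut.conj (φ u) (D.s j) = (u : A)⁻¹ * D.s j) ∧
      ∀ u, ∀ k, k ≠ j → MulAut.conj (φ u) (D.s k) = D.s k := by
  have key := D.flip.exists_rightHom hj
  rw [D.flip_U I] at key
  obtain ⟨φ, h1, h2⟩ := key
  refine ⟨φ, fun u => ?_, fun u k hk => ?_⟩
  · have := h1 u
    change MulAut.conj (φ u) (D.s j)⁻¹ = (D.s j)⁻¹ * u at this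
    rw [map_inv, inv_eq_iff_eq_inv, mul_inv_rev, inv_inv] at this
    exact this
  · have := h2 u k hk
    change MulAut.conj (φ u) (D.s k)⁻¹ = (D.s k)⁻¹ at this
    rwa [map_inv, inv_inj] at this

/-- rigidity -/
theorem U_rigid {I : Finset (Fin n)} (hI : I.card + 2 ≤ n) {j : Fin n} (hj : j ∉ I) {u v : A}
    (hu : u ∈ D.U I) (hv : v ∈ D.U I) (H : u * D.s j = D.s j * v) : u = 1 := by
  have key : ∀ t, t ≠ j → Commute u (D.s t) := by
    intro t ht
    have hfix : ∀ i ∈ I, MulAut.conj (D.l j t) (D.s i) = D.s i := fun i hi =>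
      D.l_other j t i ht.symm (ne_of_mem hi hj)
    have h1 := congrArg (MulAut.conj (D.l j t)) H
    rw [map_mul, map_mul, D.conj_fix hfix hu, D.conj_fix hfix hv, D.l_self j t ht.symm, mul_assoc,
      ← H, ← mul_assoc, ← mul_assoc, mul_left_inj] at h1
    exact h1
  have keyj : Commute u (D.s j) := by
    obtain ⟨t, ht⟩ : ∃ t, t ∉ insert j I := by
      by_contra hcon
      push Not at hcon
      have h1 := Finset.eq_univ_iff_forall.2 hcon
      have h2 := Finset.card_insert_le j I
      rw [h1, Finset.card_univ, Fintype.card_fin] at h2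
      omega
    rw [Finset.mem_insert, not_or] at ht
    have h1 := key t ht.1
    have hfix : ∀ i ∈ I, MulAut.conj (D.l t j) (D.s i) = D.s i := fun i hi =>
      D.l_other t j i ht.1 (ne_of_mem hi ht.2)
    have h2 := conj_comm (g := D.l t j) h1
    rw [D.conj_fix hfix hu, D.l_self t j ht.1] at h2
    have h3 := h2.mul_right h1.inv_right
    rwa [mul_inv_cancel_right] at h3
  refine D.eq_one_of_comm fun k => ?_
  by_cases hk : k = j
  · subst hk; exact keyj
  · exact key k hk

/-- elements acting on `s j` by right multiplication by `U I`, and trivially on `U I` -/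
def KU (I : Finset (Fin n)) (j : Fin n) : Subgroup A where
  carrier := {g | (∃ v ∈ D.U I, MulAut.conj g (D.s j) = D.s j * v) ∧
    ∀ i ∈ I, MulAut.conj g (D.s i) = D.s i}
  one_mem' := ⟨⟨1, one_mem _, by simp⟩, fun i _ => by simp⟩
  mul_mem' := by
    rintro g h ⟨⟨b, hbU, hb⟩, hg⟩ ⟨⟨c, hcU, hc⟩, hh⟩
    refine ⟨⟨b * c, mul_mem hbU hcU, ?_⟩, fun i hi => ?_⟩
    · rw [map_mul, MulAut.mul_apply, hc, map_mul, D.conj_fix hg hcU, hb, mul_assoc]
    · rw [map_mul, MulAut.mul_apply, hh i hi, hg i hi]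
  inv_mem' := by
    rintro g ⟨⟨b, hbU, hb⟩, hg⟩
    have hg' : ∀ i ∈ I, MulAut.conj g⁻¹ (D.s i) = D.s i := fun i hi => by
      rw [map_inv, MulAut.inv_apply, MulEquiv.symm_apply_eq, hg i hi]
    refine ⟨⟨b⁻¹, inv_mem hbU, ?_⟩, hg'⟩
    rw [map_inv, MulAut.inv_apply, MulEquiv.symm_apply_eq, map_mul, map_inv, D.conj_fix hg hbU, hb,
      mul_inv_cancel_right]

/-- `2 (n - |I|)` commuting copies of `U I`, commuting with `U I`, and independent if
`|I| ≤ n - 2` -/
theorem copies (I : Finset (Fin n)) :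
    ∃ φ : Fin (2 * (n - I.card)) → (D.U I →* A), (∀ x, Function.Injective (φ x)) ∧
      (∀ x y, x ≠ y → ∀ a b, Commute (φ x a) (φ y b)) ∧
      (∀ x a, ∀ u ∈ D.U I, Commute (φ x a) u) ∧
      (I.card + 2 ≤ n → iSupIndep fun x => (φ x).range) := by
  classical
  choose R hR1 hR2 using fun j : {j : Fin n // j ∉ I} => D.exists_rightHom j.2
  choose Λ hΛ1 hΛ2 using fun j : {j : Fin n // j ∉ I} => D.exists_leftHom j.2
  let φ : {j : Fin n // j ∉ I} × Bool → (D.U I →* A) := fun x => if x.2 then Λ x.1 else R x.1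
  have hφo : ∀ x u k, k ≠ x.1.1 → MulAut.conj (φ x u) (D.s k) = D.s k := by
    rintro ⟨j, b⟩ u k hk
    cases b
    · exact hR2 j u k hk
    · exact hΛ2 j u k hk
  have hφU : ∀ x u, ∀ v ∈ D.U I, MulAut.conj (φ x u) v = v := fun x u v hv =>
    D.conj_fix (I := I) (fun i hi => hφo x u i (ne_of_mem hi x.1.2)) hv
  have hcomm : Pairwise fun x y => ∀ a b, Commute (φ x a) (φ y b) := by
    rintro ⟨i, b⟩ ⟨j, c⟩ hne u v
    refine D.comm_ext fun k => ?_
    by_cases hij : i = j
    · subst hij
      by_cases hk : k = i.1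
      · subst hk
        cases b <;> cases c
        · exact absurd rfl hne
        · change MulAut.conj (R i u) (MulAut.conj (Λ i v) (D.s i)) =
            MulAut.conj (Λ i v) (MulAut.conj (R i u) (D.s i))
          rw [hR1, hΛ1, map_mul, map_mul, hR1, hΛ1, map_inv,
            show MulAut.conj (R i u) (v : A) = v from hφU (i, false) u v v.2,
            show MulAut.conj (Λ i v) (u : A) = u from hφU (i, true) v u u.2, mul_assoc]
        · change MulAut.conj (Λ i u) (MulAut.conj (R i v) (D.s i)) =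
            MulAut.conj (R i v) (MulAut.conj (Λ i u) (D.s i))
          rw [hR1, hΛ1, map_mul, map_mul, hR1, hΛ1, map_inv,
            show MulAut.conj (R i v) (u : A) = u from hφU (i, false) v u u.2,
            show MulAut.conj (Λ i u) (v : A) = v from hφU (i, true) u v v.2, mul_assoc]
        · exact absurd rfl hne
      · rw [hφo (i, c) v k hk, hφo (i, b) u k hk, hφo (i, c) v k hk]
    · have hij' : i.1 ≠ j.1 := fun h => hij (Subtype.ext h)
      by_cases hki : k = i.1
      · subst hki
        rw [hφo (j, c) v _ hij']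
        cases b
        · change MulAut.conj (R i u) (D.s i) = MulAut.conj (φ (j, c) v)
            (MulAut.conj (R i u) (D.s i))
          rw [hR1, map_mul, hφo (j, c) v _ hij', hφU (j, c) v u u.2]
        · change MulAut.conj (Λ i u) (D.s i) = MulAut.conj (φ (j, c) v)
            (MulAut.conj (Λ i u) (D.s i))
          rw [hΛ1, map_mul, map_inv, hφo (j, c) v _ hij', hφU (j, c) v u u.2]
      · by_cases hkj : k = j.1
        · subst hkj
          rw [hφo (i, b) u _ hij'.symm]
          cases c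
          · change MulAut.conj (φ (i, b) u) (MulAut.conj (R j v) (D.s j)) =
              MulAut.conj (R j v) (D.s j)
            rw [hR1, map_mul, hφo (i, b) u _ hij'.symm, hφU (i, b) u v v.2]
          · change MulAut.conj (φ (i, b) u) (MulAut.conj (Λ j v) (D.s j)) =
              MulAut.conj (Λ j v) (D.s j)
            rw [hΛ1, map_mul, map_inv, hφo (i, b) u _ hij'.symm, hφU (i, b) u v v.2]
        · rw [hφo (j, c) v k hkj, hφo (i, b) u k hki, hφo (j, c) v k hkj]
  have hinj : ∀ x, Function.Injective (φ x) := by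
    rintro ⟨j, b⟩
    rw [injective_iff_map_eq_one]
    intro u hu
    cases b
    · have h1 := hR1 j u
      change R j u = 1 at hu
      rw [hu, map_one, MulAut.one_apply] at h1
      exact Subtype.ext (mul_eq_left.1 h1.symm)
    · have h1 := hΛ1 j u
      change Λ j u = 1 at hu
      rw [hu, map_one, MulAut.one_apply] at h1
      exact Subtype.ext (inv_eq_one.1 (mul_eq_right.1 h1.symm))
  have hind : I.card + 2 ≤ n → iSupIndep fun x => (φ x).range := by
    rintro hI ⟨j, b⟩
    rw [Subgroup.disjoint_def]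
    rintro _ ⟨u, rfl⟩ hg'
    cases b
    · -- right copy; the others lie in `D.flip.KU`
      have hsup : (⨆ (y : {j : Fin n // j ∉ I} × Bool) (_ : y ≠ (j, false)), (φ y).range) ≤
          D.flip.KU I j := by
        refine iSup₂_le fun y hy => ?_
        rintro _ ⟨v, rfl⟩
        refine ⟨?_, fun i hi => ?_⟩
        · by_cases hyj : y.1 = j
          · obtain ⟨y1, c⟩ := y
            change y1 = j at hyj
            subst hyj
            cases c
            · exact absurd rfl hy
            · refine ⟨v, by rw [D.flip_U]; exact v.2, ?_⟩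
              change MulAut.conj (Λ y1 v) (D.s y1)⁻¹ = (D.s y1)⁻¹ * v
              rw [map_inv, hΛ1, mul_inv_rev, inv_inv]
          · refine ⟨1, one_mem _, ?_⟩
            change MulAut.conj (φ y v) (D.s j)⁻¹ = (D.s j)⁻¹ * 1
            rw [map_inv, hφo y v j fun h => hyj (Subtype.ext h.symm), mul_one]
        · change MulAut.conj (φ y v) (D.s i)⁻¹ = (D.s i)⁻¹
          rw [map_inv, hφo y v i (ne_of_mem hi y.1.2)]
      obtain ⟨⟨w, hwU, hw⟩, -⟩ := hsup hg'
      rw [D.flip_U] at hwU
      change MulAut.conj (R j u) (D.s j)⁻¹ = (D.s j)⁻¹ * w at hw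
      rw [map_inv, hR1, mul_inv_rev] at hw
      have h1 := D.flip.U_rigid hI j.2 (u := (u : A)⁻¹) (v := w)
        (by rw [D.flip_U]; exact inv_mem u.2) (by rw [D.flip_U]; exact hwU) hw
      have h2 : u = 1 := Subtype.ext (inv_eq_one.1 h1)
      rw [h2, map_one]
    · have hsup : (⨆ (y : {j : Fin n // j ∉ I} × Bool) (_ : y ≠ (j, true)), (φ y).range) ≤
          D.KU I j := by
        refine iSup₂_le fun y hy => ?_
        rintro _ ⟨v, rfl⟩
        refine ⟨?_, fun i hi => hφo y v i (ne_of_mem hi y.1.2)⟩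
        by_cases hyj : y.1 = j
        · obtain ⟨y1, c⟩ := y
          change y1 = j at hyj
          subst hyj
          cases c
          · exact ⟨v, v.2, hR1 y1 v⟩
          · exact absurd rfl hy
        · exact ⟨1, one_mem _, by rw [hφo y v j fun h => hyj (Subtype.ext h.symm), mul_one]⟩
      obtain ⟨⟨w, hwU, hw⟩, -⟩ := hsup hg'
      change MulAut.conj (Λ j u) (D.s j) = D.s j * w at hw
      rw [hΛ1] at hw
      have h1 := D.U_rigid hI j.2 (u := (u : A)⁻¹) (v := w) (inv_mem u.2) hwU hw
      have h2 : u = 1 := Subtype.ext (inv_eq_one.1 h1)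
      rw [h2, map_one]
  have hcard : Fintype.card ({j : Fin n // j ∉ I} × Bool) = 2 * (n - I.card) := by
    rw [Fintype.card_prod, Fintype.card_bool, Fintype.card_subtype_compl, Fintype.card_fin,
      Fintype.card_coe, mul_comm]
  let e : Fin (2 * (n - I.card)) ≃ {j : Fin n // j ∉ I} × Bool :=
    (Fintype.equivFinOfCardEq hcard).symm
  refine ⟨fun x => φ (e x), fun x => hinj (e x), fun x y hxy a b =>
    hcomm (fun h => hxy (e.injective h)) a b, fun x a u hu => ?_, fun hI =>
    (hind hI).comp e.injective⟩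
  have := hφU (e x) a u hu
  rw [MulAut.conj_apply, mul_inv_eq_iff_eq_mul] at this
  exact this

end Dat

end Pool.Agent.FSC
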