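import Mathlib

/-!
Nielsen data in a group: a family `s` and elements `l i j`, `r i j` which act by conjugation on
`s` as the left and right Nielsen transformations.
-/

namespace Pool.Agent.FSC

/-- A Nielsen datum of rank `n` in a group `A`. -/
structure Dat (n : ℕ) (A : Type*) [Group A] where
  s : Fin n → A
  l : Fin n → Fin n → A
  r : Fin n → Fin n → A
  faithful : ∀ g : A, (∀ k, MulAut.conj g (s k) = s k) → g = 1
  s_ne : ∀ k, s k ≠ 1
  l_self : ∀ i j, i ≠ j → MulAut.conj (l i j) (s i) = s j * s i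
  l_other : ∀ i j k, i ≠ j → k ≠ i → MulAut.conj (l i j) (s k) = s k
  r_self : ∀ i j, i ≠ j → MulAut.conj (r i j) (s i) = s i * s j
  r_other : ∀ i j k, i ≠ j → k ≠ i → MulAut.conj (r i j) (s k) = s k

namespace Dat

variable {n : ℕ} {A : Type*} [Group A] (D : Dat n A)

theorem ext_conj {g h : A} (H : ∀ k, MulAut.conj g (D.s k) = MulAut.conj h (D.s k)) : g = h := by
  have h1 : h⁻¹ * g = 1 := D.faithful _ fun k => by
    have := H k
    rw [map_mul, MulAut.mul_apply, this, ← MulAut.mul_apply, ← map_mul, inv_mul_cancel, map_one,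
      MulAut.one_apply]
  rw [inv_mul_eq_one] at h1
  exact h1.symm

theorem linv_self {i j : Fin n} (hij : i ≠ j) :
    MulAut.conj (D.l i j)⁻¹ (D.s i) = (D.s j)⁻¹ * D.s i := by
  rw [map_inv, MulAut.inv_apply, MulEquiv.symm_apply_eq, map_mul, map_inv, D.l_self i j hij,
    D.l_other i j j hij hij.symm]
  group

theorem linv_other {i j k : Fin n} (hij : i ≠ j) (hk : k ≠ i) :
    MulAut.conj (D.l i j)⁻¹ (D.s k) = D.s k := by
  rw [map_inv, MulAut.inv_apply, MulEquiv.symm_apply_eq, D.l_other i j k hij hk]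

theorem rinv_self {i j : Fin n} (hij : i ≠ j) :
    MulAut.conj (D.r i j)⁻¹ (D.s i) = D.s i * (D.s j)⁻¹ := by
  rw [map_inv, MulAut.inv_apply, MulEquiv.symm_apply_eq, map_mul, map_inv, D.r_self i j hij,
    D.r_other i j j hij hij.symm]
  group

theorem rinv_other {i j k : Fin n} (hij : i ≠ j) (hk : k ≠ i) :
    MulAut.conj (D.r i j)⁻¹ (D.s k) = D.s k := by
  rw [map_inv, MulAut.inv_apply, MulEquiv.symm_apply_eq, D.r_other i j k hij hk]

end Dat

/-- `P` is a projectively faithful projective representation (given by chosen lifts). -/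
structure PRep (A : Type*) [Group A] (L : Type*) [Field L] (m : ℕ) where
  P : A → GL (Fin m) L
  mul : ∀ g h : A, ∃ c : L, c ≠ 0 ∧
    ((P g : Matrix (Fin m) (Fin m) L) * (P h : Matrix (Fin m) (Fin m) L)
      = c • (P (g * h) : Matrix (Fin m) (Fin m) L))
  inj : ∀ g : A, (∃ c : L, (P g : Matrix (Fin m) (Fin m) L) = c • 1) → g = 1

end Pool.Agent.FSC
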