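import Mathlib

namespace Pool.Agent.FSC

open Module

section

variable {L V : Type*} [Field L] [AddCommGroup V] [Module L V] [FiniteDimensional L V]

/-- on a subspace invariant under `X, Y` with `X Y = ω Y X`, `ω ^ dim = 1` -/
theorem pow_finrank_eq_one {X Y : Module.End L V} (hX : Function.Injective X)
    (hY : Function.Injective Y) {ω : L} (hXY : ∀ v, X (Y v) = ω • Y (X v)) (E : Submodule L V)
    (hXE : ∀ v ∈ E, X v ∈ E) (hYE : ∀ v ∈ E, Y v ∈ E) : ω ^ finrank L E = 1 := by
  let X' : Module.End L E := X.restrict hXE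
  let Y' : Module.End L E := Y.restrict hYE
  have hX' : Function.Injective X' := fun a b h => Subtype.ext (hX (congrArg Subtype.val h))
  have hY' : Function.Injective Y' := fun a b h => Subtype.ext (hY (congrArg Subtype.val h))
  have hdX : LinearMap.det X' ≠ 0 := by
    have := (LinearEquiv.ofInjectiveEndo X' hX').isUnit_det'
    exact this.ne_zero
  have hdY : LinearMap.det Y' ≠ 0 := by
    have := (LinearEquiv.ofInjectiveEndo Y' hY').isUnit_det'
    exact this.ne_zero
  have h1 : X' * Y' = ω • (Y' * X') := by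
    ext v
    exact hXY v
  have h2 := congrArg LinearMap.det h1
  rw [LinearMap.det_smul, map_mul, map_mul, mul_comm (LinearMap.det Y')] at h2
  have h3 : LinearMap.det X' * LinearMap.det Y' ≠ 0 := mul_ne_zero hdX hdY
  exact (mul_eq_right₀ h3).1 h2.symm

variable [IsAlgClosed L]

/-- if `ω ^ e ≠ 1` for `0 < e < dim V`, everything commuting with `X, Y` is scalar -/
theorem scalar_of_comm [Nontrivial V] {X Y Z : Module.End L V} (hX : Function.Injective X)
    (hY : Function.Injective Y) {ω : L} (hXY : ∀ v, X (Y v) = ω • Y (X v))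
    (hω : ∀ e, 0 < e → e < finrank L V → ω ^ e ≠ 1)
    (hZX : ∀ v, Z (X v) = X (Z v)) (hZY : ∀ v, Z (Y v) = Y (Z v)) : ∃ μ : L, ∀ v, Z v = μ • v := by
  obtain ⟨μ, hμ⟩ := Module.End.exists_eigenvalue Z
  refine ⟨μ, fun v => ?_⟩
  have hE : finrank L (Module.End.eigenspace Z μ) = finrank L V := by
    by_contra hne
    have hle := Submodule.finrank_le (Module.End.eigenspace Z μ)
    have hpos : 0 < finrank L (Module.End.eigenspace Z μ) := by
      rw [Nat.pos_iff_ne_zero]
      intro h0
      exact hμ (Submodule.finrank_eq_zero.1 h0)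
    refine hω _ hpos (lt_of_le_of_ne hle hne) (pow_finrank_eq_one hX hY hXY _ ?_ ?_)
    · intro v hv
      rw [Module.End.mem_eigenspace_iff] at hv ⊢
      rw [hZX, hv, map_smul]
    · intro v hv
      rw [Module.End.mem_eigenspace_iff] at hv ⊢
      rw [hZY, hv, map_smul]
  have htop := Submodule.eq_top_of_finrank_eq hE
  exact Module.End.mem_eigenspace_iff.1 (by rw [htop]; trivial)

/-- on a 2-dimensional invariant subspace every commuting operator is a scalar -/
theorem scalar_on {X Y u : Module.End L V} (hX : Function.Injective X)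
    (hY : Function.Injective Y) {ω : L} (hXY : ∀ v, X (Y v) = ω • Y (X v)) (hω : ω ≠ 1)
    (E : Submodule L V) (hXE : ∀ v ∈ E, X v ∈ E) (hYE : ∀ v ∈ E, Y v ∈ E)
    (huE : ∀ v ∈ E, u v ∈ E) (hE : finrank L E = 2)
    (huX : ∀ v, u (X v) = X (u v)) (huY : ∀ v, u (Y v) = Y (u v)) :
    ∃ α : L, ∀ v ∈ E, u v = α • v := by
  have : Nontrivial E := Module.nontrivial_of_finrank_pos (R := L) (by rw [hE]; norm_num)
  obtain ⟨α, hα⟩ := Module.End.exists_eigenvalue (u.restrict huE)
  obtain ⟨w, hw⟩ := hα.exists_hasEigenvector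
  have hw1 := Module.End.mem_eigenspace_iff.1 hw.1
  have hw2 : u (w : V) = α • (w : V) := congrArg Subtype.val hw1
  have hw0 : (w : V) ≠ 0 := fun h => hw.2 (Subtype.ext h)
  refine ⟨α, fun v hv => ?_⟩
  let E' : Submodule L V := E ⊓ Module.End.eigenspace u α
  have hle : E' ≤ E := inf_le_left
  have hmem : (w : V) ∈ E' := ⟨w.2, Module.End.mem_eigenspace_iff.2 hw2⟩
  have hpos : 0 < finrank L E' := by
    rw [Nat.pos_iff_ne_zero]
    intro h0
    have := Submodule.finrank_eq_zero.1 h0
    rw [this, Submodule.mem_bot] at hmem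
    exact hw0 hmem
  have h2 := Submodule.finrank_mono hle
  have hp := pow_finrank_eq_one hX hY hXY E' (by
      rintro v ⟨hv1, hv2⟩
      refine ⟨hXE v hv1, ?_⟩
      have hv2 := Module.End.mem_eigenspace_iff.1 hv2
      exact Module.End.mem_eigenspace_iff.2 (by rw [huX, hv2, map_smul])) (by
      rintro v ⟨hv1, hv2⟩
      refine ⟨hYE v hv1, ?_⟩
      have hv2 := Module.End.mem_eigenspace_iff.1 hv2
      exact Module.End.mem_eigenspace_iff.2 (by rw [huY, hv2, map_smul]))
  have hne1 : finrank L E' ≠ 1 := by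
    intro h
    rw [h, pow_one] at hp
    exact hω hp
  have heq : finrank L E' = finrank L E := by omega
  have := Submodule.eq_of_le_of_finrank_eq hle heq
  have hv' : v ∈ E' := by rw [this]; exact hv
  exact Module.End.mem_eigenspace_iff.1 hv'.2

/-- the special case of dimension four and `ω = -1` -/
theorem comm_of_four {X Y T u w : Module.End L V} (hV : finrank L V = 4)
    (hX : Function.Injective X) (hY : Function.Injective Y) {ω : L}
    (hXY : ∀ v, X (Y v) = ω • Y (X v)) (hω : ω ≠ 1) (hω2 : ω ^ 2 = 1)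
    (hT : ¬ ∃ μ : L, ∀ v, T v = μ • v)
    (hTX : ∀ v, T (X v) = X (T v)) (hTY : ∀ v, T (Y v) = Y (T v))
    (huX : ∀ v, u (X v) = X (u v)) (huY : ∀ v, u (Y v) = Y (u v))
    (hwX : ∀ v, w (X v) = X (w v)) (hwY : ∀ v, w (Y v) = Y (w v))
    (huT : ∀ v, u (T v) = T (u v)) (hwT : ∀ v, w (T v) = T (w v)) :
    ∀ v, u (w v) = w (u v) := by
  have : Nontrivial V := Module.nontrivial_of_finrank_pos (R := L) (by rw [hV]; norm_num)
  have hω3 : ω ^ 3 ≠ 1 := by
    intro h
    rw [pow_succ, hω2, one_mul] at h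
    exact hω h
  obtain ⟨μ, hμ⟩ := Module.End.exists_eigenvalue T
  set E := Module.End.eigenspace T μ with hEdef
  have memE : ∀ v, v ∈ E ↔ T v = μ • v := fun v => Module.End.mem_eigenspace_iff
  let N : Module.End L V := T - μ • 1
  have hN : ∀ v, N v = T v - μ • v := fun v => by simp [N]
  set F := LinearMap.range N with hFdef
  have hker : LinearMap.ker N = E := by
    ext v
    rw [LinearMap.mem_ker, hN, sub_eq_zero, memE]
  have hXE : ∀ v ∈ E, X v ∈ E := fun v hv => by
    rw [memE] at hv ⊢; rw [hTX, hv, map_smul]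
  have hYE : ∀ v ∈ E, Y v ∈ E := fun v hv => by
    rw [memE] at hv ⊢; rw [hTY, hv, map_smul]
  have huE : ∀ v ∈ E, u v ∈ E := fun v hv => by
    rw [memE] at hv ⊢; rw [← huT, hv, map_smul]
  have hwE : ∀ v ∈ E, w v ∈ E := fun v hv => by
    rw [memE] at hv ⊢; rw [← hwT, hv, map_smul]
  have hXF : ∀ v ∈ F, X v ∈ F := by
    rintro _ ⟨v, rfl⟩
    exact ⟨X v, by rw [hN, hN, hTX, map_sub, map_smul]⟩
  have hYF : ∀ v ∈ F, Y v ∈ F := by
    rintro _ ⟨v, rfl⟩
    exact ⟨Y v, by rw [hN, hN, hTY, map_sub, map_smul]⟩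
  have huF : ∀ v ∈ F, u v ∈ F := by
    rintro _ ⟨v, rfl⟩
    exact ⟨u v, by rw [hN, hN, ← huT, map_sub, map_smul]⟩
  have hwF : ∀ v ∈ F, w v ∈ F := by
    rintro _ ⟨v, rfl⟩
    exact ⟨w v, by rw [hN, hN, ← hwT, map_sub, map_smul]⟩
  have hE4 : finrank L E ≤ 4 := hV ▸ Submodule.finrank_le E
  have hE0 : finrank L E ≠ 0 := fun h0 => hμ (Submodule.finrank_eq_zero.1 h0)
  have hpE := pow_finrank_eq_one hX hY hXY E hXE hYE
  have hE1 : finrank L E ≠ 1 := fun h => by rw [h, pow_one] at hpE; exact hω hpE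
  have hE3 : finrank L E ≠ 3 := fun h => by rw [h] at hpE; exact hω3 hpE
  have hE44 : finrank L E ≠ 4 := fun h => by
    have htop := Submodule.eq_top_of_finrank_eq (h.trans hV.symm)
    exact hT ⟨μ, fun v => (memE v).1 (by rw [htop]; trivial)⟩
  have hE2 : finrank L E = 2 := by omega
  have hF2 : finrank L F = 2 := by
    have := LinearMap.finrank_range_add_finrank_ker N
    rw [hker, hV, hE2] at this
    change finrank L F + 2 = 4 at this
    omega
  obtain ⟨α, hα⟩ := scalar_on hX hY hXY hω E hXE hYE huE hE2 huX huY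
  obtain ⟨α', hα'⟩ := scalar_on hX hY hXY hω E hXE hYE hwE hE2 hwX hwY
  obtain ⟨β, hβ⟩ := scalar_on hX hY hXY hω F hXF hYF huF hF2 huX huY
  obtain ⟨β', hβ'⟩ := scalar_on hX hY hXY hω F hXF hYF hwF hF2 hwX hwY
  by_cases hEF : E ⊓ F = ⊥
  · -- V = E ⊕ F
    have hsup : E ⊔ F = ⊤ := by
      apply Submodule.eq_top_of_finrank_eq
      have := Submodule.finrank_sup_add_finrank_inf_eq E F
      rw [hEF, finrank_bot, hE2, hF2] at this
      omega
    intro v
    obtain ⟨x, hx, y, hy, rfl⟩ := Submodule.mem_sup.1 (by rw [hsup]; trivial : v ∈ E ⊔ F)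
    rw [map_add, map_add, map_add, map_add, hα' x hx, hβ' y hy, hα x hx, hβ y hy, map_smul,
      map_smul, map_smul, map_smul, hα' x hx, hβ' y hy, hα x hx, hβ y hy]
    simp only [smul_smul, mul_comm]
  · -- E = F
    have hpI := pow_finrank_eq_one hX hY hXY (E ⊓ F)
      (fun v hv => ⟨hXE v hv.1, hXF v hv.2⟩) (fun v hv => ⟨hYE v hv.1, hYF v hv.2⟩)
    have hI0 : finrank L (E ⊓ F : Submodule L V) ≠ 0 := fun h0 =>
      hEF (Submodule.finrank_eq_zero.1 h0)
    have hI1 : finrank L (E ⊓ F : Submodule L V) ≠ 1 := fun h => by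
      rw [h, pow_one] at hpI; exact hω hpI
    have hIle := Submodule.finrank_mono (inf_le_left : E ⊓ F ≤ E)
    have hIE : E ⊓ F = E := Submodule.eq_of_le_of_finrank_eq inf_le_left (by omega)
    have hIF : E ⊓ F = F := Submodule.eq_of_le_of_finrank_eq inf_le_right (by omega)
    have hEqF : E = F := hIE.symm.trans hIF
    have hEbot : ∃ e ∈ E, e ≠ 0 := by
      by_contra H
      push Not at H
      exact hE0 (Submodule.finrank_eq_zero.2 ((Submodule.eq_bot_iff E).2 H))
    obtain ⟨e, he, he0⟩ := hEbot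
    have heF : e ∈ F := hEqF ▸ he
    have hαβ : α = β := by
      have h1 := (hα e he).symm.trans (hβ e heF)
      by_contra hne
      have h2 : (α - β) • e = 0 := by rw [sub_smul, h1, sub_self]
      rcases smul_eq_zero.1 h2 with h | h
      · exact hne (sub_eq_zero.1 h)
      · exact he0 h
    have hαβ' : α' = β' := by
      have h1 := (hα' e he).symm.trans (hβ' e heF)
      by_contra hne
      have h2 : (α' - β') • e = 0 := by rw [sub_smul, h1, sub_self]
      rcases smul_eq_zero.1 h2 with h | h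
      · exact hne (sub_eq_zero.1 h)
      · exact he0 h
    -- the image of `u - α` lies in `E`
    have huim : ∀ v, u v - α • v ∈ E := by
      intro v
      rw [memE]
      have h1 := hβ (N v) ⟨v, rfl⟩
      rw [hN, map_sub, map_smul, huT, ← hαβ, smul_sub] at h1
      rw [map_sub, map_smul, smul_sub, smul_comm μ α v]
      rw [sub_eq_sub_iff_add_eq_add] at h1 ⊢
      rw [h1]
      abel
    have hwim : ∀ v, w v - α' • v ∈ E := by
      intro v
      rw [memE]
      have h1 := hβ' (N v) ⟨v, rfl⟩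
      rw [hN, map_sub, map_smul, hwT, ← hαβ', smul_sub] at h1
      rw [map_sub, map_smul, smul_sub, smul_comm μ α' v]
      rw [sub_eq_sub_iff_add_eq_add] at h1 ⊢
      rw [h1]
      abel
    intro v
    have h1 := hα _ (hwim v)
    have h2 := hα' _ (huim v)
    rw [map_sub, map_smul, sub_eq_iff_eq_add] at h1 h2
    rw [h1, h2, smul_sub, smul_sub, smul_comm α α' v]
    abel

end

end Pool.Agent.FSC
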