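import Pool.Agent.FSC.Quot

/-!
Orbits of the subgroup `U` generated by all but one of the elements `s k` of a Nielsen datum, on
finite sets with an action of the ambient group.
-/

set_option autoImplicit false

namespace Pool.Agent.FSC

namespace Dat

open scoped commutatorElement Pointwise

/-! ### Counting -/

section Count

open Classical

variable {A X : Type*} [Group A] [MulAction A X] [Fintype A] [Fintype X]

/-- If all `s u`, `u ∈ U`, have the same number `b` of fixed points on the `U`-orbit `O`, then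
`b |O| = |{x ∈ O | s⁻¹ x ∈ O}|`. -/
theorem count (U : Subgroup A) (s : A) (O : Finset X) (x0 : X)
    (hO : ∀ x, x ∈ O ↔ ∃ u ∈ U, u • x0 = x) (b : ℕ)
    (hb : ∀ u ∈ U, (O.filter (fun x => (s * u) • x = x)).card = b) :
    b * O.card = (O.filter (fun x => s⁻¹ • x ∈ O)).card := by
  set UF : Finset A := Finset.univ.filter (fun u => u ∈ U) with hUF
  set K0 : Finset A := UF.filter (fun u => u • x0 = x0) with hK0
  have h1 : ∑ u ∈ UF, (O.bipartiteAbove (fun (u : A) (x : X) => (s * u) • x = x) u).card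
      = ∑ x ∈ O, (UF.bipartiteBelow (fun (u : A) (x : X) => (s * u) • x = x) x).card :=
    Finset.sum_card_bipartiteAbove_eq_sum_card_bipartiteBelow _
  have h2 : ∑ u ∈ UF, (O.bipartiteAbove (fun (u : A) (x : X) => (s * u) • x = x) u).card
      = UF.card * b := by
    rw [Finset.sum_congr rfl (g := fun _ => b) fun u hu => ?_, Finset.sum_const, smul_eq_mul]
    exact hb u (Finset.mem_filter.mp hu).2
  have h3 : ∀ x ∈ O, (UF.bipartiteBelow (fun (u : A) (x : X) => (s * u) • x = x) x).card
      = if s⁻¹ • x ∈ O then K0.card else 0 := by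
    intro x hx
    obtain ⟨u1, hu1, rfl⟩ := (hO x).mp hx
    unfold Finset.bipartiteBelow
    split_ifs with h
    · obtain ⟨u2, hu2, h2⟩ := (hO _).mp h
      refine Finset.card_nbij' (fun u => u2⁻¹ * (u * u1)) (fun v => u2 * v * u1⁻¹) ?_ ?_ ?_ ?_
      · intro u hu
        rw [Finset.mem_coe, Finset.mem_filter] at hu
        rw [Finset.mem_coe, hK0, Finset.mem_filter, Finset.mem_filter]
        refine ⟨⟨Finset.mem_univ _, U.mul_mem (U.inv_mem hu2) (U.mul_mem
          (Finset.mem_filter.mp hu.1).2 hu1)⟩, ?_⟩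
        have h4 : u • u1 • x0 = s⁻¹ • u1 • x0 := by
          rw [eq_inv_smul_iff, smul_smul, hu.2]
        rw [mul_smul, mul_smul, h4, ← h2, inv_smul_smul]
      · intro v hv
        rw [Finset.mem_coe, hK0, Finset.mem_filter] at hv
        rw [Finset.mem_coe, Finset.mem_filter, hUF, Finset.mem_filter]
        refine ⟨⟨Finset.mem_univ _, U.mul_mem (U.mul_mem hu2 (Finset.mem_filter.mp hv.1).2)
          (U.inv_mem hu1)⟩, ?_⟩
        show (s * (u2 * v * u1⁻¹)) • u1 • x0 = u1 • x0
        rw [mul_smul, mul_smul, mul_smul, inv_smul_smul, hv.2, h2, smul_inv_smul]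
      · intro u _
        group
      · intro v _
        group
    · rw [Finset.card_eq_zero, Finset.filter_eq_empty_iff]
      intro u hu hfix
      apply h
      rw [hO]
      refine ⟨u * u1, U.mul_mem (Finset.mem_filter.mp hu).2 hu1, ?_⟩
      rw [mul_smul, eq_inv_smul_iff, smul_smul, hfix]
  have h4 : UF.card = K0.card * O.card := by
    rw [Finset.card_eq_sum_card_fiberwise (f := fun u : A => u • x0) (t := O) (fun u hu => by
      rw [Finset.mem_coe]; exact (hO _).mpr ⟨u, (Finset.mem_filter.mp hu).2, rfl⟩)]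
    rw [Finset.sum_congr rfl (g := fun _ => K0.card) fun x hx => ?_, Finset.sum_const,
      smul_eq_mul, mul_comm]
    obtain ⟨u1, hu1, rfl⟩ := (hO x).mp hx
    refine Finset.card_nbij' (fun u => u1⁻¹ * u) (fun v => u1 * v) ?_ ?_ ?_ ?_
    · intro u hu
      rw [Finset.mem_coe, Finset.mem_filter] at hu
      rw [Finset.mem_coe, hK0, Finset.mem_filter, Finset.mem_filter]
      refine ⟨⟨Finset.mem_univ _, U.mul_mem (U.inv_mem hu1) (Finset.mem_filter.mp hu.1).2⟩, ?_⟩
      rw [mul_smul, hu.2, inv_smul_smul]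
    · intro v hv
      rw [Finset.mem_coe, hK0, Finset.mem_filter, Finset.mem_filter] at hv
      rw [Finset.mem_coe, Finset.mem_filter, Finset.mem_filter]
      refine ⟨⟨Finset.mem_univ _, U.mul_mem hu1 hv.1.2⟩, ?_⟩
      rw [mul_smul, hv.2]
    · intro u _
      group
    · intro v _
      group
  have h5 : ∑ x ∈ O, (UF.bipartiteBelow (fun (u : A) (x : X) => (s * u) • x = x) x).card
      = (O.filter (fun x => s⁻¹ • x ∈ O)).card * K0.card := by
    rw [Finset.sum_congr rfl h3, ← Finset.sum_filter, Finset.sum_const, smul_eq_mul]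
  have hK0pos : 0 < K0.card := by
    refine Finset.card_pos.mpr ⟨1, ?_⟩
    rw [hK0, Finset.mem_filter, Finset.mem_filter]
    exact ⟨⟨Finset.mem_univ _, U.one_mem⟩, one_smul _ _⟩
  have h6 : K0.card * (b * O.card) = K0.card * (O.filter (fun x => s⁻¹ • x ∈ O)).card := by
    calc K0.card * (b * O.card) = UF.card * b := by rw [h4]; ring
      _ = (O.filter (fun x => s⁻¹ • x ∈ O)).card * K0.card := by rw [← h2, h1, h5]
      _ = _ := by ring
  exact Nat.eq_of_mul_eq_mul_left hK0pos h6

end Count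

/-! ### The subgroup generated by all but one element -/

variable {n : ℕ} {A : Type*} [Group A] (D : Dat n A)

/-- the subgroup generated by the `s k`, `k ≠ i` -/
def V (i : Fin n) : Subgroup A := Subgroup.closure (D.s '' {k | k ≠ i})

theorem s_mem_V {i k : Fin n} (h : k ≠ i) : D.s k ∈ D.V i :=
  Subgroup.subset_closure ⟨k, h, rfl⟩

/-- the subgroup generated by the `r i j` -/
def R (i : Fin n) : Subgroup A := Subgroup.closure {g | ∃ j, i ≠ j ∧ g = D.r i j}

theorem conj_fix_V {i : Fin n} {g : A} (hg : ∀ k, k ≠ i → MulAut.conj g (D.s k) = D.s k)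
    {u : A} (hu : u ∈ D.V i) : MulAut.conj g u = u := by
  induction hu using Subgroup.closure_induction with
  | mem x hx => obtain ⟨k, hk, rfl⟩ := hx; exact hg k hk
  | one => exact map_one _
  | mul x y _ _ hx hy => rw [map_mul, hx, hy]
  | inv x _ hx => rw [map_inv, hx]

/-- right multiplications -/
theorem exists_rightR {i : Fin n} {u : A} (hu : u ∈ D.V i) :
    ∃ g ∈ D.R i, MulAut.conj g (D.s i) = D.s i * u ∧
      ∀ k, k ≠ i → MulAut.conj g (D.s k) = D.s k := by
  induction hu using Subgroup.closure_induction with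
  | mem x hx =>
    obtain ⟨j, hj, rfl⟩ := hx
    exact ⟨D.r i j, Subgroup.subset_closure ⟨j, Ne.symm hj, rfl⟩, D.r_self i j (Ne.symm hj),
      fun k hk => D.r_other i j k (Ne.symm hj) hk⟩
  | one => exact ⟨1, Subgroup.one_mem _, by simp, fun k _ => by simp⟩
  | mul x y hx hy ihx ihy =>
    obtain ⟨g, hgR, hg, hg'⟩ := ihx
    obtain ⟨h, hhR, hh, hh'⟩ := ihy
    refine ⟨g * h, Subgroup.mul_mem _ hgR hhR, ?_, fun k hk => ?_⟩
    · rw [map_mul, MulAut.mul_apply, hh, map_mul, hg, D.conj_fix_V hg' hy, mul_assoc]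
    · rw [map_mul, MulAut.mul_apply, hh' k hk, hg' k hk]
  | inv x hx ihx =>
    obtain ⟨g, hgR, hg, hg'⟩ := ihx
    have hk : ∀ k, k ≠ i → MulAut.conj g⁻¹ (D.s k) = D.s k := fun k hk => by
      rw [map_inv, MulAut.inv_apply, MulEquiv.symm_apply_eq, hg' k hk]
    refine ⟨g⁻¹, Subgroup.inv_mem _ hgR, ?_, hk⟩
    rw [map_inv, MulAut.inv_apply, MulEquiv.symm_apply_eq, map_mul, map_inv, hg,
      D.conj_fix_V hg' hx, mul_inv_cancel_right]

theorem flip_V (i : Fin n) : D.flip.V i = D.V i := by
  apply le_antisymm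
  · refine (Subgroup.closure_le _).2 ?_
    rintro _ ⟨k, hk, rfl⟩
    exact (D.V i).inv_mem (D.s_mem_V hk)
  · refine (Subgroup.closure_le _).2 ?_
    rintro _ ⟨k, hk, rfl⟩
    have : D.s k = (D.flip.s k)⁻¹ := (inv_inv _).symm
    rw [SetLike.mem_coe, this]
    exact (D.flip.V i).inv_mem (D.flip.s_mem_V hk)

/-- left multiplications -/
theorem exists_left {i : Fin n} {u : A} (hu : u ∈ D.V i) :
    ∃ g : A, MulAut.conj g (D.s i) = u * D.s i ∧
      ∀ k, k ≠ i → MulAut.conj g (D.s k) = D.s k := by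
  obtain ⟨g, -, hg, hg'⟩ := D.flip.exists_rightR (i := i) (u := u⁻¹)
    (by rw [D.flip_V]; exact Subgroup.inv_mem _ hu)
  refine ⟨g, ?_, fun k hk => ?_⟩
  · change MulAut.conj g (D.s i)⁻¹ = (D.s i)⁻¹ * u⁻¹ at hg
    rw [map_inv, ← mul_inv_rev, inv_inj] at hg
    exact hg
  · have := hg' k hk
    change MulAut.conj g (D.s k)⁻¹ = (D.s k)⁻¹ at this
    rwa [map_inv, inv_inj] at this

theorem exists_conj (i j : Fin n) : ∃ g : A, MulAut.conj g (D.s i) = D.s j := by
  by_cases hij : i = j
  · exact ⟨1, by rw [hij]; simp⟩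
  · refine ⟨(D.r j i)⁻¹ * D.l i j, ?_⟩
    rw [map_mul, MulAut.mul_apply, D.l_self i j hij, ← D.r_self j i (Ne.symm hij), map_inv,
      MulAut.inv_apply_self]

/-! ### Actions -/

section Act

open Classical

variable {X : Type*} [MulAction A X] [Fintype A] [Fintype X]

omit [Fintype A] in
/-- conjugate elements have the same number of fixed points -/
theorem card_fix_conj {x y g : A} (h : MulAut.conj g x = y) :
    (Finset.univ.filter (fun a : X => y • a = a)).card
      = (Finset.univ.filter (fun a : X => x • a = a)).card := by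
  subst h
  refine Finset.card_nbij' (fun a => g⁻¹ • a) (fun a => g • a) ?_ ?_ ?_ ?_
  · intro a ha
    rw [Finset.mem_coe, Finset.mem_filter] at ha
    rw [Finset.mem_coe, Finset.mem_filter]
    refine ⟨Finset.mem_univ _, ?_⟩
    have h1 : g • x • g⁻¹ • a = a := by
      have := ha.2
      rwa [MulAut.conj_apply, mul_smul, mul_smul] at this
    rw [eq_inv_smul_iff]
    exact h1
  · intro a ha
    rw [Finset.mem_coe, Finset.mem_filter] at ha
    rw [Finset.mem_coe, Finset.mem_filter]
    refine ⟨Finset.mem_univ _, ?_⟩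
    rw [MulAut.conj_apply, mul_smul, mul_smul, inv_smul_smul, ha.2]
  · intro a _; exact smul_inv_smul _ _
  · intro a _; exact inv_smul_smul _ _

/-- `V i` is never transitive on a set with more than one element -/
theorem subsingleton_of_trans {i j : Fin n} (hij : j ≠ i)
    (h : ∀ x y : X, ∃ u ∈ D.V i, u • x = y) : Subsingleton X := by
  rcases isEmpty_or_nonempty X with hE | ⟨⟨x0⟩⟩
  · infer_instance
  -- the number of fixed points is `1`
  set b := (Finset.univ.filter (fun a : X => D.s i • a = a)).card with hb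
  have h1 : b * (Finset.univ : Finset X).card
      = ((Finset.univ : Finset X).filter (fun x => (D.s i)⁻¹ • x ∈ (Finset.univ : Finset X))).card := by
    refine count (D.V i) (D.s i) Finset.univ x0 (fun x => ⟨fun _ => h x0 x, fun _ =>
      Finset.mem_univ x⟩) b fun u hu => ?_
    obtain ⟨g, -, hg, -⟩ := D.exists_rightR hu
    exact card_fix_conj hg
  rw [Finset.filter_true_of_mem (fun x _ => Finset.mem_univ _)] at h1
  have hpos : 0 < (Finset.univ : Finset X).card := Finset.card_pos.mpr ⟨x0, Finset.mem_univ _⟩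
  have hb1 : b = 1 := Nat.eq_of_mul_eq_mul_right hpos (by rw [h1, one_mul])
  obtain ⟨δ1, hδ1⟩ := Finset.card_eq_one.mp (hb.symm.trans hb1)
  have hδ1' : D.s i • δ1 = δ1 := by
    have : δ1 ∈ Finset.univ.filter (fun a : X => D.s i • a = a) := by
      rw [hδ1]; exact Finset.mem_singleton_self _
    exact (Finset.mem_filter.mp this).2
  -- fixed point of `s j`
  obtain ⟨g0, hg0⟩ := D.exists_conj i j
  have hb2 : (Finset.univ.filter (fun a : X => D.s j • a = a)).card = 1 := by
    rw [card_fix_conj hg0, ← hb, hb1]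
  obtain ⟨δ2, hδ2⟩ := Finset.card_eq_one.mp hb2
  have huniq : ∀ x : X, D.s j • x = x → x = δ2 := by
    intro x hx
    have : x ∈ Finset.univ.filter (fun a : X => D.s j • a = a) :=
      Finset.mem_filter.mpr ⟨Finset.mem_univ _, hx⟩
    rw [hδ2] at this
    exact Finset.mem_singleton.mp this
  have hδ2' : D.s j • δ2 = δ2 := by
    have : δ2 ∈ Finset.univ.filter (fun a : X => D.s j • a = a) := by
      rw [hδ2]; exact Finset.mem_singleton_self _
    exact (Finset.mem_filter.mp this).2
  obtain ⟨u, hu, hu'⟩ := h δ2 δ1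
  -- `V i` fixes `δ1`
  have key : ∀ a ∈ D.V i, a • δ1 = δ1 := by
    intro a ha
    obtain ⟨g, hg, hg'⟩ := D.exists_left ha
    have hgu : g * u = u * g := by
      have := D.conj_fix_V hg' hu
      rwa [MulAut.conj_apply, mul_inv_eq_iff_eq_mul] at this
    have hgs : g * D.s j = D.s j * g := by
      have := hg' j hij
      rwa [MulAut.conj_apply, mul_inv_eq_iff_eq_mul] at this
    have h2 : g • δ2 = δ2 := by
      apply huniq
      rw [smul_smul, ← hgs, mul_smul, hδ2']
    have h3 : g • δ1 = δ1 := by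
      rw [← hu', smul_smul, hgu, mul_smul, h2]
    have h4 : g * D.s i = a * D.s i * g := by
      rwa [MulAut.conj_apply, mul_inv_eq_iff_eq_mul] at hg
    have h5 : (g * D.s i) • δ1 = (a * D.s i * g) • δ1 := by rw [h4]
    rw [mul_smul, hδ1', h3, mul_smul, h3, mul_smul, hδ1'] at h5
    exact h5.symm
  refine ⟨fun x y => ?_⟩
  obtain ⟨v, hv, rfl⟩ := h δ1 x
  obtain ⟨w, hw, rfl⟩ := h δ1 y
  rw [key v hv, key w hw]

/-- If all `r i j` preserve the orbits of `V i` and `A` is transitive, then `s i` has no fixed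
point. -/
theorem no_fix {i j : Fin n} (hij : j ≠ i) (hgen : Subgroup.closure (Set.range D.s) = ⊤)
    (htr : ∀ x y : X, ∃ g : A, g • x = y) (hX : ¬ Subsingleton X)
    (hR : ∀ k, i ≠ k → ∀ x : X, ∃ u ∈ D.V i, u • x = D.r i k • x) (x : X) :
    D.s i • x ≠ x := by
  intro hx
  have hR' : ∀ g ∈ D.R i, ∀ y : X, ∃ u ∈ D.V i, u • y = g • y := by
    intro g hg
    induction hg using Subgroup.closure_induction with
    | mem g hg => obtain ⟨k, hk, rfl⟩ := hg; exact hR k hk
    | one => exact fun y => ⟨1, Subgroup.one_mem _, rfl⟩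
    | mul g h _ _ ihg ihh =>
      intro y
      obtain ⟨u, hu, hu'⟩ := ihh y
      obtain ⟨v, hv, hv'⟩ := ihg (h • y)
      exact ⟨v * u, Subgroup.mul_mem _ hv hu, by rw [mul_smul, hu', hv', mul_smul]⟩
    | inv g _ ihg =>
      intro y
      obtain ⟨u, hu, hu'⟩ := ihg (g⁻¹ • y)
      refine ⟨u⁻¹, Subgroup.inv_mem _ hu, ?_⟩
      rw [smul_inv_smul] at hu'
      rw [inv_smul_eq_iff, hu']
  let O : Finset X := Finset.univ.filter (fun y => ∃ u ∈ D.V i, u • x = y)
  have hO : ∀ y, y ∈ O ↔ ∃ u ∈ D.V i, u • x = y := fun y => by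
    simp only [O, Finset.mem_filter, Finset.mem_univ, true_and]
  have hxO : x ∈ O := (hO x).mpr ⟨1, Subgroup.one_mem _, one_smul _ _⟩
  have hgO : ∀ g ∈ D.R i, ∀ y, y ∈ O → g • y ∈ O := by
    intro g hg y hy
    obtain ⟨u, hu, rfl⟩ := (hO y).mp hy
    obtain ⟨v, hv, hv'⟩ := hR' g hg (u • x)
    exact (hO _).mpr ⟨v * u, Subgroup.mul_mem _ hv hu, by rw [mul_smul, hv']⟩
  set b := (O.filter (fun y => (D.s i * 1) • y = y)).card with hb
  have hbu : ∀ u ∈ D.V i, (O.filter (fun y => (D.s i * u) • y = y)).card = b := by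
    intro u hu
    obtain ⟨g, hgR, hg, -⟩ := D.exists_rightR hu
    rw [hb, mul_one]
    have hg1 : D.s i * u = g * D.s i * g⁻¹ := by rw [← hg, MulAut.conj_apply]
    refine Finset.card_nbij' (fun a => g⁻¹ • a) (fun a => g • a) ?_ ?_ ?_ ?_
    · intro a ha
      rw [Finset.mem_coe, Finset.mem_filter] at ha
      rw [Finset.mem_coe, Finset.mem_filter]
      refine ⟨hgO _ (Subgroup.inv_mem _ hgR) a ha.1, ?_⟩
      have h1 := ha.2
      rw [hg1, mul_smul, mul_smul] at h1
      rw [eq_inv_smul_iff]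
      exact h1
    · intro a ha
      rw [Finset.mem_coe, Finset.mem_filter] at ha
      rw [Finset.mem_coe, Finset.mem_filter]
      refine ⟨hgO _ hgR a ha.1, ?_⟩
      rw [hg1, mul_smul, mul_smul, inv_smul_smul, ha.2]
    · intro a _; exact smul_inv_smul _ _
    · intro a _; exact inv_smul_smul _ _
  have hcount := count (D.V i) (D.s i) O x hO b hbu
  have hbpos : 0 < b := by
    refine Finset.card_pos.mpr ⟨x, Finset.mem_filter.mpr ⟨hxO, ?_⟩⟩
    rw [mul_one]; exact hx
  have hOpos : 0 < O.card := Finset.card_pos.mpr ⟨x, hxO⟩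
  have hle : (O.filter (fun y => (D.s i)⁻¹ • y ∈ O)).card ≤ O.card := Finset.card_filter_le _ _
  have heq : O.filter (fun y => (D.s i)⁻¹ • y ∈ O) = O := by
    refine Finset.eq_of_subset_of_card_le (Finset.filter_subset _ _) ?_
    rw [← hcount]
    exact Nat.le_mul_of_pos_left _ hbpos
  have hinv : ∀ y ∈ O, (D.s i)⁻¹ • y ∈ O := by
    intro y hy
    rw [← heq] at hy
    exact (Finset.mem_filter.mp hy).2
  -- `O` is invariant under everything
  have hstab : MulAction.stabilizer A (O : Set X) = ⊤ := by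
    rw [eq_top_iff, ← hgen, Subgroup.closure_le]
    rintro _ ⟨k, rfl⟩
    rw [SetLike.mem_coe]
    by_cases hk : k = i
    · subst hk
      rw [← Subgroup.inv_mem_iff]
      rw [MulAction.mem_stabilizer_set']
      · exact fun y hy => hinv y hy
      · exact O.finite_toSet
    · rw [MulAction.mem_stabilizer_set']
      · intro y hy
        obtain ⟨u, hu, rfl⟩ := (hO y).mp hy
        exact (hO _).mpr ⟨D.s k * u, Subgroup.mul_mem _ (D.s_mem_V hk) hu, mul_smul _ _ _⟩
      · exact O.finite_toSet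
  apply hX
  refine D.subsingleton_of_trans hij (X := X) fun y z => ?_
  have hall : ∀ y : X, y ∈ O := by
    intro y
    obtain ⟨g, rfl⟩ := htr x y
    have hg : g ∈ MulAction.stabilizer A (O : Set X) := by rw [hstab]; trivial
    rw [MulAction.mem_stabilizer_set' O.finite_toSet] at hg
    exact hg hxO
  obtain ⟨u, hu, hu'⟩ := (hO y).mp (hall y)
  obtain ⟨v, hv, hv'⟩ := (hO z).mp (hall z)
  exact ⟨v * u⁻¹, Subgroup.mul_mem _ hv (Subgroup.inv_mem _ hu), by
    rw [← hu', mul_smul, inv_smul_smul, hv']⟩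

end Act

end Dat

end Pool.Agent.FSC
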