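import Pool.Agent.FSC.Orb

/-!
The action of the normalizer of `V i` on the set of `V i`-orbits, and the lower bounds for the
number of orbits.
-/

set_option autoImplicit false

namespace Pool.Agent.FSC

open scoped commutatorElement

/-! ### Small symmetric groups -/

theorem perm3 : ∀ a b : Equiv.Perm (Fin 3), Equiv.Perm.sign a = 1 →
    b * (b * a * b⁻¹ * a⁻¹) = (b * a * b⁻¹ * a⁻¹) * b → b * a * b⁻¹ * a⁻¹ = 1 := by
  decide +kernel

theorem perm4a : ∀ a b : Equiv.Perm (Fin 4), Equiv.Perm.sign a = 1 → Equiv.Perm.sign b = 1 →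
    (a * b * a⁻¹ * b⁻¹) * (a * b * a⁻¹ * b⁻¹) = 1 := by
  decide +kernel

theorem perm4b : ∀ a b : Equiv.Perm (Fin 4), Equiv.Perm.sign a = 1 → Equiv.Perm.sign b = 1 →
    a * a = 1 → b * b = 1 → a * b * a⁻¹ * b⁻¹ = 1 := by
  decide +kernel

namespace Dat

variable {n : ℕ} {A : Type*} [Group A] (D : Dat n A)

theorem mem_normalizer_of {i : Fin n} {g : A}
    (h1 : ∀ k, k ≠ i → MulAut.conj g (D.s k) ∈ D.V i)
    (h2 : ∀ k, k ≠ i → MulAut.conj g⁻¹ (D.s k) ∈ D.V i) : g ∈ Subgroup.normalizer (D.V i : Set A) := by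
  have key : ∀ h : A, (∀ k, k ≠ i → MulAut.conj h (D.s k) ∈ D.V i) →
      ∀ u ∈ D.V i, h * u * h⁻¹ ∈ D.V i := by
    intro h hh u hu
    rw [← MulAut.conj_apply]
    induction hu using Subgroup.closure_induction with
    | mem x hx => obtain ⟨k, hk, rfl⟩ := hx; exact hh k hk
    | one => rw [map_one]; exact Subgroup.one_mem _
    | mul x y _ _ hx hy => rw [map_mul]; exact Subgroup.mul_mem _ hx hy
    | inv x _ hx => rw [map_inv]; exact Subgroup.inv_mem _ hx
  rw [Subgroup.mem_normalizer_iff]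
  intro u
  constructor
  · exact key g h1 u
  · intro hu
    have := key g⁻¹ h2 _ hu
    have e : g⁻¹ * (g * u * g⁻¹) * g⁻¹⁻¹ = u := by group
    rwa [e] at this

theorem r_mem_N {i k : Fin n} (h : i ≠ k) : D.r i k ∈ Subgroup.normalizer (D.V i : Set A) := by
  refine D.mem_normalizer_of (fun t ht => ?_) (fun t ht => ?_)
  · rw [D.r_other i k t h ht]; exact D.s_mem_V ht
  · rw [D.rinv_other h ht]; exact D.s_mem_V ht

theorem l_mem_N' {i j k : Fin n} (hjk : j ≠ k) (hj : j ≠ i) (hk : k ≠ i) :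
    D.l j k ∈ Subgroup.normalizer (D.V i : Set A) := by
  refine D.mem_normalizer_of (fun t ht => ?_) (fun t ht => ?_)
  · by_cases htj : t = j
    · rw [htj, D.l_self j k hjk]
      exact Subgroup.mul_mem _ (D.s_mem_V hk) (D.s_mem_V hj)
    · rw [D.l_other j k t hjk htj]; exact D.s_mem_V ht
  · by_cases htj : t = j
    · rw [htj, D.linv_self hjk]
      exact Subgroup.mul_mem _ (Subgroup.inv_mem _ (D.s_mem_V hk)) (D.s_mem_V hj)
    · rw [D.linv_other hjk htj]; exact D.s_mem_V ht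

theorem r_mem_N' {i j k : Fin n} (hjk : j ≠ k) (hj : j ≠ i) (hk : k ≠ i) :
    D.r j k ∈ Subgroup.normalizer (D.V i : Set A) := by
  refine D.mem_normalizer_of (fun t ht => ?_) (fun t ht => ?_)
  · by_cases htj : t = j
    · rw [htj, D.r_self j k hjk]
      exact Subgroup.mul_mem _ (D.s_mem_V hj) (D.s_mem_V hk)
    · rw [D.r_other j k t hjk htj]; exact D.s_mem_V ht
  · by_cases htj : t = j
    · rw [htj, D.rinv_self hjk]
      exact Subgroup.mul_mem _ (D.s_mem_V hj) (Subgroup.inv_mem _ (D.s_mem_V hk))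
    · rw [D.rinv_other hjk htj]; exact D.s_mem_V ht

section Act

open Classical

variable {X : Type*} [MulAction A X]

/-- the set of orbits -/
abbrev Orbs (i : Fin n) (X : Type*) [MulAction A X] : Type _ :=
  MulAction.orbitRel.Quotient (D.V i) X

theorem rel_iff (i : Fin n) (x y : X) :
    (MulAction.orbitRel (D.V i) X) x y ↔ ∃ u ∈ D.V i, u • y = x := by
  rw [MulAction.orbitRel_apply, MulAction.mem_orbit_iff]
  constructor
  · rintro ⟨u, rfl⟩; exact ⟨u.1, u.2, rfl⟩
  · rintro ⟨u, hu, rfl⟩; exact ⟨⟨u, hu⟩, rfl⟩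

/-- the action of the normalizer on the set of orbits -/
def nAct (i : Fin n) : MulAction (Subgroup.normalizer (D.V i : Set A)) (D.Orbs i X) where
  smul g := Quotient.map' (fun x => (g : A) • x) (by
    intro x y hxy
    obtain ⟨u, hu, rfl⟩ := (D.rel_iff i x y).mp hxy
    refine (D.rel_iff i _ _).mpr ⟨g.1 * u * g.1⁻¹, ?_, ?_⟩
    · exact (Subgroup.mem_normalizer_iff.mp g.2 u).mp hu
    · rw [mul_smul, mul_smul, inv_smul_smul])
  one_smul q := by
    induction q using Quotient.inductionOn' with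
    | h x => exact congrArg Quotient.mk'' (one_smul A x)
  mul_smul g h q := by
    induction q using Quotient.inductionOn' with
    | h x => exact congrArg Quotient.mk'' (mul_smul g.1 h.1 x)

/-- the permutation representation on the set of orbits -/
def theta (i : Fin n) (X : Type*) [MulAction A X] :
    (Subgroup.normalizer (D.V i : Set A)) →* Equiv.Perm (D.Orbs i X) :=
  @MulAction.toPermHom _ _ _ (D.nAct i)

theorem theta_eq_one (i : Fin n) (g : Subgroup.normalizer (D.V i : Set A)) (h : D.theta i X g = 1) (x : X) :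
    ∃ u ∈ D.V i, u • x = (g : A) • x := by
  have h1 : D.theta i X g (Quotient.mk'' x) = Quotient.mk'' x := by rw [h]; rfl
  have h2 : (Quotient.mk'' ((g : A) • x) : D.Orbs i X) = Quotient.mk'' x := h1
  exact (D.rel_iff i _ _).mp (Quotient.eq''.mp h2)

theorem comm_mem {i j k : Fin n} (hij : i ≠ j) (hik : i ≠ k) (hjk : j ≠ k) :
    (⟨D.r i j, D.r_mem_N hij⟩ : Subgroup.normalizer (D.V i : Set A)) =
      ⟨D.l k j, D.l_mem_N' hjk.symm hik.symm hij.symm⟩ * ⟨D.r i k, D.r_mem_N hik⟩ *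
        (⟨D.l k j, D.l_mem_N' hjk.symm hik.symm hij.symm⟩)⁻¹ *
        (⟨D.r i k, D.r_mem_N hik⟩)⁻¹ := by
  apply Subtype.ext
  show D.r i j = D.l k j * D.r i k * (D.l k j)⁻¹ * (D.r i k)⁻¹
  rw [← D.r_comm hij hik hjk, commutatorElement_def]

theorem exists_hom {I : Type*} [Finite I] {m : ℕ} (h : Nat.card I ≤ m) :
    ∃ φ : Equiv.Perm I →* Equiv.Perm (Fin m), Function.Injective φ := by
  have := Fintype.ofFinite I
  rw [Nat.card_eq_fintype_card] at h
  have h1 : Fintype.card I ≤ Fintype.card (Fin m) := by rw [Fintype.card_fin]; exact h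
  obtain ⟨e⟩ := Function.Embedding.nonempty_of_card_le h1
  exact ⟨Equiv.Perm.viaEmbeddingHom e, Equiv.Perm.viaEmbeddingHom_injective e⟩

theorem small3 (hn : 3 ≤ n) (i : Fin n) [Finite (D.Orbs i X)] (hc : Nat.card (D.Orbs i X) ≤ 3)
    {j : Fin n} (hij : i ≠ j) : D.theta i X ⟨D.r i j, D.r_mem_N hij⟩ = 1 := by
  obtain ⟨φ, hφ⟩ := exists_hom hc
  obtain ⟨k, hki, hkj⟩ := exists_ne2 hn i j
  let Φ : Subgroup.normalizer (D.V i : Set A) →* Equiv.Perm (Fin 3) := φ.comp (D.theta i X)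
  have hsign : Equiv.Perm.sign (Φ ⟨D.r i k, D.r_mem_N hki.symm⟩) = 1 := by
    rw [D.comm_mem hki.symm hij hkj]
    simp only [map_mul, map_inv]
    rw [mul_comm (Equiv.Perm.sign _) (Equiv.Perm.sign _), mul_inv_cancel_right, mul_inv_cancel]
  have hcomm : (⟨D.l k j, D.l_mem_N' hkj hki hij.symm⟩ : Subgroup.normalizer (D.V i : Set A)) *
      ⟨D.r i j, D.r_mem_N hij⟩ =
      ⟨D.r i j, D.r_mem_N hij⟩ * ⟨D.l k j, D.l_mem_N' hkj hki hij.symm⟩ := by
    apply Subtype.ext
    exact (D.comm_lr hkj hij hki hkj hij).eq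
  apply hφ
  rw [map_one]
  show Φ ⟨D.r i j, D.r_mem_N hij⟩ = 1
  have e := congrArg Φ (D.comm_mem hij hki.symm hkj.symm)
  simp only [map_mul, map_inv] at e
  rw [e]
  apply perm3 _ _ hsign
  rw [← e]
  have e2 := congrArg Φ hcomm
  simpa only [map_mul] using e2

/-- elements of the Nielsen system inside the normalizer -/
def Sys (i : Fin n) (g : Subgroup.normalizer (D.V i : Set A)) : Prop :=
  (∃ j, i ≠ j ∧ g.1 = D.r i j) ∨ (∃ j k, j ≠ i ∧ k ≠ i ∧ j ≠ k ∧ g.1 = D.l j k) ∨
    ∃ j k, j ≠ i ∧ k ≠ i ∧ j ≠ k ∧ g.1 = D.r j k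

theorem exists_ne3 {n : ℕ} (hn : 4 ≤ n) (i j k : Fin n) : ∃ t, t ≠ i ∧ t ≠ j ∧ t ≠ k := by
  by_contra H
  push Not at H
  have h1 : (Finset.univ : Finset (Fin n)) ⊆ {i, j, k} := by
    intro t _
    simp only [Finset.mem_insert, Finset.mem_singleton]
    by_cases h : t = i
    · exact Or.inl h
    · by_cases h' : t = j
      · exact Or.inr (Or.inl h')
      · exact Or.inr (Or.inr (H t h h'))
  have h2 := Finset.card_le_card h1
  have h3 := Finset.card_le_three (a := i) (b := j) (c := k)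
  rw [Finset.card_univ, Fintype.card_fin] at h2
  omega

theorem sys_comm (hn : 4 ≤ n) {i : Fin n} {g : Subgroup.normalizer (D.V i : Set A)} (hg : D.Sys i g) :
    ∃ y z, D.Sys i y ∧ D.Sys i z ∧ g = y * z * y⁻¹ * z⁻¹ := by
  rcases hg with ⟨j, hij, hg⟩ | ⟨j, k, hj, hk, hjk, hg⟩ | ⟨j, k, hj, hk, hjk, hg⟩
  · obtain ⟨t, hti, htj⟩ := exists_ne2 (by omega : 3 ≤ n) i j
    refine ⟨⟨D.l t j, D.l_mem_N' htj hti hij.symm⟩, ⟨D.r i t, D.r_mem_N hti.symm⟩,
      Or.inr (Or.inl ⟨t, j, hti, hij.symm, htj, rfl⟩), Or.inl ⟨t, hti.symm, rfl⟩, ?_⟩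
    apply Subtype.ext
    rw [hg]
    show D.r i j = D.l t j * D.r i t * (D.l t j)⁻¹ * (D.r i t)⁻¹
    rw [← D.r_comm hij hti.symm htj.symm, commutatorElement_def]
  · obtain ⟨t, hti, htj, htk⟩ := exists_ne3 hn i j k
    refine ⟨⟨D.r t k, D.r_mem_N' htk hti hk⟩, ⟨D.l j t, D.l_mem_N' htj.symm hj hti⟩,
      Or.inr (Or.inr ⟨t, k, hti, hk, htk, rfl⟩), Or.inr (Or.inl ⟨j, t, hj, hti, htj.symm, rfl⟩), ?_⟩
    apply Subtype.ext
    rw [hg]
    show D.l j k = D.r t k * D.l j t * (D.r t k)⁻¹ * (D.l j t)⁻¹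
    rw [← D.l_comm hjk htj.symm htk.symm, commutatorElement_def]
  · obtain ⟨t, hti, htj, htk⟩ := exists_ne3 hn i j k
    refine ⟨⟨D.l t k, D.l_mem_N' htk hti hk⟩, ⟨D.r j t, D.r_mem_N' htj.symm hj hti⟩,
      Or.inr (Or.inl ⟨t, k, hti, hk, htk, rfl⟩), Or.inr (Or.inr ⟨j, t, hj, hti, htj.symm, rfl⟩), ?_⟩
    apply Subtype.ext
    rw [hg]
    show D.r j k = D.l t k * D.r j t * (D.l t k)⁻¹ * (D.r j t)⁻¹
    rw [← D.r_comm hjk htj.symm htk.symm, commutatorElement_def]

theorem small4 (hn : 4 ≤ n) (i : Fin n) [Finite (D.Orbs i X)] (hc : Nat.card (D.Orbs i X) ≤ 4)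
    {j : Fin n} (hij : i ≠ j) : D.theta i X ⟨D.r i j, D.r_mem_N hij⟩ = 1 := by
  obtain ⟨φ, hφ⟩ := exists_hom hc
  let Φ : Subgroup.normalizer (D.V i : Set A) →* Equiv.Perm (Fin 4) := φ.comp (D.theta i X)
  have h1 : ∀ g, D.Sys i g → Equiv.Perm.sign (Φ g) = 1 := by
    intro g hg
    obtain ⟨y, z, _, _, rfl⟩ := D.sys_comm hn hg
    simp only [map_mul, map_inv]
    rw [mul_comm (Equiv.Perm.sign _) (Equiv.Perm.sign _), mul_inv_cancel_right, mul_inv_cancel]
  have h2 : ∀ g, D.Sys i g → Φ g * Φ g = 1 := by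
    intro g hg
    obtain ⟨y, z, hy, hz, rfl⟩ := D.sys_comm hn hg
    simp only [map_mul, map_inv]
    exact perm4a _ _ (h1 y hy) (h1 z hz)
  have h3 : ∀ g, D.Sys i g → Φ g = 1 := by
    intro g hg
    obtain ⟨y, z, hy, hz, rfl⟩ := D.sys_comm hn hg
    simp only [map_mul, map_inv]
    exact perm4b _ _ (h1 y hy) (h1 z hz) (h2 y hy) (h2 z hz)
  apply hφ
  rw [map_one]
  exact h3 _ (Or.inl ⟨j, hij, rfl⟩)

variable [Fintype A] [Fintype X]

/-- With a fixed point of `s i`: some `r i k` moves an orbit of `V i`. -/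
theorem moves (hn : 3 ≤ n) {i : Fin n} (hgen : Subgroup.closure (Set.range D.s) = ⊤)
    (htr : ∀ x y : X, ∃ g : A, g • x = y) (hX : ¬ Subsingleton X) {x : X}
    (hx : D.s i • x = x) : ∃ k, i ≠ k ∧ ∃ y : X, ∀ u ∈ D.V i, u • y ≠ D.r i k • y := by
  obtain ⟨j, hj, _⟩ := exists_ne2 hn i i
  by_contra H
  push Not at H
  exact D.no_fix hj hgen htr hX H x hx

theorem card_fix (hn : 3 ≤ n) {i : Fin n} (hgen : Subgroup.closure (Set.range D.s) = ⊤)
    (htr : ∀ x y : X, ∃ g : A, g • x = y) (hX : ¬ Subsingleton X) {x : X}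
    (hx : D.s i • x = x) :
    4 ≤ Nat.card (D.Orbs i X) ∧ (4 ≤ n → 5 ≤ Nat.card (D.Orbs i X)) := by
  obtain ⟨k, hk, y, hy⟩ := D.moves hn hgen htr hX hx
  have : Finite (D.Orbs i X) := Quotient.finite _
  constructor
  · by_contra hc
    obtain ⟨u, hu, hu'⟩ := D.theta_eq_one i _ (D.small3 hn i (X := X) (by omega) hk) y
    exact hy u hu hu'
  · intro hn4
    by_contra hc
    obtain ⟨u, hu, hu'⟩ := D.theta_eq_one i _ (D.small4 hn4 i (X := X) (by omega) hk) y
    exact hy u hu hu'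

/-- There are at least three orbits. -/
theorem three_le [IsSimpleGroup A] (hn : 3 ≤ n) {i : Fin n}
    (hgen : Subgroup.closure (Set.range D.s) = ⊤)
    (htr : ∀ x y : X, ∃ g : A, g • x = y) (hX : ¬ Subsingleton X) :
    3 ≤ Nat.card (D.Orbs i X) := by
  obtain ⟨j, hj, _⟩ := exists_ne2 hn i i
  have hfin : Finite (D.Orbs i X) := Quotient.finite _
  by_cases hfix : ∃ x : X, D.s i • x = x
  · obtain ⟨x, hx⟩ := hfix
    have := (D.card_fix hn hgen htr hX hx).1
    omega
  push Not at hfix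
  by_contra hc
  push Not at hc
  have hXne : Nonempty X := by
    by_contra h
    rw [not_nonempty_iff] at h
    exact hX inferInstance
  -- `s i` maps no point into its orbit
  have hmv : ∀ x : X, (Quotient.mk'' (D.s i • x) : D.Orbs i X) ≠ Quotient.mk'' x := by
    intro x h
    obtain ⟨u, hu, hu'⟩ := (D.rel_iff i _ _).mp (Quotient.eq''.mp h)
    obtain ⟨g, hg, -⟩ := D.exists_left (Subgroup.inv_mem _ hu)
    apply hfix (g⁻¹ • x)
    have h1 : (u⁻¹ * D.s i) • x = x := by rw [mul_smul, ← hu', inv_smul_smul]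
    rw [← hg, MulAut.conj_apply, mul_smul, mul_smul] at h1
    rw [eq_inv_smul_iff]
    exact h1
  -- two classes
  have htwo : ∀ a b c : D.Orbs i X, a ≠ b → b ≠ c → a = c := by
    intro a b c hab hbc
    by_contra hac
    have h3 : ({a, b, c} : Finset (D.Orbs i X)).card = 3 := by
      rw [Finset.card_insert_of_notMem, Finset.card_insert_of_notMem, Finset.card_singleton]
      · rw [Finset.mem_singleton]; exact hbc
      · rw [Finset.mem_insert, Finset.mem_singleton]
        rintro (h | h)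
        · exact hab h
        · exact hac h
    have := Fintype.ofFinite (D.Orbs i X)
    have h4 := Finset.card_le_univ ({a, b, c} : Finset (D.Orbs i X))
    rw [Nat.card_eq_fintype_card] at hc
    omega
  let q : X → D.Orbs i X := Quotient.mk''
  -- every element preserves all classes or moves all classes
  have hall : ∀ g : A, (∀ x, q (g • x) = q x) ∨ (∀ x, q (g • x) ≠ q x) := by
    intro g
    have hg : g ∈ Subgroup.closure (Set.range D.s) := by rw [hgen]; trivial
    induction hg using Subgroup.closure_induction with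
    | mem g hg =>
      obtain ⟨k, rfl⟩ := hg
      by_cases hk : k = i
      · subst hk; exact Or.inr hmv
      · left
        intro x
        exact Quotient.eq''.mpr ((D.rel_iff i _ _).mpr ⟨D.s k, D.s_mem_V hk, rfl⟩)
    | one => left; intro x; rw [one_smul]
    | mul g h _ _ ihg ihh =>
      rcases ihg with ihg | ihg <;> rcases ihh with ihh | ihh
      · left; intro x; rw [mul_smul, ihg, ihh]
      · right; intro x; rw [mul_smul, ihg]; exact ihh x
      · right; intro x; rw [mul_smul, ← ihh x]; exact ihg (h • x)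
      · left; intro x
        rw [mul_smul]
        exact htwo _ _ _ (ihg (h • x)) (ihh x)
    | inv g _ ihg =>
      rcases ihg with ihg | ihg
      · left; intro x
        have := ihg (g⁻¹ • x)
        rw [smul_inv_smul] at this
        exact this.symm
      · right; intro x
        have := ihg (g⁻¹ • x)
        rw [smul_inv_smul] at this
        exact this.symm
  let H : Subgroup A :=
    { carrier := {g | ∀ x, q (g • x) = q x}
      one_mem' := fun x => by rw [one_smul]
      mul_mem' := fun {g h} hg hh x => by rw [mul_smul, hg, hh]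
      inv_mem' := fun {g} hg x => by
        have := hg (g⁻¹ • x)
        rw [smul_inv_smul] at this
        exact this.symm }
  have hHn : H.Normal := by
    refine ⟨fun h hh g x => ?_⟩
    have hh' : ∀ x, q (h • x) = q x := hh
    show q ((g * h * g⁻¹) • x) = q x
    rw [mul_smul, mul_smul]
    rcases hall g with hg | hg
    · rw [hg, hh']
      have := hg (g⁻¹ • x)
      rw [smul_inv_smul] at this
      exact this.symm
    · have h1 := hg (h • g⁻¹ • x)
      rw [hh'] at h1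
      have h2 := hg (g⁻¹ • x)
      rw [smul_inv_smul] at h2
      exact htwo _ _ _ h1 h2.symm
  have hsj : D.s j ∈ H := fun x =>
    Quotient.eq''.mpr ((D.rel_iff i _ _).mpr ⟨D.s j, D.s_mem_V hj, rfl⟩)
  rcases hHn.eq_bot_or_eq_top with h | h
  · rw [h, Subgroup.mem_bot] at hsj
    exact D.s_ne j hsj
  · obtain ⟨x⟩ := hXne
    have hs : D.s i ∈ H := by rw [h]; trivial
    exact hmv x (hs x)

end Act

end Dat

end Pool.Agent.FSC
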