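import Pool.Agent.FSC.Orb2

/-!
Exponential lower bound for the degree of permutation representations of Nielsen systems.
-/

set_option autoImplicit false

namespace Pool.Agent.FSC

/-! ### The set of nontrivial cycles -/

section Cyc

variable {Ω : Type*} (ρ : Equiv.Perm Ω)

/-- points in the same cycle -/
def cycSetoid : Setoid {x : Ω // ρ x ≠ x} where
  r := fun x y => ρ.SameCycle x.1 y.1
  iseqv := ⟨fun _ => Equiv.Perm.SameCycle.refl _ _, fun h => h.symm, fun h h' => h.trans h'⟩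

/-- the set of nontrivial cycles -/
abbrev Cyc : Type _ := Quotient (cycSetoid ρ)

theorem sup_map {g : Equiv.Perm Ω} (hg : g * ρ = ρ * g) {x : Ω} (hx : ρ x ≠ x) :
    ρ (g x) ≠ g x := by
  intro h
  apply hx
  apply g.injective
  rw [← Equiv.Perm.mul_apply, hg, Equiv.Perm.mul_apply, h]

theorem same_map {g : Equiv.Perm Ω} (hg : g * ρ = ρ * g) {x y : Ω} (h : ρ.SameCycle x y) :
    ρ.SameCycle (g x) (g y) := by
  obtain ⟨a, rfl⟩ := h
  refine ⟨a, ?_⟩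
  have h1 : Commute g (ρ ^ a) := Commute.zpow_right hg a
  rw [← Equiv.Perm.mul_apply, ← h1.eq, Equiv.Perm.mul_apply]

theorem mem_cent {g : Equiv.Perm Ω} (hg : g ∈ Subgroup.centralizer ({ρ} : Set (Equiv.Perm Ω))) :
    g * ρ = ρ * g := by
  rw [Subgroup.mem_centralizer_singleton_iff] at hg
  exact hg

/-- the action of the centralizer on the set of nontrivial cycles -/
@[reducible] def cAct : MulAction (Subgroup.centralizer ({ρ} : Set (Equiv.Perm Ω))) (Cyc ρ) where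
  smul g := Quotient.map (fun x : {x : Ω // ρ x ≠ x} =>
    (⟨g.1 x.1, sup_map ρ (mem_cent ρ g.2) x.2⟩ : {x : Ω // ρ x ≠ x}))
    (fun _ _ h => same_map ρ (mem_cent ρ g.2) h)
  one_smul q := by
    induction q using Quotient.inductionOn with
    | h x => rfl
  mul_smul g h q := by
    induction q using Quotient.inductionOn with
    | h x => rfl

/-- the permutation representation on the set of nontrivial cycles -/
def cHom : Subgroup.centralizer ({ρ} : Set (Equiv.Perm Ω)) →* Equiv.Perm (Cyc ρ) :=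
  @MulAction.toPermHom _ _ _ (cAct ρ)

theorem cHom_one {g : Subgroup.centralizer ({ρ} : Set (Equiv.Perm Ω))} (h : cHom ρ g = 1)
    {x : Ω} (hx : ρ x ≠ x) : ∃ a : ℤ, (ρ ^ a) x = g.1 x := by
  have h1 : cHom ρ g (Quotient.mk (cycSetoid ρ) ⟨x, hx⟩) = Quotient.mk (cycSetoid ρ) ⟨x, hx⟩ := by
    rw [h]; rfl
  have h2 : Quotient.mk (cycSetoid ρ) ⟨g.1 x, sup_map ρ (mem_cent ρ g.2) hx⟩
    = Quotient.mk (cycSetoid ρ) ⟨x, hx⟩ := h1
  exact Equiv.Perm.SameCycle.symm (Quotient.exact h2)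

theorem comm_triv {g h : Subgroup.centralizer ({ρ} : Set (Equiv.Perm Ω))} (hg : cHom ρ g = 1)
    (hh : cHom ρ h = 1) {x : Ω} (hx : ρ x ≠ x) : (g.1 * h.1 * g.1⁻¹ * h.1⁻¹) x = x := by
  have key : ∀ z : Ω, ρ z ≠ z → g.1 (h.1 z) = h.1 (g.1 z) := by
    intro z hz
    obtain ⟨a, ha⟩ := cHom_one ρ hg hz
    obtain ⟨b, hb⟩ := cHom_one ρ hh hz
    have h1 : Commute g.1 (ρ ^ b) := Commute.zpow_right (mem_cent ρ g.2) b
    have h2 : Commute h.1 (ρ ^ a) := Commute.zpow_right (mem_cent ρ h.2) a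
    rw [← hb, ← ha, ← Equiv.Perm.mul_apply, ← Equiv.Perm.mul_apply, h1.eq, h2.eq,
      Equiv.Perm.mul_apply, Equiv.Perm.mul_apply, ← ha, ← hb, ← Equiv.Perm.mul_apply,
      ← Equiv.Perm.mul_apply, ← zpow_add, ← zpow_add, add_comm]
  have h3 : (h * g)⁻¹.1 * ρ = ρ * (h * g)⁻¹.1 := mem_cent ρ (h * g)⁻¹.2
  have h4 := key ((h * g)⁻¹.1 x) (sup_map ρ h3 hx)
  have h5 : h.1 (g.1 ((h * g)⁻¹.1 x)) = x := by
    show (h.1 * g.1 * (h.1 * g.1)⁻¹) x = x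
    rw [mul_inv_cancel]; rfl
  rw [h5] at h4
  have h6 : g.1 * h.1 * g.1⁻¹ * h.1⁻¹ = g.1 * h.1 * (h.1 * g.1)⁻¹ := by group
  rw [h6]
  exact h4

theorem two_cyc [Finite Ω] : 2 * Nat.card (Cyc ρ) ≤ Nat.card Ω := by
  classical
  have := Fintype.ofFinite Ω
  have h1 : Finite (Cyc ρ) := Quotient.finite _
  have := Fintype.ofFinite (Cyc ρ)
  have h2 : Nat.card (Cyc ρ ⊕ Cyc ρ) = 2 * Nat.card (Cyc ρ) := by
    rw [Nat.card_sum, two_mul]
  rw [← h2]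
  refine Nat.card_le_card_of_injective
    (fun q : Cyc ρ ⊕ Cyc ρ => Sum.elim (fun a => (a.out).1) (fun a => ρ (a.out).1) q) ?_
  have hab : ∀ a b : Cyc ρ, ρ.SameCycle (a.out).1 (b.out).1 → a = b := by
    intro a b h
    rw [← Quotient.out_eq a, ← Quotient.out_eq b]
    exact Quotient.sound h
  have hne : ∀ a b : Cyc ρ, (a.out).1 ≠ ρ (b.out).1 := by
    intro a b h
    have h3 : a = b := hab a b (by
      rw [h]
      exact ⟨-1, by rw [zpow_neg_one]; exact ρ.symm_apply_apply _⟩)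
    subst h3
    exact (a.out).2 h.symm
  rintro (a | a) (b | b) h
  · exact congrArg Sum.inl (hab a b (by
      have h' : (a.out).1 = (b.out).1 := h
      rw [h']))
  · exact absurd h (hne a b)
  · exact absurd h.symm (hne b a)
  · exact congrArg Sum.inr (hab a b (by
      have h' : ρ (a.out).1 = ρ (b.out).1 := h
      rw [ρ.injective h']))

end Cyc

/-! ### Small degrees -/

theorem small_gen {G : Type*} [Group G] (T : Set G)
    (hT : ∀ g ∈ T, ∃ y ∈ T, ∃ z ∈ T, g = y * z * y⁻¹ * z⁻¹) {Ω : Type*} [Finite Ω]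
    (hc : Nat.card Ω ≤ 4) (φ : G →* Equiv.Perm Ω) : ∀ g ∈ T, φ g = 1 := by
  obtain ⟨ψ, hψ⟩ := Dat.exists_hom hc
  let Φ : G →* Equiv.Perm (Fin 4) := ψ.comp φ
  have h1 : ∀ g ∈ T, Equiv.Perm.sign (Φ g) = 1 := by
    intro g hg
    obtain ⟨y, _, z, _, rfl⟩ := hT g hg
    simp only [map_mul, map_inv]
    rw [mul_comm (Equiv.Perm.sign _) (Equiv.Perm.sign _), mul_inv_cancel_right, mul_inv_cancel]
  have h2 : ∀ g ∈ T, Φ g * Φ g = 1 := by
    intro g hg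
    obtain ⟨y, hy, z, hz, rfl⟩ := hT g hg
    simp only [map_mul, map_inv]
    exact perm4a _ _ (h1 y hy) (h1 z hz)
  have h3 : ∀ g ∈ T, Φ g = 1 := by
    intro g hg
    obtain ⟨y, hy, z, hz, rfl⟩ := hT g hg
    simp only [map_mul, map_inv]
    exact perm4b _ _ (h1 y hy) (h1 z hz) (h2 y hy) (h2 z hz)
  intro g hg
  apply hψ
  rw [map_one]
  exact h3 g hg


theorem supp_sub {Ω : Type*} {R S T : Equiv.Perm Ω} (h : R = T * S * T⁻¹ * S⁻¹)
    (hT : ∀ x, R x ≠ x → T x = x) {x : Ω} (hx : R x ≠ x) : S x ≠ x := by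
  intro hS
  apply hx
  have h1 : S⁻¹ x = x := by rw [Equiv.Perm.inv_eq_iff_eq]; exact hS.symm
  have h2 : T⁻¹ x = x := by rw [Equiv.Perm.inv_eq_iff_eq]; exact (hT x hx).symm
  rw [h, Equiv.Perm.mul_apply, Equiv.Perm.mul_apply, Equiv.Perm.mul_apply, h1, h2, hS, hT x hx]

theorem comm_of_supp {Ω : Type*} {S T : Equiv.Perm Ω} (hT : ∀ x, S x ≠ x → T x = x) :
    T * S = S * T := by
  ext x
  rw [Equiv.Perm.mul_apply, Equiv.Perm.mul_apply]
  by_cases hx : S x = x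
  · rw [hx]
    by_contra h
    have h1 := hT (T x) (Ne.symm h)
    have h2 : T x = x := T.injective h1
    apply h
    rw [h2, hx]
  · rw [hT x hx]
    apply hT
    intro h
    exact hx (S.injective h)

namespace Dat

variable {n : ℕ} {A : Type*} [Group A] (D : Dat n A)

/-- `g` lies in `H` and acts trivially -/
def Tr {H : Subgroup A} {Ω : Type*} (φ : H →* Equiv.Perm Ω) (g : A) : Prop :=
  ∃ h : g ∈ H, φ ⟨g, h⟩ = 1

section

variable {H : Subgroup A} {Ω : Type*} (φ : H →* Equiv.Perm Ω)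

theorem phi_comm {g h : A} (hg : g ∈ H) (hh : h ∈ H) (hgh : g * h * g⁻¹ * h⁻¹ ∈ H) :
    φ ⟨g * h * g⁻¹ * h⁻¹, hgh⟩
      = φ ⟨g, hg⟩ * φ ⟨h, hh⟩ * (φ ⟨g, hg⟩)⁻¹ * (φ ⟨h, hh⟩)⁻¹ := by
  rw [← map_inv, ← map_inv, ← map_mul, ← map_mul, ← map_mul]
  rfl

theorem comm_mem_H {g h : A} (hg : g ∈ H) (hh : h ∈ H) : g * h * g⁻¹ * h⁻¹ ∈ H :=
  H.mul_mem (H.mul_mem (H.mul_mem hg hh) (H.inv_mem hg)) (H.inv_mem hh)

theorem tr_right {g h : A} (hg : g ∈ H) (hh : Tr φ h) : Tr φ (g * h * g⁻¹ * h⁻¹) := by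
  obtain ⟨hh, h1⟩ := hh
  refine ⟨comm_mem_H hg hh, ?_⟩
  rw [phi_comm φ hg hh, h1, mul_one, inv_one, mul_one, mul_inv_cancel]

theorem tr_left {g h : A} (hg : Tr φ g) (hh : h ∈ H) : Tr φ (g * h * g⁻¹ * h⁻¹) := by
  obtain ⟨hg, h1⟩ := hg
  refine ⟨comm_mem_H hg hh, ?_⟩
  rw [phi_comm φ hg hh, h1, one_mul, inv_one, mul_one, mul_inv_cancel]

/-- the elements of `H` which commute with `ρ` -/
def HC (ρ : Equiv.Perm Ω) : Subgroup A where
  carrier := {g | ∃ h : g ∈ H, φ ⟨g, h⟩ ∈ Subgroup.centralizer ({ρ} : Set (Equiv.Perm Ω))}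
  one_mem' := ⟨H.one_mem, by
    have : φ ⟨1, H.one_mem⟩ = 1 := map_one φ
    rw [this]
    exact Subgroup.one_mem _⟩
  mul_mem' := by
    rintro g h ⟨hg, hg'⟩ ⟨hh, hh'⟩
    refine ⟨H.mul_mem hg hh, ?_⟩
    have : φ ⟨g * h, H.mul_mem hg hh⟩ = φ ⟨g, hg⟩ * φ ⟨h, hh⟩ := map_mul φ ⟨g, hg⟩ ⟨h, hh⟩
    rw [this]
    exact Subgroup.mul_mem _ hg' hh'
  inv_mem' := by
    rintro g ⟨hg, hg'⟩
    refine ⟨H.inv_mem hg, ?_⟩
    have : φ ⟨g⁻¹, H.inv_mem hg⟩ = (φ ⟨g, hg⟩)⁻¹ := map_inv φ ⟨g, hg⟩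
    rw [this]
    exact Subgroup.inv_mem _ hg'

/-- the action of `HC` on the set of nontrivial cycles -/
def phiC (ρ : Equiv.Perm Ω) : HC φ ρ →* Equiv.Perm (Cyc ρ) :=
  (cHom ρ).comp
    { toFun := fun g => ⟨φ ⟨g.1, g.2.1⟩, g.2.2⟩
      map_one' := Subtype.ext (map_one φ)
      map_mul' := fun g h => Subtype.ext (map_mul φ ⟨g.1, g.2.1⟩ ⟨h.1, h.2.1⟩) }

theorem mem_HC {g r : A} (hg : g ∈ H) (hr : r ∈ H) (h : Commute g r) :
    g ∈ HC φ (φ ⟨r, hr⟩) := by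
  refine ⟨hg, ?_⟩
  rw [Subgroup.mem_centralizer_singleton_iff, ← map_mul, ← map_mul]
  exact congrArg φ (Subtype.ext h.eq)

theorem phiC_comm {ρ : Equiv.Perm Ω} {g h : A} (hg : Tr (phiC φ ρ) g) (hh : Tr (phiC φ ρ) h)
    (hgh : g * h * g⁻¹ * h⁻¹ ∈ H) {x : Ω} (hx : ρ x ≠ x) :
    φ ⟨g * h * g⁻¹ * h⁻¹, hgh⟩ x = x := by
  obtain ⟨⟨hg, hg'⟩, h1⟩ := hg
  obtain ⟨⟨hh, hh'⟩, h2⟩ := hh
  rw [phi_comm φ hg hh]
  exact comm_triv ρ (g := ⟨φ ⟨g, hg⟩, hg'⟩) (h := ⟨φ ⟨h, hh⟩, hh'⟩) h1 h2 hx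

end

/-- `H` contains the Nielsen elements with first index in `J ∪ {i}` and second index in `J` -/
def FT (H : Subgroup A) (i : Fin n) (J : Finset (Fin n)) : Prop :=
  ∀ j k, (j = i ∨ j ∈ J) → k ∈ J → j ≠ k → D.l j k ∈ H ∧ D.r j k ∈ H

/-- `H` contains the Nielsen elements with indices in `J` -/
def FU (H : Subgroup A) (J : Finset (Fin n)) : Prop :=
  ∀ j k, j ∈ J → k ∈ J → j ≠ k → D.l j k ∈ H ∧ D.r j k ∈ H

theorem r_eq {i j k : Fin n} (hij : i ≠ j) (hik : i ≠ k) (hjk : j ≠ k) :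
    D.r i j = D.l k j * D.r i k * (D.l k j)⁻¹ * (D.r i k)⁻¹ := by
  rw [← D.r_comm hij hik hjk, commutatorElement_def]

theorem l_eq {i j k : Fin n} (hij : i ≠ j) (hik : i ≠ k) (hjk : j ≠ k) :
    D.l i j = D.r k j * D.l i k * (D.r k j)⁻¹ * (D.l i k)⁻¹ := by
  rw [← D.l_comm hij hik hjk, commutatorElement_def]

theorem exists_third' {J : Finset (Fin n)} (hJ : 3 ≤ J.card) (a b : Fin n) :
    ∃ t ∈ J, t ≠ a ∧ t ≠ b := by
  by_contra H
  push Not at H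
  have h1 : J ⊆ {a, b} := by
    intro t ht
    simp only [Finset.mem_insert, Finset.mem_singleton]
    by_cases h : t = a
    · exact Or.inl h
    · exact Or.inr (H t ht h)
  have h2 := Finset.card_le_card h1
  have h3 := Finset.card_le_two (a := a) (b := b)
  omega


theorem l_mem_N {i k : Fin n} (h : i ≠ k) : D.l i k ∈ Subgroup.normalizer (D.V i : Set A) := by
  refine D.mem_normalizer_of (fun t ht => ?_) (fun t ht => ?_)
  · rw [D.l_other i k t h ht]; exact D.s_mem_V ht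
  · rw [D.linv_other h ht]; exact D.s_mem_V ht

universe u

/-- the doubling step -/
theorem step (B : ℕ) (H : Subgroup A) (i : Fin n) (J : Finset (Fin n)) (hi : i ∉ J)
    (hJ : 3 ≤ J.card) (hFT : D.FT H i J) (Ω : Type u) [Finite Ω] (φ : H →* Equiv.Perm Ω)
    (hfull : ∀ a ∈ J, ∀ (H' : Subgroup A) (Ω' : Type u) [Finite Ω'] (φ' : H' →* Equiv.Perm Ω'),
      D.FU H' (J.erase a) → (∃ j k, j ∈ J.erase a ∧ k ∈ J.erase a ∧ j ≠ k ∧
        (¬ Tr φ' (D.l j k) ∨ ¬ Tr φ' (D.r j k))) → B ≤ Nat.card Ω')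
    (hne : ∀ a ∈ J, ¬ Tr φ (D.r i a)) : 2 * B ≤ Nat.card Ω := by
  classical
  by_contra hlt
  have hne' : ∀ {j}, j ∈ J → i ≠ j := fun hj h => hi (h ▸ hj)
  have hl : ∀ {j k}, j ∈ J → k ∈ J → j ≠ k → D.l j k ∈ H := fun hj hk hjk =>
    (hFT _ _ (Or.inr hj) hk hjk).1
  have hr : ∀ {j k}, j ∈ J → k ∈ J → j ≠ k → D.r j k ∈ H := fun hj hk hjk =>
    (hFT _ _ (Or.inr hj) hk hjk).2
  have hri : ∀ {k}, k ∈ J → D.r i k ∈ H := fun hk => (hFT _ _ (Or.inl rfl) hk (hne' hk)).2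
  have key : ∀ a (ha : a ∈ J), ∀ e (he : e ∈ J) (hea : e ≠ a), ∀ x,
      φ ⟨D.r i a, hri ha⟩ x ≠ x → φ ⟨D.l e a, hl he ha hea⟩ x = x := by
    intro a ha e he hea x hx
    have hmem : ∀ j k, j ∈ J → j ≠ a → k ∈ J → j ≠ k →
        D.l j k ∈ HC φ (φ ⟨D.r i a, hri ha⟩) ∧ D.r j k ∈ HC φ (φ ⟨D.r i a, hri ha⟩) := by
      intro j k hj hja hk hjk
      exact ⟨mem_HC φ (hl hj hk hjk) (hri ha)
          (D.comm_lr hjk (hne' ha) (hne' hj).symm hja (hne' hk)),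
        mem_HC φ (hr hj hk hjk) (hri ha)
          (D.comm_rr hjk (hne' ha) (hne' hj).symm hja (hne' hk))⟩
    have htriv : ∀ j k, j ∈ J.erase a → k ∈ J.erase a → j ≠ k →
        Tr (phiC φ (φ ⟨D.r i a, hri ha⟩)) (D.l j k) ∧
          Tr (phiC φ (φ ⟨D.r i a, hri ha⟩)) (D.r j k) := by
      intro j k hj hk hjk
      by_contra hc
      rw [not_and_or] at hc
      apply hlt
      refine le_trans ?_ (two_cyc (φ ⟨D.r i a, hri ha⟩))
      have hfin : Finite (Cyc (φ ⟨D.r i a, hri ha⟩)) := Quotient.finite _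
      have := hfull a ha (HC φ (φ ⟨D.r i a, hri ha⟩)) (Cyc (φ ⟨D.r i a, hri ha⟩))
        (phiC φ (φ ⟨D.r i a, hri ha⟩))
        (fun j k hj hk hjk => hmem j k (Finset.mem_of_mem_erase hj) (Finset.ne_of_mem_erase hj)
          (Finset.mem_of_mem_erase hk) hjk) ⟨j, k, hj, hk, hjk, hc⟩
      omega
    obtain ⟨t, ht, hta, hte⟩ := exists_third' hJ a e
    have heJ : e ∈ J.erase a := Finset.mem_erase.mpr ⟨hea, he⟩
    have htJ : t ∈ J.erase a := Finset.mem_erase.mpr ⟨hta, ht⟩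
    have h1 : Tr (phiC φ (φ ⟨D.r i a, hri ha⟩)) (D.r t a) := by
      rw [D.r_eq hta hte hea.symm]
      exact tr_right _ (hmem e a he hea ha hea).1 (htriv t e htJ heJ hte).2
    have h2 : Tr (phiC φ (φ ⟨D.r i a, hri ha⟩)) (D.l e t) := (htriv e t heJ htJ hte.symm).1
    have h3 := D.l_eq hea hte.symm hta.symm
    have h4 : φ ⟨D.l e a, hl he ha hea⟩
        = φ ⟨D.r t a * D.l e t * (D.r t a)⁻¹ * (D.l e t)⁻¹, h3 ▸ hl he ha hea⟩ :=
      congrArg φ (Subtype.ext h3)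
    rw [h4]
    exact phiC_comm φ h1 h2 _ hx
  obtain ⟨a, ha⟩ := Finset.card_pos.mp (by omega : 0 < J.card)
  obtain ⟨e, he, hea, -⟩ := exists_third' hJ a a
  have e1 : φ ⟨D.r i a, hri ha⟩ = φ ⟨D.l e a, hl he ha hea⟩ * φ ⟨D.r i e, hri he⟩ *
      (φ ⟨D.l e a, hl he ha hea⟩)⁻¹ * (φ ⟨D.r i e, hri he⟩)⁻¹ := by
    rw [← phi_comm φ _ _ (comm_mem_H (hl he ha hea) (hri he))]
    exact congrArg φ (Subtype.ext (D.r_eq (hne' ha) (hne' he) hea.symm))
  have e2 : φ ⟨D.r i e, hri he⟩ = φ ⟨D.l a e, hl ha he hea.symm⟩ * φ ⟨D.r i a, hri ha⟩ *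
      (φ ⟨D.l a e, hl ha he hea.symm⟩)⁻¹ * (φ ⟨D.r i a, hri ha⟩)⁻¹ := by
    rw [← phi_comm φ _ _ (comm_mem_H (hl ha he hea.symm) (hri ha))]
    exact congrArg φ (Subtype.ext (D.r_eq (hne' he) (hne' ha) hea))
  have hT : ∀ x, φ ⟨D.r i e, hri he⟩ x ≠ x → φ ⟨D.l e a, hl he ha hea⟩ x = x := by
    intro x hx
    exact key a ha e he hea x (supp_sub e2 (key e he a ha hea.symm) hx)
  have h5 := comm_of_supp hT
  apply hne a ha
  refine ⟨hri ha, ?_⟩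
  rw [e1, h5, mul_inv_cancel_right, mul_inv_cancel]


/-- one nontrivial `r i j` implies that all are nontrivial -/
theorem all_ne {H : Subgroup A} {i : Fin n} {J : Finset (Fin n)} (hi : i ∉ J)
    (hFT : D.FT H i J) {Ω : Type*} (φ : H →* Equiv.Perm Ω) {j : Fin n} (hj : j ∈ J)
    (hne : ¬ Tr φ (D.r i j)) : ∀ a ∈ J, ¬ Tr φ (D.r i a) := by
  intro a ha h
  have hne' : ∀ {j}, j ∈ J → i ≠ j := fun hj h => hi (h ▸ hj)
  by_cases haj : a = j
  · exact hne (haj ▸ h)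
  · apply hne
    rw [D.r_eq (hne' hj) (hne' ha) (Ne.symm haj)]
    exact tr_right _ (hFT a j (Or.inr ha) hj haj).1 h

/-- nontrivial full systems have degree at least five -/
theorem full_five {H : Subgroup A} {J : Finset (Fin n)} (hJ : 3 ≤ J.card) (hFU : D.FU H J)
    {Ω : Type*} [Finite Ω] (φ : H →* Equiv.Perm Ω)
    (hne : ∃ j k, j ∈ J ∧ k ∈ J ∧ j ≠ k ∧ (¬ Tr φ (D.l j k) ∨ ¬ Tr φ (D.r j k))) :
    5 ≤ Nat.card Ω := by
  by_contra hc
  have h1 := small_gen (G := H)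
    {g : H | ∃ j k, j ∈ J ∧ k ∈ J ∧ j ≠ k ∧ (g.1 = D.l j k ∨ g.1 = D.r j k)} (by
      rintro g ⟨j, k, hj, hk, hjk, hg⟩
      obtain ⟨t, ht, htj, htk⟩ := exists_third' hJ j k
      rcases hg with hg | hg
      · refine ⟨⟨D.r t k, (hFU t k ht hk htk).2⟩, ⟨t, k, ht, hk, htk, Or.inr rfl⟩,
          ⟨D.l j t, (hFU j t hj ht htj.symm).1⟩, ⟨j, t, hj, ht, htj.symm, Or.inl rfl⟩, ?_⟩
        apply Subtype.ext
        rw [hg]
        exact D.l_eq hjk htj.symm htk.symm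
      · refine ⟨⟨D.l t k, (hFU t k ht hk htk).1⟩, ⟨t, k, ht, hk, htk, Or.inl rfl⟩,
          ⟨D.r j t, (hFU j t hj ht htj.symm).2⟩, ⟨j, t, hj, ht, htj.symm, Or.inr rfl⟩, ?_⟩
        apply Subtype.ext
        rw [hg]
        exact D.r_eq hjk htj.symm htk.symm) (Ω := Ω) (by omega) φ
  obtain ⟨j, k, hj, hk, hjk, h⟩ := hne
  rcases h with h | h
  · exact h ⟨(hFU j k hj hk hjk).1, h1 _ ⟨j, k, hj, hk, hjk, Or.inl rfl⟩⟩
  · exact h ⟨(hFU j k hj hk hjk).2, h1 _ ⟨j, k, hj, hk, hjk, Or.inr rfl⟩⟩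

theorem mixed_five {H : Subgroup A} {i : Fin n} {J : Finset (Fin n)} (hi : i ∉ J)
    (hJ : 3 ≤ J.card) (hFT : D.FT H i J)
    {Ω : Type*} [Finite Ω] (φ : H →* Equiv.Perm Ω) {a : Fin n} (ha : a ∈ J)
    (hne : ¬ Tr φ (D.r i a)) : 5 ≤ Nat.card Ω := by
  have hne' : ∀ {j}, j ∈ J → i ≠ j := fun hj h => hi (h ▸ hj)
  by_contra hc
  have h1 := small_gen (G := H)
    {g : H | ∃ j k, (j = i ∨ j ∈ J) ∧ k ∈ J ∧ j ≠ k ∧ (g.1 = D.l j k ∨ g.1 = D.r j k)} (by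
      rintro g ⟨j, k, hj, hk, hjk, hg⟩
      obtain ⟨t, ht, htj, htk⟩ := exists_third' hJ j k
      rcases hg with hg | hg
      · refine ⟨⟨D.r t k, (hFT t k (Or.inr ht) hk htk).2⟩, ⟨t, k, Or.inr ht, hk, htk, Or.inr rfl⟩,
          ⟨D.l j t, (hFT j t hj ht htj.symm).1⟩, ⟨j, t, hj, ht, htj.symm, Or.inl rfl⟩, ?_⟩
        apply Subtype.ext
        rw [hg]
        exact D.l_eq hjk htj.symm htk.symm
      · refine ⟨⟨D.l t k, (hFT t k (Or.inr ht) hk htk).1⟩, ⟨t, k, Or.inr ht, hk, htk, Or.inl rfl⟩,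
          ⟨D.r j t, (hFT j t hj ht htj.symm).2⟩, ⟨j, t, hj, ht, htj.symm, Or.inr rfl⟩, ?_⟩
        apply Subtype.ext
        rw [hg]
        exact D.r_eq hjk htj.symm htk.symm) (Ω := Ω) (by omega) φ
  exact hne ⟨(hFT i a (Or.inl rfl) ha (hne' ha)).2,
    h1 _ ⟨i, a, Or.inl rfl, ha, hne' ha, Or.inr rfl⟩⟩

/-- The exponential bound for mixed and for full Nielsen systems. -/
theorem deg_both (m : ℕ) :
    (∀ (H : Subgroup A) (i : Fin n) (J : Finset (Fin n)), i ∉ J → J.card = m + 3 →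
      D.FT H i J → ∀ (Ω : Type u) [Finite Ω] (φ : H →* Equiv.Perm Ω) (j : Fin n), j ∈ J →
        ¬ Tr φ (D.r i j) → 5 * 2 ^ ((m + 1) / 2) ≤ Nat.card Ω) ∧
    (∀ (H : Subgroup A) (J : Finset (Fin n)), J.card = m + 3 → D.FU H J →
      ∀ (Ω : Type u) [Finite Ω] (φ : H →* Equiv.Perm Ω),
        (∃ j k, j ∈ J ∧ k ∈ J ∧ j ≠ k ∧ (¬ Tr φ (D.l j k) ∨ ¬ Tr φ (D.r j k))) →
        5 * 2 ^ (m / 2) ≤ Nat.card Ω) := by
  classical
  induction m with
  | zero =>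
    refine ⟨fun H i J hi hJ hFT Ω _ φ j hj hne => ?_, fun H J hJ hFU Ω _ φ hne => ?_⟩
    · simpa using D.mixed_five hi (by omega) hFT φ hj hne
    · simpa using D.full_five (by omega) hFU φ hne
  | succ m ih =>
    obtain ⟨ih1, ih2⟩ := ih
    refine ⟨fun H i J hi hJ hFT Ω _ φ j hj hne => ?_, fun H J hJ hFU Ω _ φ hne => ?_⟩
    · have h1 := D.step (5 * 2 ^ (m / 2)) H i J hi (by omega) hFT Ω φ
        (fun a ha H' Ω' _ φ' hFU' hne' => ih2 H' (J.erase a)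
          (by rw [Finset.card_erase_of_mem ha]; omega) hFU' Ω' φ' hne')
        (D.all_ne hi hFT φ hj hne)
      have h2 : (m + 1 + 1) / 2 = m / 2 + 1 := by omega
      rw [h2, pow_succ]
      omega
    · have hmain : ∀ i k, i ∈ J → k ∈ J → i ≠ k → ¬ Tr φ (D.r i k) →
          5 * 2 ^ ((m + 1) / 2) ≤ Nat.card Ω := by
        intro i k hi hk hik h
        refine ih1 H i (J.erase i) (Finset.notMem_erase i J)
          (by rw [Finset.card_erase_of_mem hi]; omega) ?_ Ω φ k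
          (Finset.mem_erase.mpr ⟨hik.symm, hk⟩) h
        intro p q hp hq hpq
        refine hFU p q ?_ (Finset.mem_of_mem_erase hq) hpq
        rcases hp with rfl | hp
        · exact hi
        · exact Finset.mem_of_mem_erase hp
      obtain ⟨j, k, hj, hk, hjk, h⟩ := hne
      rcases h with h | h
      · obtain ⟨t, ht, htj, htk⟩ := exists_third' (by omega : 3 ≤ J.card) j k
        refine hmain t k ht hk htk fun h' => h ?_
        rw [D.l_eq hjk htj.symm htk.symm]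
        exact tr_left _ h' (hFU j t hj ht htj.symm).1
      · exact hmain j k hj hk hjk h

section Act2

variable {X : Type u} [MulAction A X]

/-- If some `r i k` moves an orbit of `V i`, then the number of orbits is exponential in `n`. -/
theorem card_orbs (hn : 4 ≤ n) {i k : Fin n} (hik : i ≠ k) {y : X} [Finite X]
    (hy : ∀ u ∈ D.V i, u • y ≠ D.r i k • y) :
    5 * 2 ^ ((n - 3) / 2) ≤ Nat.card (D.Orbs i X) := by
  classical
  have hfin : Finite (D.Orbs i X) := Quotient.finite _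
  have h1 := (D.deg_both (n - 4)).1 (Subgroup.normalizer (D.V i : Set A)) i
    (Finset.univ.erase i) (Finset.notMem_erase i _)
    (by rw [Finset.card_erase_of_mem (Finset.mem_univ i), Finset.card_univ, Fintype.card_fin]
        omega)
    (by
      intro p q hp hq hpq
      have hq' := Finset.ne_of_mem_erase hq
      rcases hp with rfl | hp
      · exact ⟨D.l_mem_N hpq, D.r_mem_N hpq⟩
      · have hp' := Finset.ne_of_mem_erase hp
        exact ⟨D.l_mem_N' hpq hp' hq', D.r_mem_N' hpq hp' hq'⟩)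
    (D.Orbs i X) (D.theta i X) k (Finset.mem_erase.mpr ⟨hik.symm, Finset.mem_univ k⟩)
    (by
      rintro ⟨h, h'⟩
      obtain ⟨u, hu, hu'⟩ := D.theta_eq_one i _ h' y
      exact hy u hu hu')
  have h2 : (n - 4 + 1) / 2 = (n - 3) / 2 := by omega
  rwa [h2] at h1

end Act2

end Dat

end Pool.Agent.FSC
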