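import Pool.Agent.FSC.Orb4
import Pool.Agent.FSX.Main

/-!
Lower bound `2 ^ (n - 2) + 1` for the number of orbits.
-/

set_option autoImplicit false

namespace Pool.Agent.FSC

open Module

section PermRep

/-- functions with sum zero -/
def V0 (Ω : Type*) [Fintype Ω] : Submodule ℂ (Ω → ℂ) where
  carrier := {f | ∑ x, f x = 0}
  zero_mem' := by simp
  add_mem' := by
    intro f g hf hg
    have hf' : ∑ x, f x = 0 := hf
    have hg' : ∑ x, g x = 0 := hg
    show ∑ x, (f x + g x) = 0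
    rw [Finset.sum_add_distrib, hf', hg', add_zero]
  smul_mem' := by
    intro c f hf
    have hf' : ∑ x, f x = 0 := hf
    show ∑ x, c * f x = 0
    rw [← Finset.mul_sum, hf', mul_zero]

variable {Ω : Type*} [Fintype Ω]

/-- the permutation representation on functions with sum zero -/
def pRep : Equiv.Perm Ω →* End ℂ (V0 Ω) where
  toFun π :=
    { toFun := fun f => ⟨fun x => f.1 (π.symm x), by
        show ∑ x, f.1 (π.symm x) = 0
        rw [Equiv.sum_comp π.symm f.1]
        exact f.2⟩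
      map_add' := fun _ _ => rfl
      map_smul' := fun _ _ => rfl }
  map_one' := rfl
  map_mul' _ _ := rfl

theorem pRep_inj {π : Equiv.Perm Ω} (h : pRep π = 1) : π = 1 := by
  classical
  ext x
  show π x = x
  by_contra hx
  have hf : (fun z => (if z = x then 1 else 0) - (if z = π x then 1 else 0) : Ω → ℂ) ∈ V0 Ω := by
    show ∑ z, (((if z = x then 1 else 0) - (if z = π x then 1 else 0)) : ℂ) = 0
    rw [Finset.sum_sub_distrib]
    simp
  have h1 := congrArg (fun f : End ℂ (V0 Ω) => (f ⟨_, hf⟩).1 (π x)) h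
  have h2 : ((if π.symm (π x) = x then 1 else 0) - (if π.symm (π x) = π x then 1 else 0) : ℂ)
      = ((if π x = x then 1 else 0) - (if π x = π x then 1 else 0) : ℂ) := h1
  rw [Equiv.symm_apply_apply, if_pos rfl, if_neg (Ne.symm hx), if_neg hx, if_pos rfl] at h2
  norm_num at h2

theorem pRep_max {π : Equiv.Perm Ω} (h : π ≠ 1) : (pRep π).maxGenEigenspace 1 ≠ ⊤ := by
  intro htop
  apply h
  apply pRep_inj
  refine Pool.Agent.FSX.eq_one_of_pow (L := ℂ) (E := End ℂ (V0 Ω)) (u := pRep π)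
    (b := orderOf π) ?_ ?_ ?_
  · refine ⟨finrank ℂ (V0 Ω), ?_⟩
    refine LinearMap.ext fun v => ?_
    have h2 := (Pool.Agent.FSX.mem_maxGen_iff (pRep π) 1 v).1 (by rw [htop]; trivial)
    rw [one_smul] at h2
    rw [h2]; rfl
  · rw [Nat.cast_ne_zero]
    exact (orderOf_pos π).ne'
  · rw [← map_pow, pow_orderOf_eq_one, map_one]

theorem pRep_injective (π : Equiv.Perm Ω) : Function.Injective (pRep π) := by
  intro f g h
  have h1 : pRep π⁻¹ * pRep π = 1 := by rw [← map_mul, inv_mul_cancel, map_one]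
  have h2 := congrArg (pRep π⁻¹) h
  rw [← Module.End.mul_apply, ← Module.End.mul_apply, h1] at h2
  exact h2

theorem finrank_V0 [Nonempty Ω] : finrank ℂ (V0 Ω) < Fintype.card Ω := by
  classical
  have h1 : V0 Ω ≠ ⊤ := by
    intro h
    obtain ⟨x⟩ := ‹Nonempty Ω›
    have h2 : (fun z => if z = x then 1 else 0 : Ω → ℂ) ∈ V0 Ω := by rw [h]; trivial
    have h3 : ∑ z, (if z = x then 1 else 0 : ℂ) = 0 := h2
    simp at h3
  have h2 := Submodule.finrank_lt h1
  rwa [Module.finrank_fintype_fun_eq_card] at h2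

/-- pairs of permutations with a common nontrivial commutator -/
theorem perm_gen (k : ℕ) (Q : Equiv.Perm Ω) (P X : Fin k → Equiv.Perm Ω) (hQ : Q ≠ 1)
    (h1 : ∀ i, Commute Q (P i)) (h2 : ∀ i j, Commute (P i) (P j))
    (h3 : ∀ i, P i * X i = Q * X i * P i) (h4 : ∀ i j, i ≠ j → Commute (X i) (P j)) :
    2 ^ k < Fintype.card Ω := by
  have hne : Nonempty Ω := by
    by_contra h
    rw [not_nonempty_iff] at h
    exact hQ (Subsingleton.elim _ _)
  refine lt_of_le_of_lt ?_ (finrank_V0 (Ω := Ω))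
  refine Pool.Agent.FSX.gen_bound k (V0 Ω) (pRep Q) (fun i => pRep (P i)) (fun i => pRep (X i))
    (fun i => (h1 i).map pRep) (fun i j => (h2 i j).map pRep) (fun i => ?_)
    (fun i j hij => (h4 i j hij).map pRep) (fun i => pRep_injective _)
    (fun i => pRep_injective _) (pRep_max hQ)
  rw [← map_mul, h3 i, map_mul, map_mul]

end PermRep

namespace Dat

variable {n : ℕ} {A : Type*} [Group A] (D : Dat n A)

/-- the exponential bound for actions of mixed Nielsen systems -/
theorem mixed_bound {H : Subgroup A} {i a : Fin n} (hia : i ≠ a) {J : Finset (Fin n)}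
    (hi : i ∉ J) (ha : a ∈ J) (hFT : D.FT H i J) {Ω : Type*} [Finite Ω]
    (φ : H →* Equiv.Perm Ω) (hne : ¬ Tr φ (D.r i a)) : 2 ^ (J.card - 1) < Nat.card Ω := by
  classical
  have := Fintype.ofFinite Ω
  rw [Nat.card_eq_fintype_card]
  have hcard : Fintype.card {k : Fin n // k ∈ J.erase a} = J.card - 1 := by
    rw [Fintype.card_coe, Finset.card_erase_of_mem ha]
  let e : Fin (J.card - 1) ≃ {k : Fin n // k ∈ J.erase a} :=
    (Fintype.equivFinOfCardEq hcard).symm
  have hJ : ∀ k : {k : Fin n // k ∈ J.erase a}, k.1 ∈ J := fun k => Finset.mem_of_mem_erase k.2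
  have hka : ∀ k : {k : Fin n // k ∈ J.erase a}, k.1 ≠ a := fun k => Finset.ne_of_mem_erase k.2
  have hik : ∀ k : {k : Fin n // k ∈ J.erase a}, i ≠ k.1 := fun k h => hi (h ▸ hJ k)
  have hl : ∀ k : {k : Fin n // k ∈ J.erase a}, D.l k.1 a ∈ H := fun k =>
    (hFT _ _ (Or.inr (hJ k)) ha (hka k)).1
  have hr : ∀ k : {k : Fin n // k ∈ J.erase a}, D.r i k.1 ∈ H := fun k =>
    (hFT _ _ (Or.inl rfl) (hJ k) (hik k)).2
  have hra : D.r i a ∈ H := (hFT _ _ (Or.inl rfl) ha hia).2
  have hcomm : ∀ {g h : A} (hg : g ∈ H) (hh : h ∈ H), Commute g h →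
      Commute (φ ⟨g, hg⟩) (φ ⟨h, hh⟩) := by
    intro g h hg hh hc
    exact Commute.map (Subtype.ext hc.eq : Commute (⟨g, hg⟩ : H) ⟨h, hh⟩) φ
  refine perm_gen (J.card - 1) (φ ⟨D.r i a, hra⟩) (fun t => φ ⟨D.l (e t).1 a, hl (e t)⟩)
    (fun t => φ ⟨D.r i (e t).1, hr (e t)⟩) ?_ ?_ ?_ ?_ ?_
  · intro h
    exact hne ⟨hra, h⟩
  · intro t
    exact (hcomm _ _ (D.comm_lr (hka _) hia (hik _).symm (hka _) hia)).symm
  · intro s t
    by_cases hst : s = t
    · subst hst; exact Commute.refl _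
    · have hne' : (e s).1 ≠ (e t).1 := fun h => hst (e.injective (Subtype.ext h))
      exact hcomm _ _ (D.comm_ll (hka _) (hka _) hne' (hka _) (hka _))
  · intro t
    have h1 := D.r_eq hia (hik (e t)) (hka (e t)).symm
    have h2 : D.l (e t).1 a * D.r i (e t).1 = D.r i a * D.r i (e t).1 * D.l (e t).1 a := by
      rw [h1]; group
    show φ ⟨_, _⟩ * φ ⟨_, _⟩ = φ ⟨_, _⟩ * φ ⟨_, _⟩ * φ ⟨_, _⟩
    rw [← map_mul, ← map_mul, ← map_mul]
    exact congrArg φ (Subtype.ext h2)
  · intro s t hst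
    have hne' : (e s).1 ≠ (e t).1 := fun h => hst (e.injective (Subtype.ext h))
    exact (hcomm _ _ (D.comm_lr (hka _) (hik _) (hik _).symm hne'.symm hia)).symm

section Act3

variable {X : Type*} [MulAction A X]

/-- If some `r i k` moves an orbit of `V i`, there are more than `2 ^ (n - 2)` orbits. -/
theorem card_orbs' {i k : Fin n} (hik : i ≠ k) {y : X} [Finite X]
    (hy : ∀ u ∈ D.V i, u • y ≠ D.r i k • y) :
    2 ^ (n - 2) < Nat.card (D.Orbs i X) := by
  classical
  have hfin : Finite (D.Orbs i X) := Quotient.finite _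
  have h1 := D.mixed_bound (H := Subgroup.normalizer (D.V i : Set A)) hik
    (Finset.notMem_erase i Finset.univ)
    (Finset.mem_erase.mpr ⟨hik.symm, Finset.mem_univ k⟩)
    (by
      intro p q hp hq hpq
      have hq' := Finset.ne_of_mem_erase hq
      rcases hp with rfl | hp
      · exact ⟨D.l_mem_N hpq, D.r_mem_N hpq⟩
      · have hp' := Finset.ne_of_mem_erase hp
        exact ⟨D.l_mem_N' hpq hp' hq', D.r_mem_N' hpq hp' hq'⟩)
    (D.theta i X)
    (by
      rintro ⟨h, h'⟩
      obtain ⟨u, hu, hu'⟩ := D.theta_eq_one i _ h' y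
      exact hy u hu hu')
  rw [Finset.card_erase_of_mem (Finset.mem_univ i), Finset.card_univ, Fintype.card_fin] at h1
  exact h1

end Act3

end Dat

end Pool.Agent.FSC
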