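import Pool.Agent.FSC.Rel

namespace Pool.Agent.FSC

namespace Dat

variable {n : ℕ} {A : Type*} [Group A] (D : Dat n A)

theorem orderOf_s_eq (i j : Fin n) : orderOf (D.s i) = orderOf (D.s j) := by
  by_cases hij : i = j
  · rw [hij]
  · have h1 := D.l_self i j hij
    have h2 := D.r_self j i (Ne.symm hij)
    rw [← MulEquiv.orderOf_eq (MulAut.conj (D.l i j)) (D.s i), h1, ← h2, MulEquiv.orderOf_eq]

theorem lpow_self {i j : Fin n} (hij : i ≠ j) (a : ℤ) :
    MulAut.conj ((D.l i j) ^ a) (D.s i) = (D.s j) ^ a * D.s i := by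
  induction a using Int.induction_on with
  | zero => simp
  | succ a ih =>
    rw [zpow_add_one, zpow_add_one, map_mul, MulAut.mul_apply, D.l_self i j hij, map_mul, ih]
    have h2 : MulAut.conj ((D.l i j) ^ (a : ℤ)) (D.s j) = D.s j := by
      rw [MulAut.conj_apply, mul_inv_eq_iff_eq_mul]
      exact ((D.comm_ls hij hij.symm).zpow_left _).eq
    rw [h2, ← mul_assoc, (Commute.self_zpow (D.s j) (a : ℤ)).eq]
  | pred a ih =>
    rw [zpow_sub_one, zpow_sub_one, map_mul, MulAut.mul_apply, D.linv_self hij, map_mul, ih]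
    have h2 : MulAut.conj ((D.l i j) ^ (-(a : ℤ))) (D.s j)⁻¹ = (D.s j)⁻¹ := by
      rw [MulAut.conj_apply, mul_inv_eq_iff_eq_mul]
      exact ((D.comm_ls hij hij.symm).zpow_left _).inv_right.eq
    rw [h2, ← mul_assoc, ((Commute.self_zpow (D.s j) (-(a : ℤ))).inv_left).eq]

theorem rpow_self {i j : Fin n} (hij : i ≠ j) (a : ℤ) :
    MulAut.conj ((D.r i j) ^ a) (D.s i) = D.s i * (D.s j) ^ a := by
  induction a using Int.induction_on with
  | zero => simp
  | succ a ih =>
    rw [zpow_add_one, zpow_add_one, map_mul, MulAut.mul_apply, D.r_self i j hij, map_mul, ih]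
    have h2 : MulAut.conj ((D.r i j) ^ (a : ℤ)) (D.s j) = D.s j := by
      rw [MulAut.conj_apply, mul_inv_eq_iff_eq_mul]
      exact ((D.comm_rs hij hij.symm).zpow_left _).eq
    rw [h2, mul_assoc]
  | pred a ih =>
    rw [zpow_sub_one, zpow_sub_one, map_mul, MulAut.mul_apply, D.rinv_self hij, map_mul, ih]
    have h2 : MulAut.conj ((D.r i j) ^ (-(a : ℤ))) (D.s j)⁻¹ = (D.s j)⁻¹ := by
      rw [MulAut.conj_apply, mul_inv_eq_iff_eq_mul]
      exact ((D.comm_rs hij hij.symm).zpow_left _).inv_right.eq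
    rw [h2, mul_assoc]

theorem orderOf_l {i j : Fin n} (hij : i ≠ j) : orderOf (D.l i j) = orderOf (D.s j) := by
  refine orderOf_eq_orderOf_iff.2 fun a => ⟨fun h => ?_, fun h => ?_⟩
  · have := D.lpow_self hij (a : ℤ)
    rw [zpow_natCast, h, map_one, MulAut.one_apply, zpow_natCast] at this
    exact (mul_eq_right.1 this.symm)
  · refine D.faithful _ fun k => ?_
    by_cases hk : k = i
    · subst hk
      have := D.lpow_self hij (a : ℤ)
      rw [zpow_natCast, zpow_natCast, h, one_mul] at this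
      exact this
    · rw [MulAut.conj_apply, mul_inv_eq_iff_eq_mul]
      exact ((D.comm_ls hij hk).pow_left _).eq

theorem orderOf_r {i j : Fin n} (hij : i ≠ j) : orderOf (D.r i j) = orderOf (D.s j) := by
  refine orderOf_eq_orderOf_iff.2 fun a => ⟨fun h => ?_, fun h => ?_⟩
  · have := D.rpow_self hij (a : ℤ)
    rw [zpow_natCast, h, map_one, MulAut.one_apply, zpow_natCast] at this
    exact (mul_eq_left.1 this.symm)
  · refine D.faithful _ fun k => ?_
    by_cases hk : k = i
    · subst hk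
      have := D.rpow_self hij (a : ℤ)
      rw [zpow_natCast, zpow_natCast, h, mul_one] at this
      exact this
    · rw [MulAut.conj_apply, mul_inv_eq_iff_eq_mul]
      exact ((D.comm_rs hij hk).pow_left _).eq

theorem orderOf_ne_one (i : Fin n) : orderOf (D.s i) ≠ 1 := fun h =>
  D.s_ne i (orderOf_eq_one_iff.1 h)

theorem orderOf_ne_two (hn : 2 ≤ n) (i : Fin n) : orderOf (D.s i) ≠ 2 := by
  intro h
  obtain ⟨j, hj⟩ : ∃ j : Fin n, i ≠ j := by
    have : Nontrivial (Fin n) := Fin.nontrivial_iff_two_le.2 hn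
    obtain ⟨j, hj⟩ := exists_ne i
    exact ⟨j, hj.symm⟩
  have h1 : D.s i ^ 2 = 1 := by rw [← h]; exact pow_orderOf_eq_one _
  have h2 : D.s j ^ 2 = 1 := by rw [← h, D.orderOf_s_eq i j]; exact pow_orderOf_eq_one _
  have h3 : (D.s j * D.s i) ^ 2 = 1 := by
    rw [← D.l_self i j hj, ← map_pow, h1, map_one]
  refine D.s_ncomm hj ?_
  rw [pow_two] at h1 h2 h3
  have e1 : D.s i = (D.s i)⁻¹ := (eq_inv_of_mul_eq_one_left h1)
  have e2 : D.s j = (D.s j)⁻¹ := (eq_inv_of_mul_eq_one_left h2)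
  have e3 : D.s j * D.s i = (D.s j * D.s i)⁻¹ := (eq_inv_of_mul_eq_one_left h3)
  rw [mul_inv_rev, ← e1, ← e2] at e3
  exact e3.symm

theorem exists_third {i q : Fin n} (hn : 3 ≤ n) : ∃ k : Fin n, k ≠ i ∧ k ≠ q := by
  by_contra H
  push Not at H
  have h1 : (Finset.univ : Finset (Fin n)) ⊆ {i, q} := by
    intro k _
    by_cases hk : k = i
    · simp [hk]
    · simp [H k hk]
  have h2 := Finset.card_le_card h1
  have h3 := Finset.card_le_two (a := i) (b := q)
  rw [Finset.card_univ, Fintype.card_fin] at h2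
  omega

end Dat

end Pool.Agent.FSC
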