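import Mathlib

namespace Pool.Agent.FSC

open Module

/-- a common vector avoiding finitely many kernels -/
theorem exists_avoid {L E : Type*} [Field L] [Infinite L] [AddCommGroup E] [Module L E]
    {ι : Type*} [Finite ι] (F : ι → E →ₗ[L] E) (hF : ∀ i, F i ≠ 0) : ∃ v, ∀ i, F i v ≠ 0 := by
  by_contra H
  push Not at H
  have h1 : (⋃ i, ((LinearMap.ker (F i) : Submodule L E) : Set E)) = Set.univ := by
    rw [Set.eq_univ_iff_forall]
    intro v
    obtain ⟨i, hi⟩ := H v
    exact Set.mem_iUnion.2 ⟨i, hi⟩
  obtain ⟨i, hi⟩ := Subspace.exists_eq_top_of_iUnion_eq_univ h1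
  exact hF i (LinearMap.ker_eq_top.1 hi)

/-- a functional not vanishing on finitely many nonzero vectors -/
theorem exists_functional {L E : Type*} [Field L] [Infinite L] [AddCommGroup E] [Module L E]
    {ι : Type*} [Finite ι] (w : ι → E) (hw : ∀ i, w i ≠ 0) :
    ∃ f : Dual L E, ∀ i, f (w i) ≠ 0 := by
  by_contra H
  push Not at H
  have h1 : (⋃ i, ((LinearMap.ker (Dual.eval L E (w i)) : Submodule L (Dual L E)) :
      Set (Dual L E))) = Set.univ := by
    rw [Set.eq_univ_iff_forall]
    intro f
    obtain ⟨i, hi⟩ := H f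
    exact Set.mem_iUnion.2 ⟨i, by simpa using hi⟩
  obtain ⟨i, hi⟩ := Subspace.exists_eq_top_of_iUnion_eq_univ h1
  have h2 : Dual.eval L E (w i) = 0 := LinearMap.ker_eq_top.1 hi
  exact hw i ((Module.forall_dual_apply_eq_zero_iff L (w i)).1 fun f => by
    have := LinearMap.congr_fun h2 f
    simpa using this)

/-- an isotropic subspace of a symplectic space of dimension `2 k` has dimension at most `k` -/
theorem isotropic_le {L ι : Type*} [Field L] [Fintype ι] [DecidableEq ι] (d : ι → L)
    (hd : ∀ i, d i ≠ 0) (W : Submodule L ((ι → L) × (ι → L)))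
    (hW : ∀ x ∈ W, ∀ y ∈ W, ∑ i, (x.1 i * y.2 i - x.2 i * y.1 i) * d i = 0) :
    finrank L W ≤ Fintype.card ι := by
  let E : ((ι → L) × (ι → L)) →ₗ[L] Dual L ((ι → L) × (ι → L)) :=
    LinearMap.mk₂ L (fun x y => ∑ i, (x.1 i * y.2 i - x.2 i * y.1 i) * d i)
      (by intro x x' y; rw [← Finset.sum_add_distrib]; refine Finset.sum_congr rfl fun i _ => ?_
          simp only [Prod.fst_add, Prod.snd_add, Pi.add_apply]; ring)
      (by intro c x y; rw [smul_eq_mul, Finset.mul_sum]; refine Finset.sum_congr rfl fun i _ => ?_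
          simp only [Prod.smul_fst, Prod.smul_snd, Pi.smul_apply, smul_eq_mul]; ring)
      (by intro x y y'; rw [← Finset.sum_add_distrib]; refine Finset.sum_congr rfl fun i _ => ?_
          simp only [Prod.fst_add, Prod.snd_add, Pi.add_apply]; ring)
      (by intro c x y; rw [smul_eq_mul, Finset.mul_sum]; refine Finset.sum_congr rfl fun i _ => ?_
          simp only [Prod.smul_fst, Prod.smul_snd, Pi.smul_apply, smul_eq_mul]; ring)
  have hE : ∀ x y, E x y = ∑ i, (x.1 i * y.2 i - x.2 i * y.1 i) * d i := fun x y => rfl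
  have hinj : Function.Injective E := by
    rw [injective_iff_map_eq_zero]
    intro x hx
    have h1 : x.1 = 0 := by
      funext i
      have := LinearMap.congr_fun hx ((0 : ι → L), Pi.single i 1)
      rw [hE, Finset.sum_eq_single i] at this
      · simpa [hd i] using this
      · intro j _ hj; simp [Pi.single_eq_of_ne hj]
      · intro h; exact absurd (Finset.mem_univ i) h
    have h2 : x.2 = 0 := by
      funext i
      have := LinearMap.congr_fun hx (Pi.single i 1, (0 : ι → L))
      rw [hE, Finset.sum_eq_single i] at this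
      · simpa [hd i] using this
      · intro j _ hj; simp [Pi.single_eq_of_ne hj]
      · intro h; exact absurd (Finset.mem_univ i) h
    exact Prod.ext h1 h2
  have hle : W.map E ≤ W.dualAnnihilator := by
    rintro _ ⟨x, hx, rfl⟩
    rw [Submodule.mem_dualAnnihilator]
    intro y hy
    exact hW x hx y hy
  have h1 : finrank L (W.map E) = finrank L W :=
    (Submodule.equivMapOfInjective E hinj W).finrank_eq.symm
  have h2 := Submodule.finrank_mono hle
  have h3 := Subspace.finrank_add_finrank_dualAnnihilator_eq W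
  rw [finrank_prod, finrank_pi] at h3
  omega

/-- Symplectic lemma: `k` pairwise commuting non-commuting pairs need dimension `k + 1`. -/
theorem symp {L ι : Type*} [Field L] [Infinite L] [Fintype ι] [DecidableEq ι] [Nonempty ι]
    {m : ℕ} (a b : ι → Matrix (Fin m) (Fin m) L)
    (hX : ∀ i, a i * b i ≠ b i * a i) (haa : ∀ i j, i ≠ j → a i * a j = a j * a i)
    (hbb : ∀ i j, i ≠ j → b i * b j = b j * b i) (hab : ∀ i j, i ≠ j → a i * b j = b j * a i) :
    Fintype.card ι + 1 ≤ m := by
  obtain ⟨v, hv⟩ := exists_avoid (L := L) (fun i => Matrix.mulVecLin (a i * b i - b i * a i))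
    (fun i h => hX i (sub_eq_zero.1 (by
      have := congrArg LinearMap.toMatrix' h
      rwa [map_zero, ← Matrix.toLin'_apply', LinearMap.toMatrix'_toLin'] at this)))
  obtain ⟨f, hf⟩ := exists_functional (L := L)
    (fun i => (Matrix.mulVecLin (a i * b i - b i * a i)) v) hv
  let O : L × ((ι → L) × (ι → L)) → Matrix (Fin m) (Fin m) L := fun w =>
    w.1 • 1 + ∑ i, (w.2.1 i • a i + w.2.2 i • b i)
  have hcomm : ∀ w w', O w * O w' - O w' * O w =
      ∑ i, (w.2.1 i * w'.2.2 i - w.2.2 i * w'.2.1 i) • (a i * b i - b i * a i) := by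
    intro w w'
    have h1 : O w * O w' - O w' * O w =
        (∑ i, (w.2.1 i • a i + w.2.2 i • b i)) * (∑ i, (w'.2.1 i • a i + w'.2.2 i • b i)) -
        (∑ i, (w'.2.1 i • a i + w'.2.2 i • b i)) * (∑ i, (w.2.1 i • a i + w.2.2 i • b i)) := by
      simp only [O]
      generalize (∑ i, (w.2.1 i • a i + w.2.2 i • b i)) = P
      generalize (∑ i, (w'.2.1 i • a i + w'.2.2 i • b i)) = Q
      simp only [add_mul, mul_add, smul_mul_assoc, mul_smul_comm, one_mul, mul_one]
      module
    rw [h1, Finset.sum_mul_sum, Finset.sum_mul_sum, Finset.sum_comm (γ := ι), ←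
      Finset.sum_sub_distrib]
    refine Finset.sum_congr rfl fun i _ => ?_
    rw [← Finset.sum_sub_distrib, Finset.sum_eq_single i]
    · simp only [add_mul, mul_add, smul_mul_assoc, mul_smul_comm]
      module
    · intro j _ hj
      simp only [add_mul, mul_add, smul_mul_assoc, mul_smul_comm]
      rw [haa i j hj.symm, hbb i j hj.symm, hab i j hj.symm, hab j i hj]
      module
    · intro h; exact absurd (Finset.mem_univ i) h
  let Φ : (L × ((ι → L) × (ι → L))) →ₗ[L] (Fin m → L) :=
    { toFun := fun w => (O w).mulVec v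
      map_add' := by
        intro w w'
        rw [← Matrix.add_mulVec]
        congr 1
        simp only [O, Prod.fst_add, Prod.snd_add, Pi.add_apply, add_smul]
        rw [show (∑ i, (w.2.1 i • a i + w'.2.1 i • a i + (w.2.2 i • b i + w'.2.2 i • b i))) =
          (∑ i, (w.2.1 i • a i + w.2.2 i • b i)) + ∑ i, (w'.2.1 i • a i + w'.2.2 i • b i) by
            rw [← Finset.sum_add_distrib]; refine Finset.sum_congr rfl fun i _ => ?_; abel]
        abel
      map_smul' := by
        intro c w
        rw [RingHom.id_apply, ← Matrix.smul_mulVec]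
        congr 1
        simp only [O, Prod.smul_fst, Prod.smul_snd, Pi.smul_apply, smul_eq_mul, mul_smul,
          smul_add, Finset.smul_sum] }
  have hΦ : ∀ w, Φ w = (O w).mulVec v := fun w => rfl
  have hiso : ∀ w ∈ LinearMap.ker Φ, ∀ w' ∈ LinearMap.ker Φ,
      ∑ i, (w.2.1 i * w'.2.2 i - w.2.2 i * w'.2.1 i) *
        f ((Matrix.mulVecLin (a i * b i - b i * a i)) v) = 0 := by
    intro w hw w' hw'
    rw [LinearMap.mem_ker, hΦ] at hw hw'
    have h1 : (O w * O w' - O w' * O w).mulVec v = 0 := by
      rw [Matrix.sub_mulVec, ← Matrix.mulVec_mulVec, ← Matrix.mulVec_mulVec, hw, hw',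
        Matrix.mulVec_zero, Matrix.mulVec_zero, sub_zero]
    rw [hcomm, Matrix.sum_mulVec] at h1
    have h2 := congrArg f h1
    rw [map_zero, map_sum] at h2
    rw [← h2]
    refine Finset.sum_congr rfl fun i _ => ?_
    rw [Matrix.smul_mulVec, map_smul, smul_eq_mul, Matrix.mulVecLin_apply]
  have hv0 : v ≠ 0 := by
    intro h
    obtain ⟨i⟩ := ‹Nonempty ι›
    exact hv i (by rw [h, map_zero])
  -- project the kernel
  let π : (L × ((ι → L) × (ι → L))) →ₗ[L] ((ι → L) × (ι → L)) := LinearMap.snd L _ _
  have hπ : ∀ w ∈ LinearMap.ker Φ, π w = 0 → w = 0 := by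
    intro w hw h0
    have h0' : w.2 = 0 := h0
    rw [LinearMap.mem_ker, hΦ] at hw
    simp only [O, h0', Prod.fst_zero, Prod.snd_zero, Pi.zero_apply, zero_smul, add_zero,
      Finset.sum_const_zero, Matrix.smul_mulVec, Matrix.one_mulVec] at hw
    rcases smul_eq_zero.1 hw with h | h
    · exact Prod.ext h h0'
    · exact absurd h hv0
  have hk1 : finrank L (Submodule.map π (LinearMap.ker Φ)) = finrank L (LinearMap.ker Φ) := by
    have hinj : Function.Injective (π.domRestrict (LinearMap.ker Φ)) := by
      rw [injective_iff_map_eq_zero]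
      intro x hx
      exact Subtype.ext (hπ x.1 x.2 hx)
    have h1 := LinearMap.finrank_range_of_inj hinj
    rw [LinearMap.range_domRestrict] at h1
    exact h1
  have hk2 := isotropic_le (fun i => f ((Matrix.mulVecLin (a i * b i - b i * a i)) v)) hf
    (Submodule.map π (LinearMap.ker Φ)) (by
      rintro _ ⟨w, hw, rfl⟩ _ ⟨w', hw', rfl⟩
      exact hiso w hw w' hw')
  have hk3 := LinearMap.finrank_range_add_finrank_ker Φ
  have hk4 : finrank L (LinearMap.range Φ) ≤ m := by
    have := Submodule.finrank_le (LinearMap.range Φ)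
    rwa [finrank_pi, Fintype.card_fin] at this
  rw [finrank_prod, finrank_prod, finrank_pi, finrank_self] at hk3
  omega

end Pool.Agent.FSC
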