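import Pool.Agent.FSC.Defs
import Pool.Agent.FSC.Lin
import Pool.Agent.FSC.Sym

namespace Pool.Agent.FSC

open Module

namespace PRep

open scoped commutatorElement

variable {A : Type*} [Group A] {L : Type*} [Field L] {m : ℕ} (R : PRep A L m)

/-- the matrix of the chosen lift -/
def M (g : A) : Matrix (Fin m) (Fin m) L := (R.P g : Matrix (Fin m) (Fin m) L)

theorem M_mul (g h : A) : ∃ c : L, c ≠ 0 ∧ R.M g * R.M h = c • R.M (g * h) := R.mul g h

theorem isUnit_M (g : A) : IsUnit (R.M g) := (R.P g).isUnit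

theorem M_one : ∃ c : L, R.M 1 = c • 1 := by
  obtain ⟨c, hc, h⟩ := R.M_mul 1 1
  rw [mul_one] at h
  refine ⟨c, ?_⟩
  have h1 : R.M 1 * R.M 1 = (c • (1 : Matrix (Fin m) (Fin m) L)) * R.M 1 := by
    rw [h, smul_mul_assoc, one_mul]
  exact (R.isUnit_M 1).mul_right_cancel h1

theorem eq_of_smul {g h : A} {c : L} (H : R.M g = c • R.M h) : g = h := by
  obtain ⟨d, hd, h1⟩ := R.M_mul g h⁻¹
  obtain ⟨e, he, h2⟩ := R.M_mul h h⁻¹
  obtain ⟨f, hf⟩ := R.M_one
  have h3 : g * h⁻¹ = 1 := by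
    refine R.inj _ ⟨d⁻¹ * (c * (e * f)), ?_⟩
    change R.M (g * h⁻¹) = _
    rw [H, smul_mul_assoc, h2, mul_inv_cancel, hf, smul_smul, smul_smul] at h1
    rw [← mul_assoc c e f, mul_smul, h1, smul_smul, inv_mul_cancel₀ hd, one_smul]
  exact mul_inv_eq_one.1 h3

theorem comm_scalar {g h : A} (H : Commute g h) :
    ∃ ω : L, ω ≠ 0 ∧ R.M g * R.M h = ω • (R.M h * R.M g) := by
  obtain ⟨c, hc, h1⟩ := R.M_mul g h
  obtain ⟨d, hd, h2⟩ := R.M_mul h g
  refine ⟨c * d⁻¹, mul_ne_zero hc (inv_ne_zero hd), ?_⟩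
  rw [h1, h2, H.eq, smul_smul, mul_assoc, inv_mul_cancel₀ hd, mul_one]

theorem ncomm {g h : A} (H : ¬ Commute g h) : R.M g * R.M h ≠ R.M h * R.M g := by
  intro h0
  obtain ⟨c, hc, h1⟩ := R.M_mul g h
  obtain ⟨d, hd, h2⟩ := R.M_mul h g
  rw [h1, h2] at h0
  refine H (R.eq_of_smul (c := c⁻¹ * d) ?_)
  rw [mul_smul, ← h0, smul_smul, inv_mul_cancel₀ hc, one_smul]

theorem exact_of_comm {h x y : A} (hx : Commute h x) (hy : Commute h y) :
    R.M h * R.M ⁅x, y⁆ = R.M ⁅x, y⁆ * R.M h := by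
  obtain ⟨c, hc, h1⟩ := R.M_mul ⁅x, y⁆ (y * x)
  obtain ⟨d, hd, h2⟩ := R.M_mul y x
  obtain ⟨e, he, h3⟩ := R.M_mul x y
  obtain ⟨ω, hω, h4⟩ := R.comm_scalar hx
  obtain ⟨ν, hν, h5⟩ := R.comm_scalar hy
  have hxy : ⁅x, y⁆ * (y * x) = x * y := by rw [commutatorElement_def]; group
  have h6 : R.M ⁅x, y⁆ * (R.M y * R.M x) = (d * c * e⁻¹) • (R.M x * R.M y) := by
    rw [h2, h3, mul_smul_comm, h1, hxy, smul_smul, smul_smul, mul_assoc, inv_mul_cancel₀ he,
      mul_one]
  have hunit : IsUnit (R.M y * R.M x) := (R.isUnit_M y).mul (R.isUnit_M x)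
  have h7 : R.M h * (R.M x * R.M y) = (ω * ν) • ((R.M x * R.M y) * R.M h) := by
    rw [← mul_assoc, h4, smul_mul_assoc, mul_assoc (R.M x), h5, mul_smul_comm, smul_smul,
      mul_assoc]
  have h8 : R.M h * (R.M y * R.M x) = (ω * ν) • ((R.M y * R.M x) * R.M h) := by
    rw [← mul_assoc, h5, smul_mul_assoc, mul_assoc (R.M y), h4, mul_smul_comm, smul_smul,
      mul_assoc, mul_comm ν ω]
  refine hunit.mul_right_cancel ?_
  rw [mul_assoc, h6, mul_smul_comm, h7, mul_assoc (R.M ⁅x, y⁆), h8, mul_smul_comm, ← mul_assoc,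
    h6, smul_mul_assoc, smul_comm]

/-- strongly commuting elements -/
theorem exact_of_sc {g h x y : A} (hg : g = ⁅x, y⁆) (hx : Commute h x) (hy : Commute h y) :
    R.M g * R.M h = R.M h * R.M g := by
  rw [hg]; exact (R.exact_of_comm hx hy).symm

theorem M_injective (g : A) : Function.Injective (Matrix.mulVecLin (R.M g)) := by
  rw [Matrix.coe_mulVecLin]
  exact Matrix.mulVec_injective_iff_isUnit.2 (R.isUnit_M g)

theorem lin_of_mul {g h : A} {ω : L} (H : R.M g * R.M h = ω • (R.M h * R.M g))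
    (v : Fin m → L) : Matrix.mulVecLin (R.M g) (Matrix.mulVecLin (R.M h) v) =
      ω • Matrix.mulVecLin (R.M h) (Matrix.mulVecLin (R.M g) v) := by
  simp only [Matrix.mulVecLin_apply]
  rw [Matrix.mulVec_mulVec, H, Matrix.smul_mulVec, Matrix.mulVec_mulVec]

theorem lin_of_exact {g h : A} (H : R.M g * R.M h = R.M h * R.M g)
    (v : Fin m → L) : Matrix.mulVecLin (R.M g) (Matrix.mulVecLin (R.M h) v) =
      Matrix.mulVecLin (R.M h) (Matrix.mulVecLin (R.M g) v) := by
  simp only [Matrix.mulVecLin_apply]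
  rw [Matrix.mulVec_mulVec, H, Matrix.mulVec_mulVec]

theorem eq_one_of_scalar {g : A} (H : ∃ μ : L, ∀ v, Matrix.mulVecLin (R.M g) v = μ • v) :
    g = 1 := by
  obtain ⟨μ, hμ⟩ := H
  refine R.inj g ⟨μ, ?_⟩
  have h1 : Matrix.mulVecLin (R.M g) = μ • LinearMap.id := by
    ext v; simp [hμ]
  have h2 := congrArg LinearMap.toMatrix' h1
  rw [map_smul, LinearMap.toMatrix'_id, ← Matrix.toLin'_apply', LinearMap.toMatrix'_toLin'] at h2
  exact h2

include R in
theorem two_le [Nontrivial A] : 2 ≤ m := by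
  by_contra hm
  obtain ⟨g, hg⟩ := exists_ne (1 : A)
  refine hg (R.inj g ?_)
  have : m = 0 ∨ m = 1 := by omega
  rcases this with rfl | rfl
  · exact ⟨0, Subsingleton.elim _ _⟩
  · refine ⟨(R.M g) 0 0, ?_⟩
    ext i j
    rw [Subsingleton.elim i 0, Subsingleton.elim j 0]
    simp [M]

theorem det_pow {g h : A} {ω : L} (H : R.M g * R.M h = ω • (R.M h * R.M g)) : ω ^ m = 1 := by
  have h1 := congrArg Matrix.det H
  rw [Matrix.det_smul, Matrix.det_mul, Matrix.det_mul, Fintype.card_fin,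
    mul_comm (R.M h).det] at h1
  have h2 : (R.M g).det * (R.M h).det ≠ 0 := by
    have hg := (Matrix.isUnit_iff_isUnit_det _).1 (R.isUnit_M g)
    have hh := (Matrix.isUnit_iff_isUnit_det _).1 (R.isUnit_M h)
    exact mul_ne_zero hg.ne_zero hh.ne_zero
  exact (mul_eq_right₀ h2).1 h1.symm

variable [IsAlgClosed L]

/-- if `ω` has no small powers equal to one, a third noncommuting pair forces `ω = 1` -/
theorem omega_eq_one {g h x y : A} (hxg : Commute x g) (hxh : Commute x h) (hyg : Commute y g)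
    (hyh : Commute y h) (hxy : ¬ Commute x y) {ω : L}
    (H : R.M g * R.M h = ω • (R.M h * R.M g)) : ∃ e, 0 < e ∧ e < m ∧ ω ^ e = 1 := by
  by_contra hcon
  push Not at hcon
  have hnt : Nontrivial A := ⟨⟨x * y, y * x, hxy⟩⟩
  have h2 := R.two_le
  have : Nontrivial (Fin m → L) := by
    have : Nonempty (Fin m) := ⟨⟨0, by omega⟩⟩
    infer_instance
  have hg := R.exact_of_comm hxg.symm hyg.symm
  have hh := R.exact_of_comm hxh.symm hyh.symm
  have hs := scalar_of_comm (L := L) (V := Fin m → L) (R.M_injective g) (R.M_injective h)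
    (R.lin_of_mul H) (by
      intro e he hlt
      rw [finrank_pi, Fintype.card_fin] at hlt
      exact hcon e he hlt) (R.lin_of_exact hg.symm) (R.lin_of_exact hh.symm)
  have h1 := R.eq_one_of_scalar hs
  exact hxy (commutatorElement_eq_one_iff_mul_comm.1 h1)

/-- prime degree: two commuting elements with a noncommuting pair in their common centraliser
have exactly commuting lifts -/
theorem exact_of_prime (hm : m.Prime) {g h x y : A} (hgh : Commute g h) (hxg : Commute x g)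
    (hxh : Commute x h) (hyg : Commute y g) (hyh : Commute y h) (hxy : ¬ Commute x y) :
    R.M g * R.M h = R.M h * R.M g := by
  obtain ⟨ω, hω, H⟩ := R.comm_scalar hgh
  obtain ⟨e, he, hlt, h1⟩ := R.omega_eq_one hxg hxh hyg hyh hxy H
  have h2 := R.det_pow H
  have h3 : ω = 1 := by
    have hcop : Nat.gcd e m = 1 := (Nat.coprime_of_lt_prime he.ne' hlt hm).symm
    have h4 : orderOf ω ∣ Nat.gcd e m :=
      Nat.dvd_gcd (orderOf_dvd_of_pow_eq_one h1) (orderOf_dvd_of_pow_eq_one h2)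
    rw [hcop, Nat.dvd_one] at h4
    exact orderOf_eq_one_iff.1 h4
  rw [H, h3, one_smul]

/-- degree four -/
theorem exact_of_four (hm : m = 4) {g h x t t' : A} (hgh : Commute g h)
    (hx : x = ⁅t, t'⁆) (htg : Commute g t) (hth : Commute h t) (ht'g : Commute g t')
    (ht'h : Commute h t') (hx1 : x ≠ 1) {u w : A} (huw : ¬ Commute u w)
    (hug : R.M u * R.M g = R.M g * R.M u) (huh : R.M u * R.M h = R.M h * R.M u)
    (hwg : R.M w * R.M g = R.M g * R.M w) (hwh : R.M w * R.M h = R.M h * R.M w)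
    (hux : R.M u * R.M x = R.M x * R.M u) (hwx : R.M w * R.M x = R.M x * R.M w)
    (hcug : Commute u g) (hcuh : Commute u h) (hcwg : Commute w g) (hcwh : Commute w h) :
    R.M g * R.M h = R.M h * R.M g := by
  obtain ⟨ω, hω, H⟩ := R.comm_scalar hgh
  by_cases hω1 : ω = 1
  · rw [H, hω1, one_smul]
  exfalso
  obtain ⟨e, he, hlt, h1⟩ := R.omega_eq_one hcug hcuh hcwg hcwh huw H
  have h2 := R.det_pow H
  subst hm
  have hω2 : ω ^ 2 = 1 := by
    interval_cases e
    · exact absurd (by simpa using h1) hω1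
    · exact h1
    · exfalso
      apply hω1
      have : ω ^ 4 = ω ^ 3 * ω := pow_succ ω 3
      rw [h2, h1, one_mul] at this
      exact this.symm
  have hxg : R.M x * R.M g = R.M g * R.M x := R.exact_of_sc hx htg ht'g
  have hxh : R.M x * R.M h = R.M h * R.M x := R.exact_of_sc hx hth ht'h
  have hcomm := comm_of_four (L := L) (V := Fin 4 → L) (by simp) (R.M_injective g)
    (R.M_injective h) (R.lin_of_mul H) hω1 hω2 (fun hs => hx1 (R.eq_one_of_scalar hs))
    (R.lin_of_exact hxg) (R.lin_of_exact hxh) (R.lin_of_exact hug) (R.lin_of_exact huh)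
    (R.lin_of_exact hwg) (R.lin_of_exact hwh) (R.lin_of_exact hux) (R.lin_of_exact hwx)
  refine R.ncomm huw ?_
  have h3 : Matrix.mulVecLin (R.M u * R.M w) = Matrix.mulVecLin (R.M w * R.M u) := by
    ext v
    rw [Matrix.mulVecLin_mul, Matrix.mulVecLin_mul]
    simp only [LinearMap.coe_comp, Function.comp_apply]
    rw [hcomm]
  have h4 := congrArg LinearMap.toMatrix' h3
  rwa [← Matrix.toLin'_apply', ← Matrix.toLin'_apply', LinearMap.toMatrix'_toLin',
    LinearMap.toMatrix'_toLin'] at h4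

end PRep

end Pool.Agent.FSC
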