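import Pool.Agent.FSC.Ord
import Pool.Agent.FSC.Pro

namespace Pool.Agent.FSC

namespace Dat

open scoped commutatorElement

variable {n : ℕ} {A : Type*} [Group A] (D : Dat n A)

/-- the index set of the `2n - 3` commuting pairs -/
abbrev Idx (p q : Fin n) := Option ({i : Fin n // i ≠ p ∧ i ≠ q} × Bool)

theorem card_Idx {p q : Fin n} (hpq : p ≠ q) : Fintype.card (Idx p q) = 2 * n - 3 := by
  have h1 : Fintype.card {i : Fin n // i ≠ p ∧ i ≠ q} = n - 2 := by
    rw [Fintype.card_subtype]
    have : (Finset.univ.filter fun i : Fin n => i ≠ p ∧ i ≠ q) = (Finset.univ.erase p).erase q := by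
      ext i; simp [and_comm]
    rw [this, Finset.card_erase_of_mem, Finset.card_erase_of_mem (Finset.mem_univ _),
      Finset.card_univ, Fintype.card_fin]
    · omega
    · exact Finset.mem_erase.2 ⟨hpq.symm, Finset.mem_univ _⟩
  have h2 : 2 ≤ n := by
    have h3 := p.2
    have h4 := q.2
    have h5 : (p : ℕ) ≠ q := fun h => hpq (Fin.ext h)
    omega
  rw [Fintype.card_option, Fintype.card_prod, Fintype.card_bool, h1]
  omega

/-- the two members of each pair -/
def el (p q : Fin n) (x : Idx p q) (c : Bool) : A :=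
  match x with
  | none => D.s (if c then q else p)
  | some (i, true) => D.l i.1 (if c then q else p)
  | some (i, false) => D.r i.1 (if c then q else p)

theorem ite_ne {p q : Fin n} (i : {i : Fin n // i ≠ p ∧ i ≠ q}) (c : Bool) :
    i.1 ≠ (if c then q else p) := by
  cases c
  · exact i.2.1
  · exact i.2.2

theorem el_comm {p q : Fin n} {x y : Idx p q} (hxy : x ≠ y) (c d : Bool) :
    Commute (D.el p q x c) (D.el p q y d) := by
  have aux : ∀ (i j : {i : Fin n // i ≠ p ∧ i ≠ q}) (b b' : Bool), (i, b) ≠ (j, b') →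
      Commute (D.el p q (some (i, b)) c) (D.el p q (some (j, b')) d) := by
    intro i j b b' h
    by_cases hij : i = j
    · subst hij
      cases b <;> cases b'
      · exact absurd rfl h
      · exact (D.comm_lr_same (ite_ne i d) (ite_ne i c)).symm
      · exact D.comm_lr_same (ite_ne i c) (ite_ne i d)
      · exact absurd rfl h
    · have hij' : i.1 ≠ j.1 := fun h => hij (Subtype.ext h)
      cases b <;> cases b'
      · exact D.comm_rr (ite_ne i c) (ite_ne j d) hij' (ite_ne i d) (ite_ne j c)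
      · exact (D.comm_lr (ite_ne j d) (ite_ne i c) hij'.symm (ite_ne j c) (ite_ne i d)).symm
      · exact D.comm_lr (ite_ne i c) (ite_ne j d) hij' (ite_ne i d) (ite_ne j c)
      · exact D.comm_ll (ite_ne i c) (ite_ne j d) hij' (ite_ne i d) (ite_ne j c)
  match x, y with
  | none, none => exact absurd rfl hxy
  | none, some (i, true) => exact (D.comm_ls (ite_ne i d) (ite_ne i c).symm).symm
  | none, some (i, false) => exact (D.comm_rs (ite_ne i d) (ite_ne i c).symm).symm
  | some (i, true), none => exact D.comm_ls (ite_ne i c) (ite_ne i d).symm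
  | some (i, false), none => exact D.comm_rs (ite_ne i c) (ite_ne i d).symm
  | some (i, b), some (j, b') => exact aux i j b b' fun h => hxy (by rw [h])

theorem el_ncomm {p q : Fin n} (hpq : p ≠ q) (x : Idx p q) :
    ¬ Commute (D.el p q x false) (D.el p q x true) := by
  match x with
  | none => exact D.s_ncomm hpq
  | some (i, true) => exact D.l_ncomm i.2.1 i.2.2 hpq
  | some (i, false) => exact D.r_ncomm i.2.1 i.2.2 hpq

section exact

variable {L : Type*} [Field L] {m : ℕ} (R : PRep A L m)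

theorem ex_ls {i a k t : Fin n} (hia : i ≠ a) (hki : k ≠ i) (hti : t ≠ i) (hta : t ≠ a)
    (htk : t ≠ k) : R.M (D.l i a) * R.M (D.s k) = R.M (D.s k) * R.M (D.l i a) :=
  R.exact_of_sc (D.l_comm hia hti.symm hta.symm).symm (D.comm_rs hta htk.symm).symm
    (D.comm_ls hti.symm hki).symm

theorem ex_rs {i a k t : Fin n} (hia : i ≠ a) (hki : k ≠ i) (hti : t ≠ i) (hta : t ≠ a)
    (htk : t ≠ k) : R.M (D.r i a) * R.M (D.s k) = R.M (D.s k) * R.M (D.r i a) :=
  R.exact_of_sc (D.r_comm hia hti.symm hta.symm).symm (D.comm_ls hta htk.symm).symm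
    (D.comm_rs hti.symm hki).symm

theorem ex_lr_same {i a b t : Fin n} (hia : i ≠ a) (hib : i ≠ b) (hti : t ≠ i) (hta : t ≠ a)
    (htb : t ≠ b) : R.M (D.l i a) * R.M (D.r i b) = R.M (D.r i b) * R.M (D.l i a) :=
  R.exact_of_sc (D.l_comm hia hti.symm hta.symm).symm
    (D.comm_rr hib hta hti.symm hia htb) (D.comm_lr_same hti.symm hib).symm

theorem ex_ll {i j a b t : Fin n} (hia : i ≠ a) (hib : i ≠ b) (hja : j ≠ a) (hjb : j ≠ b)
    (hij : i ≠ j) (hti : t ≠ i) (hta : t ≠ a) (htj : t ≠ j) (htb : t ≠ b) :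
    R.M (D.l i a) * R.M (D.l j b) = R.M (D.l j b) * R.M (D.l i a) :=
  R.exact_of_sc (D.l_comm hia hti.symm hta.symm).symm
    (D.comm_lr hjb hta htj.symm hja htb) (D.comm_ll hjb hti.symm hij.symm htj.symm hib)

theorem ex_lr {i j a b t : Fin n} (hia : i ≠ a) (hib : i ≠ b) (hja : j ≠ a) (hjb : j ≠ b)
    (hij : i ≠ j) (hti : t ≠ i) (hta : t ≠ a) (htj : t ≠ j) (htb : t ≠ b) :
    R.M (D.l i a) * R.M (D.r j b) = R.M (D.r j b) * R.M (D.l i a) :=
  R.exact_of_sc (D.l_comm hia hti.symm hta.symm).symm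
    (D.comm_rr hjb hta htj.symm hja htb) (D.comm_lr hti.symm hjb hij hib htj.symm).symm

theorem ex_rr {i j a b t : Fin n} (hia : i ≠ a) (hib : i ≠ b) (hja : j ≠ a) (hjb : j ≠ b)
    (hij : i ≠ j) (hti : t ≠ i) (hta : t ≠ a) (htj : t ≠ j) (htb : t ≠ b) :
    R.M (D.r i a) * R.M (D.r j b) = R.M (D.r j b) * R.M (D.r i a) :=
  R.exact_of_sc (D.r_comm hia hti.symm hta.symm).symm
    (D.comm_lr hta hjb htj htb hja).symm (D.comm_rr hjb hti.symm hij.symm htj.symm hib)

end exact

end Dat

end Pool.Agent.FSC
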