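import Pool.Agent.FSC.Defs

namespace Pool.Agent.FSC

open Matrix

/-- lifts of a faithful homomorphism to `PGL_m(K)`, over an extension field -/
theorem exists_PRep {A : Type*} [Group A] {K L : Type*} [Field K] [Field L] [Algebra K L] {m : ℕ}
    (f : A →* ProjGenLinGroup (Fin m) K) (hf : Function.Injective f) : Nonempty (PRep A L m) := by
  choose P₀ hP₀ using fun g : A => ProjGenLinGroup.mk_surjective (f g)
  have hmul : ∀ g h : A, ∃ u : Kˣ, (P₀ g : Matrix (Fin m) (Fin m) K) * (P₀ h) =
      (u : K) • (P₀ (g * h) : Matrix (Fin m) (Fin m) K) := by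
    intro g h
    have h1 : ProjGenLinGroup.mk (P₀ (g * h)) = ProjGenLinGroup.mk (P₀ g * P₀ h) := by
      rw [map_mul, hP₀, hP₀, hP₀, map_mul]
    obtain ⟨u, hu⟩ := ProjGenLinGroup.mk_eq_mk_iff.1 h1
    refine ⟨u, ?_⟩
    have h2 := congrArg (fun z : GL (Fin m) K => (z : Matrix (Fin m) (Fin m) K)) hu
    simp only [Units.val_mul] at h2
    rw [← h2]
    ext i j
    simp [Matrix.mul_apply, Matrix.diagonal_apply, mul_comm]
  refine ⟨⟨fun g => GeneralLinearGroup.map (algebraMap K L) (P₀ g), ?_, ?_⟩⟩
  · intro g h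
    obtain ⟨u, hu⟩ := hmul g h
    refine ⟨algebraMap K L u, (map_ne_zero _).2 u.ne_zero, ?_⟩
    have h1 := congrArg (fun M : Matrix (Fin m) (Fin m) K => M.map (algebraMap K L)) hu
    simp only [Matrix.map_mul] at h1
    ext i j
    have h2 := congrFun (congrFun h1 i) j
    simpa using h2
  · rintro g ⟨c, hc⟩
    apply hf
    rw [map_one, ← hP₀ g, ProjGenLinGroup.mk_eq_one,
      GeneralLinearGroup.mem_center_iff_val_mem_range_scalar]
    rcases Nat.eq_zero_or_pos m with rfl | hm
    · exact ⟨0, Subsingleton.elim _ _⟩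
    · have hent : ∀ i j, algebraMap K L ((P₀ g : Matrix (Fin m) (Fin m) K) i j) =
          c * (1 : Matrix (Fin m) (Fin m) L) i j := by
        intro i j
        have := congrFun (congrFun hc i) j
        simpa using this
      refine ⟨(P₀ g : Matrix (Fin m) (Fin m) K) ⟨0, hm⟩ ⟨0, hm⟩, ?_⟩
      ext i j
      apply (algebraMap K L).injective
      rw [hent i j]
      by_cases hij : i = j
      · subst hij
        rw [Matrix.scalar_apply, Matrix.diagonal_apply_eq, hent]
        simp
      · rw [Matrix.scalar_apply, Matrix.diagonal_apply_ne _ hij, Matrix.one_apply_ne hij]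
        simp

end Pool.Agent.FSC
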