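import Pool.Agent.FSC.Aut
import Pool.Agent.FSC.Copies
import Pool.Agent.FSC.Bound
import Pool.Agent.FSC.Pgl

namespace Pool.Agent.FSC

variable {n : ℕ} (N : Subgroup (FreeGroup (Fin n))) [hN : N.Characteristic]

/-- the image of the `i`-th basis element -/
def gx (i : Fin n) : FreeGroup (Fin n) ⧸ N := QuotientGroup.mk (FreeGroup.of i)

theorem closure_gx : Subgroup.closure (Set.range (gx N)) = ⊤ := by
  have h1 : Set.range (gx N) = (QuotientGroup.mk' N) '' (Set.range FreeGroup.of) := by
    rw [← Set.range_comp]; rfl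
  rw [h1, ← MonoidHom.map_closure, FreeGroup.closure_range_of, ← MonoidHom.range_eq_map]
  exact MonoidHom.range_eq_top.2 (QuotientGroup.mk'_surjective N)

/-- the induced automorphism `x_i ↦ x_j ^ a x_i x_j ^ b` -/
noncomputable def qAut (i j : Fin n) (a b : ℤ) : MulAut (FreeGroup (Fin n) ⧸ N) :=
  if h : j ≠ i then ind N hN (elemAut h a b) else 1

theorem qAut_self {i j : Fin n} (hij : i ≠ j) (a b : ℤ) :
    qAut N i j a b (gx N i) = gx N j ^ a * gx N i * gx N j ^ b := by
  rw [qAut, dif_pos hij.symm, gx, ind_mk, elemAut_self]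
  rfl

theorem qAut_other {i j k : Fin n} (hij : i ≠ j) (hk : k ≠ i) (a b : ℤ) :
    qAut N i j a b (gx N k) = gx N k := by
  rw [qAut, dif_pos hij.symm, gx, ind_mk, elemAut_other hij.symm hk]

variable [hS : IsSimpleGroup (FreeGroup (Fin n) ⧸ N)]

include hN hS in
theorem gx_ne (k : Fin n) : gx N k ≠ 1 := by
  intro h
  have hall : ∀ j, gx N j = 1 := by
    intro j
    by_cases hjk : k = j
    · rw [← hjk]; exact h
    · have h1 := qAut_self N hjk 1 0
      rw [h, map_one, zpow_one, zpow_zero, mul_one, mul_one] at h1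
      exact h1.symm
  have h1 := closure_gx N
  have h2 : Subgroup.closure (Set.range (gx N)) ≤ ⊥ := by
    rw [Subgroup.closure_le]
    rintro _ ⟨j, rfl⟩
    exact hall j
  rw [h1] at h2
  exact top_ne_bot (le_bot_iff.1 h2)

include hN hS in
theorem center_eq_bot (hn : 3 ≤ n) : Subgroup.center (FreeGroup (Fin n) ⧸ N) = ⊥ := by
  rcases (inferInstance : (Subgroup.center (FreeGroup (Fin n) ⧸ N)).Normal).eq_bot_or_eq_top with
    h | h
  · exact h
  exfalso
  have hcomm : ∀ a b : FreeGroup (Fin n) ⧸ N, a * b = b * a := fun a b =>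
    (Subgroup.mem_center_iff.1 (by rw [h]; trivial : b ∈ Subgroup.center _) a)
  obtain ⟨p, q, hpq⟩ := Dat.exists_two (n := n) (by omega)
  have hnorm : (Subgroup.zpowers (gx N p)).Normal := ⟨fun x hx g => by
    rw [hcomm g x, mul_inv_cancel_right]; exact hx⟩
  have htop : Subgroup.zpowers (gx N p) = ⊤ := by
    rcases hnorm.eq_bot_or_eq_top with h0 | h0
    · exact absurd (Subgroup.zpowers_eq_bot.1 h0) (gx_ne N p)
    · exact h0
  obtain ⟨a, ha⟩ := Subgroup.mem_zpowers_iff.1
    (by rw [htop]; trivial : gx N q ∈ Subgroup.zpowers (gx N p))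
  have h1 := qAut_self N hpq.symm (-a) 0
  rw [← ha, zpow_zero, mul_one, zpow_neg, inv_mul_cancel, ha] at h1
  have h2 : gx N q = 1 := by
    apply (qAut N q p (-a) 0).injective
    rw [h1, map_one]
  exact gx_ne N q h2

/-- the Nielsen datum in `Aut(S)` -/
noncomputable def dAut (hn : 3 ≤ n) : Dat n (MulAut (FreeGroup (Fin n) ⧸ N)) :=
  datAut (gx N) (closure_gx N) (center_eq_bot N hn) (gx_ne N) (fun i j => qAut N i j 1 0)
    (fun i j => qAut N i j 0 1)
    (fun i j h => by rw [qAut_self N h]; simp) (fun i j k h hk => qAut_other N h hk _ _)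
    (fun i j h => by rw [qAut_self N h]; simp) (fun i j k h hk => qAut_other N h hk _ _)

include hN hS in
theorem dInner (hn : 3 ≤ n)
    (hOut : ∃ k, derivedSeries (MulAut (FreeGroup (Fin n) ⧸ N)) k ≤
      (MulAut.conj : FreeGroup (Fin n) ⧸ N →* MulAut (FreeGroup (Fin n) ⧸ N)).range) :
    ∃ D : Dat n (FreeGroup (Fin n) ⧸ N), D.s = gx N := by
  obtain ⟨k, hk⟩ := hOut
  exact datInner hn (gx N) (closure_gx N) (center_eq_bot N hn) (gx_ne N)
    (fun i j => qAut N i j 1 0) (fun i j => qAut N i j 0 1)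
    (fun i j h => by rw [qAut_self N h]; simp) (fun i j k h hk => qAut_other N h hk _ _)
    (fun i j h => by rw [qAut_self N h]; simp) (fun i j k h hk => qAut_other N h hk _ _) hk

include hN hS in
theorem degree_aut (hn : 3 ≤ n) {K : Type*} [Field K] {m : ℕ} (hm : m < 2 * n - 2)
    (f : MulAut (FreeGroup (Fin n) ⧸ N) →* Matrix.ProjGenLinGroup (Fin m) K)
    (s : FreeGroup (Fin n) ⧸ N) : f (MulAut.conj s) = 1 := by
  -- the kernel of the restriction to inner automorphisms
  rcases (inferInstance : (f.comp MulAut.conj).ker.Normal).eq_bot_or_eq_top with h | h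
  · exfalso
    have hinj : Function.Injective f := by
      rw [injective_iff_map_eq_one]
      intro g hg
      ext y
      rw [MulAut.one_apply]
      have h1 : g y * y⁻¹ ∈ (f.comp MulAut.conj).ker := by
        rw [MonoidHom.mem_ker, MonoidHom.comp_apply, map_mul, map_mul, ← conj_conj,
          MulAut.conj_apply, map_mul, map_mul, map_inv, hg, one_mul, inv_one, mul_one, ← map_mul,
          ← map_mul, mul_inv_cancel, map_one, map_one]
      rw [h, Subgroup.mem_bot] at h1
      exact mul_inv_eq_one.1 h1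
    obtain ⟨R⟩ := exists_PRep (L := AlgebraicClosure K) f hinj
    have := (dAut N hn).bound R hn
    omega
  · have h1 : s ∈ (f.comp MulAut.conj).ker := by rw [h]; trivial
    exact h1

include hN hS in
theorem degree_simple (hn : 3 ≤ n) {K : Type*} [Field K] {m : ℕ} (hm : m < 2 * n - 2)
    (hOut : ∃ k, derivedSeries (MulAut (FreeGroup (Fin n) ⧸ N)) k ≤
      (MulAut.conj : FreeGroup (Fin n) ⧸ N →* MulAut (FreeGroup (Fin n) ⧸ N)).range)
    (f : FreeGroup (Fin n) ⧸ N →* Matrix.ProjGenLinGroup (Fin m) K) : f = 1 := by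
  rcases (inferInstance : f.ker.Normal).eq_bot_or_eq_top with h | h
  · exfalso
    obtain ⟨D, -⟩ := dInner N hn hOut
    obtain ⟨R⟩ := exists_PRep (L := AlgebraicClosure K) f ((MonoidHom.ker_eq_bot_iff f).1 h)
    have := D.bound R hn
    omega
  · refine MonoidHom.ext fun s => ?_
    exact MonoidHom.mem_ker.1 (by rw [h]; trivial : s ∈ f.ker)

include hN hS in
theorem copies_simple (hn : 3 ≤ n)
    (hOut : ∃ k, derivedSeries (MulAut (FreeGroup (Fin n) ⧸ N)) k ≤
      (MulAut.conj : FreeGroup (Fin n) ⧸ N →* MulAut (FreeGroup (Fin n) ⧸ N)).range)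
    (I : Finset (Fin n)) :
    ∃ φ : Fin (2 * (n - I.card)) → (Subgroup.closure (gx N '' (I : Set (Fin n))) →*
        FreeGroup (Fin n) ⧸ N), (∀ x, Function.Injective (φ x)) ∧
      (∀ x y, x ≠ y → ∀ a b, Commute (φ x a) (φ y b)) ∧
      (∀ x a, ∀ u ∈ Subgroup.closure (gx N '' (I : Set (Fin n))), Commute (φ x a) u) ∧
      (I.card + 2 ≤ n → iSupIndep fun x => (φ x).range) := by
  obtain ⟨D, hD⟩ := dInner N hn hOut
  have := D.copies I
  rw [Dat.U, hD] at this
  exact this

end Pool.Agent.FSC
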