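import Pool.Agent.FSC.Defs

namespace Pool.Agent.FSC

namespace Dat

open scoped commutatorElement

variable {n : ℕ} {A : Type*} [Group A] (D : Dat n A)

theorem comm_ext {g h : A}
    (H : ∀ k, MulAut.conj g (MulAut.conj h (D.s k)) = MulAut.conj h (MulAut.conj g (D.s k))) :
    Commute g h := by
  refine D.ext_conj fun k => ?_
  rw [map_mul, map_mul, MulAut.mul_apply, MulAut.mul_apply]
  exact H k

theorem comm_ll {i j i' j' : Fin n} (h1 : i ≠ j) (h2 : i' ≠ j') (h3 : i ≠ i') (h4 : i ≠ j')
    (h5 : i' ≠ j) : Commute (D.l i j) (D.l i' j') := by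
  refine D.comm_ext fun k => ?_
  by_cases hk : k = i
  · subst hk
    rw [D.l_other i' j' k h2 h3, D.l_self k j h1, map_mul, D.l_other i' j' j h2 h5.symm,
      D.l_other i' j' k h2 h3]
  · by_cases hk' : k = i'
    · subst hk'
      rw [D.l_self k j' h2, D.l_other i j k h1 h3.symm, D.l_self k j' h2, map_mul,
        D.l_other i j j' h1 h4.symm, D.l_other i j k h1 h3.symm]
    · rw [D.l_other i' j' k h2 hk', D.l_other i j k h1 hk, D.l_other i' j' k h2 hk']

theorem comm_rr {i j i' j' : Fin n} (h1 : i ≠ j) (h2 : i' ≠ j') (h3 : i ≠ i') (h4 : i ≠ j')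
    (h5 : i' ≠ j) : Commute (D.r i j) (D.r i' j') := by
  refine D.comm_ext fun k => ?_
  by_cases hk : k = i
  · subst hk
    rw [D.r_other i' j' k h2 h3, D.r_self k j h1, map_mul, D.r_other i' j' j h2 h5.symm,
      D.r_other i' j' k h2 h3]
  · by_cases hk' : k = i'
    · subst hk'
      rw [D.r_self k j' h2, D.r_other i j k h1 h3.symm, D.r_self k j' h2, map_mul,
        D.r_other i j j' h1 h4.symm, D.r_other i j k h1 h3.symm]
    · rw [D.r_other i' j' k h2 hk', D.r_other i j k h1 hk, D.r_other i' j' k h2 hk']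

theorem comm_lr {i j i' j' : Fin n} (h1 : i ≠ j) (h2 : i' ≠ j') (h3 : i ≠ i') (h4 : i ≠ j')
    (h5 : i' ≠ j) : Commute (D.l i j) (D.r i' j') := by
  refine D.comm_ext fun k => ?_
  by_cases hk : k = i
  · subst hk
    rw [D.r_other i' j' k h2 h3, D.l_self k j h1, map_mul, D.r_other i' j' j h2 h5.symm,
      D.r_other i' j' k h2 h3]
  · by_cases hk' : k = i'
    · subst hk'
      rw [D.r_self k j' h2, D.l_other i j k h1 h3.symm, D.r_self k j' h2, map_mul,
        D.l_other i j j' h1 h4.symm, D.l_other i j k h1 h3.symm]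
    · rw [D.r_other i' j' k h2 hk', D.l_other i j k h1 hk, D.r_other i' j' k h2 hk']

theorem comm_lr_same {i j j' : Fin n} (h1 : i ≠ j) (h2 : i ≠ j') :
    Commute (D.l i j) (D.r i j') := by
  refine D.comm_ext fun k => ?_
  by_cases hk : k = i
  · subst hk
    rw [D.r_self k j' h2, D.l_self k j h1, map_mul, map_mul, D.l_self k j h1,
      D.l_other k j j' h1 h2.symm, D.r_other k j' j h2 h1.symm, D.r_self k j' h2, mul_assoc]
  · rw [D.r_other i j' k h2 hk, D.l_other i j k h1 hk, D.r_other i j' k h2 hk]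

theorem comm_ls {i j k : Fin n} (h1 : i ≠ j) (h2 : k ≠ i) : Commute (D.l i j) (D.s k) := by
  have := D.l_other i j k h1 h2
  rw [MulAut.conj_apply, mul_inv_eq_iff_eq_mul] at this
  exact this

theorem comm_rs {i j k : Fin n} (h1 : i ≠ j) (h2 : k ≠ i) : Commute (D.r i j) (D.s k) := by
  have := D.r_other i j k h1 h2
  rw [MulAut.conj_apply, mul_inv_eq_iff_eq_mul] at this
  exact this

theorem linv_self' {i j : Fin n} (hij : i ≠ j) :
    (MulAut.conj (D.l i j))⁻¹ (D.s i) = (D.s j)⁻¹ * D.s i := by
  rw [← map_inv]; exact D.linv_self hij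

theorem linv_other' {i j k : Fin n} (hij : i ≠ j) (hk : k ≠ i) :
    (MulAut.conj (D.l i j))⁻¹ (D.s k) = D.s k := by
  rw [← map_inv]; exact D.linv_other hij hk

theorem rinv_self' {i j : Fin n} (hij : i ≠ j) :
    (MulAut.conj (D.r i j))⁻¹ (D.s i) = D.s i * (D.s j)⁻¹ := by
  rw [← map_inv]; exact D.rinv_self hij

theorem rinv_other' {i j k : Fin n} (hij : i ≠ j) (hk : k ≠ i) :
    (MulAut.conj (D.r i j))⁻¹ (D.s k) = D.s k := by
  rw [← map_inv]; exact D.rinv_other hij hk

theorem l_comm {i j k : Fin n} (hij : i ≠ j) (hik : i ≠ k) (hjk : j ≠ k) :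
    ⁅D.r k j, D.l i k⁆ = D.l i j := by
  refine D.ext_conj fun t => ?_
  by_cases ht : t = i
  · subst ht
    simp only [commutatorElement_def, map_mul, map_inv, MulAut.mul_apply, D.linv_self' hik,
      D.rinv_self' hjk.symm, D.rinv_other' hjk.symm hik, D.l_other t k k hik hik.symm,
      D.l_other t k j hik hij.symm, D.l_self t k hik, D.r_self k j hjk.symm,
      D.r_other k j j hjk.symm hjk, D.r_other k j t hjk.symm hik, D.l_self t j hij]
    group
  · by_cases htk : t = k
    · subst htk
      simp only [commutatorElement_def, map_mul, map_inv, MulAut.mul_apply, D.linv_other' hik ht,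
        D.l_other i j t hij ht, D.rinv_self' hjk.symm, D.l_other i t t hik hik.symm,
        D.l_other i t j hik hij.symm, D.r_self t j hjk.symm, D.r_other t j j hjk.symm hjk]
      group
    · simp only [commutatorElement_def, map_mul, map_inv, MulAut.mul_apply, D.linv_other' hik ht,
        D.l_other i j t hij ht, D.rinv_other' hjk.symm htk, D.l_other i k t hik ht,
        D.r_other k j t hjk.symm htk]

theorem r_comm {i j k : Fin n} (hij : i ≠ j) (hik : i ≠ k) (hjk : j ≠ k) :
    ⁅D.l k j, D.r i k⁆ = D.r i j := by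
  refine D.ext_conj fun t => ?_
  by_cases ht : t = i
  · subst ht
    simp only [commutatorElement_def, map_mul, map_inv, MulAut.mul_apply, D.rinv_self' hik,
      D.linv_self' hjk.symm, D.linv_other' hjk.symm hik, D.r_other t k k hik hik.symm,
      D.r_other t k j hik hij.symm, D.r_self t k hik, D.l_self k j hjk.symm,
      D.l_other k j j hjk.symm hjk, D.l_other k j t hjk.symm hik, D.r_self t j hij]
    group
  · by_cases htk : t = k
    · subst htk
      simp only [commutatorElement_def, map_mul, map_inv, MulAut.mul_apply, D.rinv_other' hik ht,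
        D.r_other i j t hij ht, D.linv_self' hjk.symm, D.r_other i t t hik hik.symm,
        D.r_other i t j hik hij.symm, D.l_self t j hjk.symm, D.l_other t j j hjk.symm hjk]
      group
    · simp only [commutatorElement_def, map_mul, map_inv, MulAut.mul_apply, D.rinv_other' hik ht,
        D.r_other i j t hij ht, D.linv_other' hjk.symm htk, D.r_other i k t hik ht,
        D.l_other k j t hjk.symm htk]

/-- an element commuting with every `s k` is trivial -/
theorem eq_one_of_comm {g : A} (H : ∀ k, Commute g (D.s k)) : g = 1 := by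
  refine D.faithful g fun k => ?_
  rw [MulAut.conj_apply, mul_inv_eq_iff_eq_mul]
  exact H k

/-- commuting is preserved by conjugation -/
theorem conj_comm {g x y : A} (H : Commute x y) : Commute (MulAut.conj g x) (MulAut.conj g y) :=
  H.map (MulAut.conj g).toMonoidHom

theorem s_ncomm {p q : Fin n} (hpq : p ≠ q) : ¬ Commute (D.s p) (D.s q) := by
  intro H
  refine D.s_ne p (D.eq_one_of_comm fun k => ?_)
  by_cases hkp : k = p
  · subst hkp; exact Commute.refl _
  by_cases hkq : k = q
  · subst hkq; exact H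
  have h1 := conj_comm (g := D.l q k) H
  rw [D.l_other q k p (Ne.symm hkq) hpq, D.l_self q k (Ne.symm hkq)] at h1
  have h2 := h1.mul_right H.inv_right
  rw [mul_inv_cancel_right] at h2
  exact h2

theorem l_ncomm {i p q : Fin n} (hip : i ≠ p) (hiq : i ≠ q) (hpq : p ≠ q) :
    ¬ Commute (D.l i p) (D.l i q) := by
  intro H
  have h1 : MulAut.conj (D.l i p) (MulAut.conj (D.l i q) (D.s i)) =
      MulAut.conj (D.l i q) (MulAut.conj (D.l i p) (D.s i)) := by
    rw [← MulAut.mul_apply, ← MulAut.mul_apply, ← map_mul, ← map_mul, H.eq]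
  rw [D.l_self i q hiq, D.l_self i p hip, map_mul, map_mul, D.l_self i q hiq, D.l_self i p hip,
    D.l_other i p q hip hiq.symm, D.l_other i q p hiq hip.symm, ← mul_assoc, ← mul_assoc,
    mul_left_inj] at h1
  exact D.s_ncomm hpq h1.symm

theorem r_ncomm {i p q : Fin n} (hip : i ≠ p) (hiq : i ≠ q) (hpq : p ≠ q) :
    ¬ Commute (D.r i p) (D.r i q) := by
  intro H
  have h1 : MulAut.conj (D.r i p) (MulAut.conj (D.r i q) (D.s i)) =
      MulAut.conj (D.r i q) (MulAut.conj (D.r i p) (D.s i)) := by
    rw [← MulAut.mul_apply, ← MulAut.mul_apply, ← map_mul, ← map_mul, H.eq]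
  rw [D.r_self i q hiq, D.r_self i p hip, map_mul, map_mul, D.r_self i q hiq, D.r_self i p hip,
    D.r_other i p q hip hiq.symm, D.r_other i q p hiq hip.symm, mul_assoc, mul_assoc,
    mul_right_inj] at h1
  exact D.s_ncomm hpq h1

end Dat

end Pool.Agent.FSC
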